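import Pool.Agent.Lib.MP_ef2672_gt_Eutaxy.Perturb
import Pool.Agent.Lib.MP_09cbbd_vw.Def

/-!
Dense lattice packings by ellipsoids which evolve deterministically (potential
`2 log det + c log (1 + zeta)`), and hard spheres: the rows of the project.
-/

set_option autoImplicit false

namespace Pool.Agent.KLG

open Matrix MeasureTheory Pool.Agent.Lib.MP_ef2672_gt_Tauber Pool.Agent.Lib.MP_ef2672_gt_Eutaxy

/-- All nonzero vectors of the lattice `M ℤⁿ` have length at least `1`. -/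
def Adm {n : ℕ} (M : Matrix (Fin n) (Fin n) ℝ) : Prop :=
  M.det ≠ 0 ∧ ∀ w : Fin n → ℤ, w ≠ 0 → 1 ≤ normSq M w

/-- The Epstein zeta function `∑ |x|^(-2 m)` over the nonzero vectors of `M ℤⁿ`. -/
noncomputable def Zt {n : ℕ} (m : ℝ) (M : Matrix (Fin n) (Fin n) ℝ) : ℝ :=
  ∑' w : {w : Fin n → ℤ // w ≠ 0}, normSq M w.1 ^ (-m)

/-- The volume of the unit ball. -/
noncomputable def kap (n : ℕ) : ℝ := (volume {x : Fin n → ℝ | ∑ k, x k ^ 2 < 1}).toReal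

/-- The potential. -/
noncomputable def Psi {n : ℕ} (m c : ℝ) (M : Matrix (Fin n) (Fin n) ℝ) : ℝ :=
  2 * Real.log |M.det| + c * Real.log (1 + Zt m M)

/-- Moving the lattice by `(1 ± t C)^(1/2)`. -/
def RowA : Prop := ∀ (n : ℕ) (A C : Matrix (Fin n) (Fin n) ℝ) (t : ℝ), A.det ≠ 0 →
  C.transpose = C → (∑ i, ∑ j, C i j ^ 2 = 1) → 0 < t → t ≤ 1 / 2 →
  ∃ A1 A2 : Matrix (Fin n) (Fin n) ℝ, A1.det ≠ 0 ∧ A2.det ≠ 0 ∧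
    Real.log |A1.det| + Real.log |A2.det| ≤ 2 * Real.log |A.det| - t ^ 2 / 2 ∧
    (∀ w : Fin n → ℤ, normSq A1 w =
      normSq A w + t * dotProduct (vec A w) (C.mulVec (vec A w))) ∧
    (∀ w : Fin n → ℤ, normSq A2 w =
      normSq A w - t * dotProduct (vec A w) (C.mulVec (vec A w)))

/-- Orthonormal symmetric matrices which vanish on given vectors. -/
def RowB : Prop := ∀ (n : ℕ) (Y : Finset (Fin n → ℝ)),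
  ∃ (D : ℕ) (C : Fin D → Matrix (Fin n) (Fin n) ℝ),
    (n : ℝ) * (n + 1) / 2 ≤ D + Y.card ∧
    (∀ i, (C i).transpose = C i ∧ (∑ k, ∑ l, C i k l ^ 2 = 1) ∧
      ∀ y ∈ Y, dotProduct y ((C i).mulVec y) = 0) ∧
    ∀ x : Fin n → ℝ, ∑ i, dotProduct x ((C i).mulVec x) ^ 2 ≤ dotProduct x x ^ 2

/-- The scalar inequality. -/
def RowC : Prop := ∀ m κ : ℝ, 0 < m → 0 < κ → ∃ t0 : ℝ, 0 < t0 ∧ t0 ≤ 1 / 2 ∧
  ∀ u : ℝ, |u| ≤ t0 → (1 + u) ^ (-m) + (1 - u) ^ (-m) ≤ 2 + m * (m + 1) * (1 + κ) * u ^ 2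

/-- The zeta function converges. -/
def RowD : Prop := ∀ (n : ℕ) (M : Matrix (Fin n) (Fin n) ℝ) (m : ℝ), M.det ≠ 0 →
  (n : ℝ) / 2 < m → Summable fun w : {w : Fin n → ℤ // w ≠ 0} => normSq M w.1 ^ (-m)

/-- Determinants of admissible lattices are bounded below. -/
def RowE : Prop := ∀ n : ℕ, 0 < n → ∃ L : ℝ, 0 < L ∧
  ∀ M : Matrix (Fin n) (Fin n) ℝ, Adm M → L ≤ |M.det|

/-- The step. -/
def RowF : Prop := ∀ (n : ℕ) (m c κ : ℝ), 0 < n → (n : ℝ) / 2 < m → 0 < c → 0 < κ →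
  ∃ e : ℝ, 0 < e ∧ ∀ M : Matrix (Fin n) (Fin n) ℝ, Adm M →
    (∃ M' : Matrix (Fin n) (Fin n) ℝ, Adm M' ∧ Psi m c M' ≤ Psi m c M - e) ∨
    (n : ℝ) * (n + 1) / 2 - c * m * (m + 1) * (1 + κ) ^ 2 ≤ 2 * Zt m M

/-- The end of the descent. -/
def RowG : Prop := ∀ (n : ℕ) (m c κ : ℝ), 0 < n → (n : ℝ) / 2 < m → 0 < c → 0 < κ →
  ∀ M0 : Matrix (Fin n) (Fin n) ℝ, Adm M0 →
    ∃ M : Matrix (Fin n) (Fin n) ℝ, Adm M ∧ Psi m c M ≤ Psi m c M0 ∧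
      (n : ℝ) * (n + 1) / 2 - c * m * (m + 1) * (1 + κ) ^ 2 ≤ 2 * Zt m M

/-- The first lattice. -/
def RowH : Prop := ∀ η : ℝ, 0 < η → ∃ K : ℝ, 0 < K ∧ ∀ n : ℕ, 2 ≤ n →
  ∃ M : Matrix (Fin n) (Fin n) ℝ, Adm M ∧ |M.det| ≤ 4 * kap n ∧ Zt ((1 + η) * n / 2) M ≤ K

/-- Dense lattice packings. -/
def RowI : Prop := ∀ s : ℝ, 0 < s → ∃ n0 : ℕ, ∀ n : ℕ, n0 ≤ n →
  ∃ M : Matrix (Fin n) (Fin n) ℝ, Adm M ∧ |M.det| * (n : ℝ) ^ (2 - s) ≤ kap n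

/-- Hard spheres in the cells of a lattice packing. -/
def RowJ : Prop := ∀ (d : ℕ), 1 ≤ d → ∀ (a : ℝ), 0 < a → ∀ (f : ℝ → ℝ) (ρ₀ : ℝ),
  Pool.Agent.VdwGas.IsF d a (fun _ => 0) f ρ₀ → ∀ M : Matrix (Fin d) (Fin d) ℝ, Adm M →
  ∀ ρ : ℝ, 0 < ρ → ρ * |M.det| * (2 * a * (1 + 1 / d)) ^ d ≤ 1 →
    ρ < ρ₀ ∧ ρ * Real.log (kap d * (a / d) ^ d) ≤ f ρ

/-- The critical strength of the attraction. -/
def RowK : Prop := ∀ s : ℝ, 0 < s → ∃ d0 : ℕ, ∀ d : ℕ, d0 ≤ d → ∀ a : ℝ, 0 < a →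
  ∀ (f : ℝ → ℝ) (ρ₀ : ℝ), Pool.Agent.VdwGas.IsF d a (fun _ => 0) f ρ₀ →
    ¬ ConcaveOn ℝ (Set.Ioo 0 ρ₀)
      fun x => f x + (kap d * (2 * a) ^ d * (d : ℝ) ^ (s - 1)) / 2 * x ^ 2

/-- Mean field theory is false beyond `(2 + s) d log d`. -/
def RowL : Prop := ∀ s : ℝ, 0 < s → ∃ d0 : ℕ, ∀ d : ℕ, d0 ≤ d → ∀ a : ℝ, 0 < a →
  ∀ (f : ℝ → ℝ) (ρ₀ : ℝ), Pool.Agent.VdwGas.IsF d a (fun _ => 0) f ρ₀ →
    ∀ ρ x b : ℝ, b = kap d * (2 * a) ^ d → x = ρ * b →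
      (2 + s) * (d * Real.log d) ≤ x → x ≤ (d : ℝ) ^ (2 - s) →
        ρ < ρ₀ ∧ x - x * Real.log ρ - x ^ 2 / 2 + s / 4 * x * (d * Real.log d) ≤ b * f ρ

end Pool.Agent.KLG
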