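import Pool.Agent.Lib.KLG.Rows
import Pool.Agent.Lib.MP_ef2672_gt_Tauber.Upper

/-!
Rows D (the zeta function converges) and E (determinants of admissible lattices are bounded
below).
-/

set_option autoImplicit false

namespace Pool.Agent.KLG

open Matrix MeasureTheory Pool.Agent.Lib.MP_ef2672_gt_Tauber Pool.Agent.Lib.MP_ef2672_gt_Eutaxy

/-- The quadratic form is bounded below by the sup norm. -/
lemma exists_low {n : ℕ} (M : Matrix (Fin n) (Fin n) ℝ) (hM : M.det ≠ 0) :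
    ∃ C : ℝ, 0 < C ∧ ∀ w : Fin n → ℤ,
      ‖(fun j => (w j : ℝ) : Fin n → ℝ)‖ ^ 2 ≤ C ^ 2 * normSq M w := by
  classical
  set C : ℝ := 1 + ∑ i, ∑ j, |M⁻¹ i j| with hC
  have hC0 : 0 ≤ ∑ i, ∑ j, |M⁻¹ i j| :=
    Finset.sum_nonneg fun i _ => Finset.sum_nonneg fun j _ => abs_nonneg _
  refine ⟨C, by positivity, fun w => ?_⟩
  have hN := normSq_nonneg M w
  have hcoord : ∀ i, |(Matrix.mulVec M (fun j => (w j : ℝ))) i| ≤ √(normSq M w) := by
    intro i
    have h1 : (Matrix.mulVec M (fun j => (w j : ℝ))) i ^ 2 ≤ normSq M w :=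
      Finset.single_le_sum (f := fun i => (Matrix.mulVec M (fun j => (w j : ℝ))) i ^ 2)
        (fun j _ => sq_nonneg _) (Finset.mem_univ i)
    exact Real.abs_le_sqrt h1
  have hinv : ∀ i, (w i : ℝ) = ∑ j, M⁻¹ i j * (Matrix.mulVec M (fun j => (w j : ℝ))) j := by
    intro i
    have h1 : Matrix.mulVec M⁻¹ (Matrix.mulVec M (fun j => (w j : ℝ))) = fun j => (w j : ℝ) := by
      rw [Matrix.mulVec_mulVec, Matrix.nonsing_inv_mul _ (isUnit_iff_ne_zero.2 hM),
        Matrix.one_mulVec]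
    exact (congrFun h1 i).symm
  have hbound : ∀ i, |(w i : ℝ)| ≤ C * √(normSq M w) := by
    intro i
    rw [hinv i]
    refine (Finset.abs_sum_le_sum_abs _ _).trans ?_
    have h1 : ∑ j, |M⁻¹ i j * (Matrix.mulVec M (fun j => (w j : ℝ))) j|
        ≤ ∑ j, |M⁻¹ i j| * √(normSq M w) := by
      refine Finset.sum_le_sum fun j _ => ?_
      rw [abs_mul]
      exact mul_le_mul_of_nonneg_left (hcoord j) (abs_nonneg _)
    refine h1.trans ?_
    rw [← Finset.sum_mul]
    refine mul_le_mul_of_nonneg_right ?_ (Real.sqrt_nonneg _)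
    have h2 := Finset.single_le_sum (f := fun i => ∑ j, |M⁻¹ i j|)
      (fun i _ => Finset.sum_nonneg fun j _ => abs_nonneg _) (Finset.mem_univ i)
    have h3 : ∑ j, |M⁻¹ i j| ≤ ∑ i, ∑ j, |M⁻¹ i j| := h2
    linarith
  have hnorm : ‖(fun j => (w j : ℝ) : Fin n → ℝ)‖ ≤ C * √(normSq M w) := by
    rw [pi_norm_le_iff_of_nonneg (by positivity)]
    intro i
    rw [Real.norm_eq_abs]
    exact hbound i
  calc ‖(fun j => (w j : ℝ) : Fin n → ℝ)‖ ^ 2 ≤ (C * √(normSq M w)) ^ 2 :=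
        pow_le_pow_left₀ (norm_nonneg _) hnorm 2
    _ = C ^ 2 * normSq M w := by rw [mul_pow, Real.sq_sqrt hN]

theorem rowD : RowD := by
  intro n M m hM hm
  classical
  have hm0 : 0 < m := lt_of_le_of_lt (by positivity) hm
  obtain ⟨C, hC, hlow⟩ := exists_low M hM
  set L : Submodule ℤ (Fin n → ℝ) := Submodule.span ℤ (Set.range (Pi.basisFun ℝ (Fin n))) with hL
  have hfr : Module.finrank ℤ L = n := by
    have h1 := ZLattice.rank ℝ L
    rw [Module.finrank_fin_fun] at h1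
    exact h1
  have hs := ZLattice.summable_norm_rpow L (-(2 * m)) (by rw [hfr]; linarith)
  have hmem : ∀ w : Fin n → ℤ, (fun j => (w j : ℝ) : Fin n → ℝ) ∈ L := by
    intro w
    rw [hL, Submodule.mem_span_range_iff_exists_fun]
    refine ⟨w, ?_⟩
    ext i
    rw [Finset.sum_apply]
    simp [Pi.single_apply]
  let emb : {w : Fin n → ℤ // w ≠ 0} → L := fun w => ⟨fun j => (w.1 j : ℝ), hmem w.1⟩
  have hemb : Function.Injective emb := by
    intro a b hab
    apply Subtype.ext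
    funext i
    have h1 := congrFun (congrArg Subtype.val hab) i
    simp only [emb] at h1
    exact_mod_cast h1
  have hs2 := (hs.comp_injective hemb).mul_left ((C ^ 2) ^ m)
  refine Summable.of_nonneg_of_le (fun w => Real.rpow_nonneg (normSq_nonneg M w.1) _) (fun w => ?_) hs2
  have hw0 : 0 < ‖(fun j => (w.1 j : ℝ) : Fin n → ℝ)‖ := by
    rw [norm_pos_iff]
    intro h
    apply w.2
    funext i
    have := congrFun h i
    simp only [Pi.zero_apply] at this
    exact_mod_cast this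
  have h1 := hlow w.1
  have h2 : 0 < normSq M w.1 := by
    by_contra h
    have h3 : normSq M w.1 = 0 := le_antisymm (not_lt.1 h) (normSq_nonneg M w.1)
    rw [h3, mul_zero] at h1
    have : 0 < ‖(fun j => (w.1 j : ℝ) : Fin n → ℝ)‖ ^ 2 := by positivity
    linarith
  have hv : ‖(emb w : L)‖ = ‖(fun j => (w.1 j : ℝ) : Fin n → ℝ)‖ := rfl
  simp only [Function.comp_apply, hv]
  have h4 : ‖(fun j => (w.1 j : ℝ) : Fin n → ℝ)‖ ^ (-(2 * m))
      = (‖(fun j => (w.1 j : ℝ) : Fin n → ℝ)‖ ^ 2) ^ (-m) := by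
    rw [← Real.rpow_natCast, ← Real.rpow_mul hw0.le]
    congr 1
    push_cast; ring
  rw [h4]
  have h5 : (C ^ 2 * normSq M w.1) ^ (-m) ≤ (‖(fun j => (w.1 j : ℝ) : Fin n → ℝ)‖ ^ 2) ^ (-m) :=
    Real.rpow_le_rpow_of_nonpos (by positivity) h1 (by linarith)
  have h6 : (C ^ 2 * normSq M w.1) ^ (-m) = (C ^ 2) ^ (-m) * normSq M w.1 ^ (-m) :=
    Real.mul_rpow (by positivity) h2.le
  have h7 : (C ^ 2) ^ m * (C ^ 2) ^ (-m) = 1 := by
    rw [← Real.rpow_add (by positivity)]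
    simp
  calc normSq M w.1 ^ (-m) = (C ^ 2) ^ m * (C ^ 2 * normSq M w.1) ^ (-m) := by
        rw [h6, ← mul_assoc, h7, one_mul]
    _ ≤ _ := mul_le_mul_of_nonneg_left h5 (by positivity)

theorem rowE : RowE := by
  intro n hn
  have hn' : (0 : ℝ) < n := by exact_mod_cast hn
  refine ⟨(1 / (n : ℝ)) ^ ((n : ℝ) / 2), by positivity, fun M hM => ?_⟩
  have hdet : 0 < |M.det| := abs_pos.2 hM.1
  have h1 : 1 ≤ minSq M := le_minSq hn M fun w hw => hM.2 w hw
  have h2 := inv_le hn M hM.1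
  unfold Pool.Agent.Lib.MP_ef2672_gt_Tauber.inv at h2
  rw [div_le_iff₀ (Real.rpow_pos_of_pos hdet _)] at h2
  have h3 : 1 / (n : ℝ) ≤ |M.det| ^ ((2 : ℝ) / n) := by
    rw [div_le_iff₀ hn']
    nlinarith
  calc (1 / (n : ℝ)) ^ ((n : ℝ) / 2) ≤ (|M.det| ^ ((2 : ℝ) / n)) ^ ((n : ℝ) / 2) :=
        Real.rpow_le_rpow (by positivity) h3 (by positivity)
    _ = |M.det| := by
        rw [← Real.rpow_mul hdet.le]
        have : (2 : ℝ) / n * (n / 2) = 1 := by field_simp
        rw [this, Real.rpow_one]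

end Pool.Agent.KLG
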