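import Pool.Agent.Lib.KLG.Rows

/-!
# Row I: dense lattice packings
-/

set_option autoImplicit false

namespace Pool.Agent.KLG

open Matrix MeasureTheory Pool.Agent.Lib.MP_ef2672_gt_Tauber Pool.Agent.Lib.MP_ef2672_gt_Eutaxy

namespace RI

lemma Zt_nonneg {n : ℕ} (m : ℝ) (M : Matrix (Fin n) (Fin n) ℝ) : 0 ≤ Zt m M := by
  refine tsum_nonneg fun w => Real.rpow_nonneg ?_ _
  exact normSq_nonneg M w.1

lemma aux_e2 {t : ℝ} (ht : 0 ≤ t) : (1 - 6 * t) * ((1 + t) ^ 3 * (1 + 2 * t)) ≤ 1 - t := by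
  have h : 1 - t - (1 - 6 * t) * ((1 + t) ^ 3 * (1 + 2 * t)) =
      21 * t ^ 2 + 47 * t ^ 3 + 40 * t ^ 4 + 12 * t ^ 5 := by ring
  have h2 : 0 ≤ 21 * t ^ 2 + 47 * t ^ 3 + 40 * t ^ 4 + 12 * t ^ 5 := by positivity
  linarith

lemma aux_c1 {t n : ℝ} (ht : 0 < t) (hn : 0 < n) :
    (1 - t) * (n * (n + 1)) ≤ 2 * ((1 + t) * n / 2) * ((1 + t) * n / 2 + 1) * (1 + t) ^ 2 * 2 := by
  have h1 : 2 * ((1 + t) * n / 2) * ((1 + t) * n / 2 + 1) * (1 + t) ^ 2 * 2 =
      (1 + t) ^ 3 * (n * ((1 + t) * n + 2)) := by ring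
  rw [h1]
  have h2 : n * (n + 1) ≤ n * ((1 + t) * n + 2) :=
    mul_le_mul_of_nonneg_left (by nlinarith [mul_pos ht hn]) hn.le
  have h3 : 1 - t ≤ (1 + t) ^ 3 := by
    have : 1 ≤ (1 + t) ^ 3 := one_le_pow₀ (by linarith)
    linarith
  exact mul_le_mul h3 h2 (by positivity) (by positivity)

end RI

open RI in
theorem rowI (hG : RowG) (hH : RowH) : RowI := by
  intro s hs
  set s' : ℝ := min s 1 with hs'
  have hs'0 : 0 < s' := lt_min hs one_pos
  have hs's : s' ≤ s := min_le_left _ _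
  have hs'1 : s' ≤ 1 := min_le_right _ _
  set t : ℝ := s' / 24 with ht
  have ht0 : 0 < t := by positivity
  have ht1 : t ≤ 1 / 24 := by rw [ht]; linarith
  obtain ⟨K, hK, hKn⟩ := hH t ht0
  set A : ℝ := Real.log 4 + Real.log (1 + K) - (1 - s' / 4) * Real.log (t / 4) with hA
  obtain ⟨n1, hn1⟩ := exists_nat_ge (Real.exp (2 * A / s'))
  obtain ⟨n2, hn2⟩ := exists_nat_ge (2 / t)
  refine ⟨max 2 (max n1 n2), fun n hn => ?_⟩
  have h2 : 2 ≤ n := le_trans (le_max_left _ _) hn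
  have h1 : n1 ≤ n := le_trans (le_trans (le_max_left _ _) (le_max_right _ _)) hn
  have h3 : n2 ≤ n := le_trans (le_trans (le_max_right _ _) (le_max_right _ _)) hn
  have hnR : (2 : ℝ) ≤ n := by exact_mod_cast h2
  have hn0 : (0 : ℝ) < n := by linarith
  have hlog : 2 * A / s' ≤ Real.log n := by
    rw [← Real.log_exp (2 * A / s')]
    exact Real.log_le_log (Real.exp_pos _) (hn1.trans (by exact_mod_cast h1))
  have htn : 2 ≤ t * n := by
    have : 2 / t ≤ n := hn2.trans (by exact_mod_cast h3)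
    rw [div_le_iff₀ ht0] at this
    linarith
  obtain ⟨M0, hM0, hdet0, hZ0⟩ := hKn n h2
  set m : ℝ := (1 + t) * n / 2 with hm
  have hm0 : 0 < m := by positivity
  set c : ℝ := (1 - t) * (n * (n + 1)) / (2 * m * (m + 1) * (1 + t) ^ 2) with hc
  have h1t : 0 < 1 - t := by linarith
  have hc0 : 0 < c := by positivity
  obtain ⟨M, hM, hPsi, hZ⟩ := hG n m c t (by omega) (by rw [hm]; nlinarith) hc0 ht0 M0 hM0
  refine ⟨M, hM, ?_⟩
  have hdet : 0 < |M.det| := abs_pos.2 hM.1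
  have hdet0' : 0 < |M0.det| := abs_pos.2 hM0.1
  have hkap : 0 < kap n := by linarith
  -- the zeta value
  have hZ' : t * (n * (n + 1)) / 4 ≤ Zt m M := by
    have : c * m * (m + 1) * (1 + t) ^ 2 = (1 - t) * (n * (n + 1)) / 2 := by
      rw [hc]
      field_simp
    rw [this] at hZ
    linarith
  have hZ2 : t / 4 * (n : ℝ) ^ 2 ≤ 1 + Zt m M := by nlinarith
  -- the exponent
  have hc1 : c / 2 ≤ 1 := by
    rw [hc, div_div, div_le_one (by positivity), hm]
    exact aux_c1 ht0 hn0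
  have hc2 : 1 - s' / 4 ≤ c / 2 := by
    have e1 : s' / 4 = 6 * t := by rw [ht]; ring
    rw [e1, hc, div_div, le_div_iff₀ (by positivity), hm]
    have e2 := aux_e2 ht0.le
    have e3 : (1 + t) * n + 2 ≤ (1 + 2 * t) * (n + 1) := by linarith
    have e4 : 0 ≤ 1 - 6 * t := by linarith
    calc (1 - 6 * t) * (2 * ((1 + t) * n / 2) * ((1 + t) * n / 2 + 1) * (1 + t) ^ 2 * 2)
        = (1 - 6 * t) * (1 + t) ^ 3 * n * ((1 + t) * n + 2) := by ring
      _ ≤ (1 - 6 * t) * (1 + t) ^ 3 * n * ((1 + 2 * t) * (n + 1)) :=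
          mul_le_mul_of_nonneg_left e3 (by positivity)
      _ = ((1 - 6 * t) * ((1 + t) ^ 3 * (1 + 2 * t))) * (n * (n + 1)) := by ring
      _ ≤ (1 - t) * (n * (n + 1)) := mul_le_mul_of_nonneg_right e2 (by positivity)
  have hL0 : Real.log (1 + Zt m M0) ≤ Real.log (1 + K) :=
    Real.log_le_log (by linarith [Zt_nonneg m M0]) (by linarith)
  have hL1 : 2 * Real.log n + Real.log (t / 4) ≤ Real.log (1 + Zt m M) := by
    have := Real.log_le_log (by positivity) hZ2
    rw [Real.log_mul (by positivity) (by positivity), Real.log_pow] at this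
    push_cast at this
    linarith
  have hL00 : 0 ≤ Real.log (1 + Zt m M0) := Real.log_nonneg (by linarith [Zt_nonneg m M0])
  have hL2 : 0 ≤ Real.log (1 + Zt m M) := Real.log_nonneg (by linarith [Zt_nonneg m M])
  have hld0 : Real.log |M0.det| ≤ Real.log 4 + Real.log (kap n) := by
    rw [← Real.log_mul (by norm_num) hkap.ne']
    exact Real.log_le_log hdet0' hdet0
  have hmain : Real.log |M.det| + (2 - s) * Real.log n ≤ Real.log (kap n) := by
    unfold Psi at hPsi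
    have f1 : c / 2 * Real.log (1 + Zt m M0) ≤ Real.log (1 + K) :=
      (mul_le_of_le_one_left hL00 hc1).trans hL0
    have f2 : (1 - s' / 4) * (2 * Real.log n + Real.log (t / 4)) ≤ c / 2 * Real.log (1 + Zt m M) :=
      (mul_le_mul_of_nonneg_left hL1 (by linarith)).trans (mul_le_mul_of_nonneg_right hc2 hL2)
    have hlogn : 0 ≤ Real.log n := Real.log_nonneg (by linarith)
    have f3 : A ≤ s' / 2 * Real.log n := by
      rw [div_le_iff₀ hs'0] at hlog
      linarith
    have f4 : s' * Real.log n ≤ s * Real.log n := mul_le_mul_of_nonneg_right hs's hlogn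
    rw [hA] at f3
    linarith
  have : Real.log (|M.det| * (n : ℝ) ^ (2 - s)) ≤ Real.log (kap n) := by
    rw [Real.log_mul hdet.ne' (by positivity), Real.log_rpow hn0]
    exact hmain
  exact (Real.log_le_log_iff (by positivity) hkap).1 this

end Pool.Agent.KLG
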