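import Pool.Agent.Lib.KLG.Rows2
import Pool.Agent.Lib.KLG.RowI
import Pool.Agent.Lib.KLG.RowDE

/-!
# Row I2: dense lattice packings with a bound for the zeta function.  (helper28, after rowI)
-/

set_option autoImplicit false

namespace Pool.Agent.KLG

open Matrix MeasureTheory Pool.Agent.Lib.MP_ef2672_gt_Tauber Pool.Agent.Lib.MP_ef2672_gt_Eutaxy

open RI in
theorem rowI2 (hG : RowG) (hH : RowH) : RowI2 := by
  intro s hs
  set s' : ℝ := min s 1 with hs'
  have hs'0 : 0 < s' := lt_min hs one_pos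
  have hs's : s' ≤ s := min_le_left _ _
  have hs'1 : s' ≤ 1 := min_le_right _ _
  set t : ℝ := s' / 24 with ht
  have ht0 : 0 < t := by positivity
  have ht1 : t ≤ 1 / 24 := by rw [ht]; linarith
  obtain ⟨K, hK, hKn⟩ := hH t ht0
  set A : ℝ := Real.log 4 + Real.log (1 + K) - (1 - s' / 4) * Real.log (t / 4) with hA
  obtain ⟨n1, hn1⟩ := exists_nat_ge (Real.exp (2 * A / s'))
  obtain ⟨n2, hn2⟩ := exists_nat_ge (2 / t)
  refine ⟨4 * (1 + K) * (4 : ℝ) ^ (1 + s), max 2 (max n1 n2), ?_, fun n hn => ?_⟩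
  · have h41 : (1 : ℝ) ≤ (4 : ℝ) ^ (1 + s) := Real.one_le_rpow (by norm_num) (by linarith)
    nlinarith
  have h2 : 2 ≤ n := le_trans (le_max_left _ _) hn
  have h1 : n1 ≤ n := le_trans (le_trans (le_max_left _ _) (le_max_right _ _)) hn
  have h3 : n2 ≤ n := le_trans (le_trans (le_max_right _ _) (le_max_right _ _)) hn
  have hnR : (2 : ℝ) ≤ n := by exact_mod_cast h2
  have hn0 : (0 : ℝ) < n := by linarith
  have hlog : 2 * A / s' ≤ Real.log n := by
    rw [← Real.log_exp (2 * A / s')]
    exact Real.log_le_log (Real.exp_pos _) (hn1.trans (by exact_mod_cast h1))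
  have htn : 2 ≤ t * n := by
    have : 2 / t ≤ n := hn2.trans (by exact_mod_cast h3)
    rw [div_le_iff₀ ht0] at this
    linarith
  obtain ⟨M0, hM0, hdet0, hZ0⟩ := hKn n h2
  set m : ℝ := (1 + t) * n / 2 with hm
  have hm0 : 0 < m := by positivity
  set c : ℝ := (1 - t) * (n * (n + 1)) / (2 * m * (m + 1) * (1 + t) ^ 2) with hc
  have h1t : 0 < 1 - t := by linarith
  have hc0 : 0 < c := by positivity
  obtain ⟨M, hM, hPsi, hZ⟩ := hG n m c t (by omega) (by rw [hm]; nlinarith) hc0 ht0 M0 hM0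
  have hdet : 0 < |M.det| := abs_pos.2 hM.1
  have hdet0' : 0 < |M0.det| := abs_pos.2 hM0.1
  have hkap : 0 < kap n := by linarith
  -- the zeta value
  have hZ' : t * (n * (n + 1)) / 4 ≤ Zt m M := by
    have : c * m * (m + 1) * (1 + t) ^ 2 = (1 - t) * (n * (n + 1)) / 2 := by
      rw [hc]
      field_simp
    rw [this] at hZ
    linarith
  have hZ2 : t / 4 * (n : ℝ) ^ 2 ≤ 1 + Zt m M := by nlinarith
  -- the exponent
  have hc1 : c / 2 ≤ 1 := by
    rw [hc, div_div, div_le_one (by positivity), hm]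
    exact aux_c1 ht0 hn0
  have hc2 : 1 - s' / 4 ≤ c / 2 := by
    have e1 : s' / 4 = 6 * t := by rw [ht]; ring
    rw [e1, hc, div_div, le_div_iff₀ (by positivity), hm]
    have e2 := aux_e2 ht0.le
    have e3 : (1 + t) * n + 2 ≤ (1 + 2 * t) * (n + 1) := by linarith
    have e4 : 0 ≤ 1 - 6 * t := by linarith
    calc (1 - 6 * t) * (2 * ((1 + t) * n / 2) * ((1 + t) * n / 2 + 1) * (1 + t) ^ 2 * 2)
        = (1 - 6 * t) * (1 + t) ^ 3 * n * ((1 + t) * n + 2) := by ring
      _ ≤ (1 - 6 * t) * (1 + t) ^ 3 * n * ((1 + 2 * t) * (n + 1)) :=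
          mul_le_mul_of_nonneg_left e3 (by positivity)
      _ = ((1 - 6 * t) * ((1 + t) ^ 3 * (1 + 2 * t))) * (n * (n + 1)) := by ring
      _ ≤ (1 - t) * (n * (n + 1)) := mul_le_mul_of_nonneg_right e2 (by positivity)
  have hL0 : Real.log (1 + Zt m M0) ≤ Real.log (1 + K) :=
    Real.log_le_log (by linarith [Zt_nonneg m M0]) (by linarith)
  have hL1 : 2 * Real.log n + Real.log (t / 4) ≤ Real.log (1 + Zt m M) := by
    have := Real.log_le_log (by positivity) hZ2
    rw [Real.log_mul (by positivity) (by positivity), Real.log_pow] at this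
    push_cast at this
    linarith
  have hL00 : 0 ≤ Real.log (1 + Zt m M0) := Real.log_nonneg (by linarith [Zt_nonneg m M0])
  have hL2 : 0 ≤ Real.log (1 + Zt m M) := Real.log_nonneg (by linarith [Zt_nonneg m M])
  have hld0 : Real.log |M0.det| ≤ Real.log 4 + Real.log (kap n) := by
    rw [← Real.log_mul (by norm_num) hkap.ne']
    exact Real.log_le_log hdet0' hdet0
  have hmain' : Real.log |M.det| + (2 - s') * Real.log n ≤ Real.log (kap n) := by
    unfold Psi at hPsi
    have f1 : c / 2 * Real.log (1 + Zt m M0) ≤ Real.log (1 + K) :=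
      (mul_le_of_le_one_left hL00 hc1).trans hL0
    have f2 : (1 - s' / 4) * (2 * Real.log n + Real.log (t / 4)) ≤ c / 2 * Real.log (1 + Zt m M) :=
      (mul_le_mul_of_nonneg_left hL1 (by linarith)).trans (mul_le_mul_of_nonneg_right hc2 hL2)
    have hlogn : 0 ≤ Real.log n := Real.log_nonneg (by linarith)
    have f3 : A ≤ s' / 2 * Real.log n := by
      rw [div_le_iff₀ hs'0] at hlog
      linarith
    rw [hA] at f3
    linarith
  have hmain : Real.log |M.det| + (2 - s) * Real.log n ≤ Real.log (kap n) := by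
    have hlogn : 0 ≤ Real.log n := Real.log_nonneg (by linarith)
    have f4 : s' * Real.log n ≤ s * Real.log n := mul_le_mul_of_nonneg_right hs's hlogn
    linarith
  have hlogn : 0 ≤ Real.log n := Real.log_nonneg (by linarith)
  have hgoal1 : |M.det| * (n : ℝ) ^ (2 - s) ≤ kap n := by
    have : Real.log (|M.det| * (n : ℝ) ^ (2 - s)) ≤ Real.log (kap n) := by
      rw [Real.log_mul hdet.ne' (by positivity), Real.log_rpow hn0]
      exact hmain
    exact (Real.log_le_log_iff (by positivity) hkap).1 this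
  refine ⟨M, hM, hgoal1, ?_⟩
  -- monotonicity in the exponent
  have hst : t ≤ s := by
    have h1 : t ≤ s' := by rw [ht]; linarith
    exact h1.trans hs's
  have hmono : Zt ((1 + s) * n / 2) M ≤ Zt m M := by
    have hms : m ≤ (1 + s) * n / 2 := by
      rw [hm]
      have := mul_le_mul_of_nonneg_right hst hn0.le
      nlinarith
    refine Summable.tsum_le_tsum (fun w => ?_) (rowD n M _ hM.1 (by nlinarith))
      (rowD n M _ hM.1 (by rw [hm]; nlinarith))
    exact Real.rpow_le_rpow_of_exponent_le (hM.2 w.1 w.2) (by linarith)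
  have hZpos : 0 < 1 + Zt m M := by linarith [Zt_nonneg m M]
  have hcpos : 0 < c / 2 := by positivity
  -- logarithm of the quotient
  set D : ℝ := kap n / |M.det| with hD
  have hD0 : 0 < D := by positivity
  have hlogD : Real.log D = Real.log (kap n) - Real.log |M.det| := by
    rw [hD, Real.log_div hkap.ne' hdet.ne']
  have hD1 : 0 ≤ Real.log D := by
    rw [hlogD]
    have f2 : 0 ≤ (2 - s') * Real.log n := mul_nonneg (by linarith) hlogn
    have f3 : Real.log |M.det| + (2 - s') * Real.log n ≤ Real.log (kap n) := hmain'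
    linarith
  have hb : c / 2 * Real.log (1 + Zt m M) ≤ Real.log 4 + Real.log D + c / 2 * Real.log (1 + K) := by
    unfold Psi at hPsi
    have f1 : c / 2 * Real.log (1 + Zt m M0) ≤ c / 2 * Real.log (1 + K) :=
      mul_le_mul_of_nonneg_left hL0 hcpos.le
    rw [hlogD]
    linarith
  have hlog4 : 0 < Real.log 4 := Real.log_pos (by norm_num)
  have hb2 : Real.log (1 + Zt m M) ≤ (1 + s) * (Real.log 4 + Real.log D) + Real.log (1 + K) := by
    have g1 : 1 ≤ (1 + s) * (c / 2) := by
      have g2 : (1 + s') * (1 - s' / 4) ≤ (1 + s) * (c / 2) :=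
        mul_le_mul (by linarith) hc2 (by linarith) (by linarith)
      nlinarith
    have g3 : 0 ≤ Real.log 4 + Real.log D := by linarith
    have g4 := mul_le_mul_of_nonneg_right g1 g3
    have g5 : c / 2 * Real.log (1 + Zt m M) ≤
        c / 2 * ((1 + s) * (Real.log 4 + Real.log D) + Real.log (1 + K)) := by
      nlinarith
    exact le_of_mul_le_mul_left g5 hcpos
  have hb3 : 1 + Zt m M ≤ (1 + K) * ((4 : ℝ) ^ (1 + s) * D ^ (1 + s)) := by
    have g1 : Real.log ((1 + K) * ((4 : ℝ) ^ (1 + s) * D ^ (1 + s))) =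
        (1 + s) * (Real.log 4 + Real.log D) + Real.log (1 + K) := by
      rw [Real.log_mul (by positivity) (by positivity), Real.log_mul (by positivity)
        (by positivity), Real.log_rpow (by norm_num), Real.log_rpow hD0]
      ring
    rw [← g1] at hb2
    exact (Real.log_le_log_iff hZpos (by positivity)).1 hb2
  calc 4 * (1 + Zt ((1 + s) * n / 2) M) ≤ 4 * (1 + Zt m M) := by linarith
    _ ≤ 4 * ((1 + K) * ((4 : ℝ) ^ (1 + s) * D ^ (1 + s))) := by linarith
    _ = 4 * (1 + K) * (4 : ℝ) ^ (1 + s) * D ^ (1 + s) := by ring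

end Pool.Agent.KLG
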