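import Pool.Agent.Lib.KLG.Rows

/-!
Larger cells: rows of the second part. The cell of a lattice point is the intersection of a ball of
radius `r` and of slabs orthogonal to the vectors of the lattice.
-/

set_option autoImplicit false

namespace Pool.Agent.KLG

open Matrix MeasureTheory Pool.Agent.Lib.MP_ef2672_gt_Tauber Pool.Agent.Lib.MP_ef2672_gt_Eutaxy

/-- Dense lattice packings with a bound for the zeta function (from `RowG`, `RowH`: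
`1 + Zt m M ≤ (1 + Zt m M0) (|det M0| / |det M|)^(2 / c)`). -/
def RowI2 : Prop := ∀ s : ℝ, 0 < s → ∃ (C : ℝ) (n0 : ℕ), 1 ≤ C ∧ ∀ n : ℕ, n0 ≤ n →
  ∃ M : Matrix (Fin n) (Fin n) ℝ, Adm M ∧ |M.det| * (n : ℝ) ^ (2 - s) ≤ kap n ∧
    4 * (1 + Zt ((1 + s) * n / 2) M) ≤ C * (kap n / |M.det|) ^ (1 + s)

/-- Spherical caps: `{u · e > h} ∩ B_r` is contained in a ball of squared radius `r^2 - h^2`. -/
def RowN : Prop := ∀ (d : ℕ) (v : Fin d → ℝ) (r W : ℝ), 0 < r → 0 ≤ W → v ≠ 0 →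
  volume {u : Fin d → ℝ | ∑ k, u k ^ 2 < r ^ 2 ∧ W < |∑ k, u k * v k|} ≤
    ENNReal.ofReal (2 * Real.exp (-(d * W ^ 2 / (2 * r ^ 2 * ∑ k, v k ^ 2))) * (kap d * r ^ d))

/-- The cell of a lattice point of `c M ℤᵈ`. -/
def cell {d : ℕ} (a c r : ℝ) (M : Matrix (Fin d) (Fin d) ℝ) : Set (Fin d → ℝ) :=
  {u | ∑ k, u k ^ 2 < r ^ 2 ∧ ∀ w : Fin d → ℤ, w ≠ 0 →
    |∑ k, u k * (c * Pool.Agent.Lib.MP_ef2672_gt_Eutaxy.vec M w k)| ≤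
      (c ^ 2 * normSq M w - (2 * a) ^ 2) / 4}

/-- The volume of the cell. With `v = exp T * √(normSq M w)` and
`h = W / |c M w| = a (v - 1 / v) / 2 ≥ a log v`, `log v ≥ T`: the cap of `w` has the relative volume
at most `2 exp (-(d a² T / (2 r²)) log v) ≤ 2 v^(-B) ≤ 2 exp (-(T B)) * normSq M w ^ (-m)`. -/
def RowO : Prop := ∀ (d : ℕ), 1 ≤ d → ∀ (M : Matrix (Fin d) (Fin d) ℝ) (m T B a r : ℝ),
  Adm M → (d : ℝ) / 2 < m → 0 < T → 0 < a → 0 < r → 2 * m ≤ B →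
  4 * (1 + Zt m M) ≤ Real.exp (T * B) → 2 * B * r ^ 2 ≤ d * a ^ 2 * T →
    ENNReal.ofReal (kap d * r ^ d / 2) ≤ volume (cell a (2 * a * Real.exp T) r M)

/-- Hard spheres in the cells (as `RowJ`, with `cell` in place of a ball of radius `a / d`). -/
def RowP : Prop := ∀ (d : ℕ), 1 ≤ d → ∀ (a : ℝ), 0 < a → ∀ (f : ℝ → ℝ) (ρ₀ : ℝ),
  Pool.Agent.VdwGas.IsF d a (fun _ => 0) f ρ₀ → ∀ M : Matrix (Fin d) (Fin d) ℝ, Adm M →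
  ∀ T r V : ℝ, 0 < T → 0 < r → 0 < V →
    ENNReal.ofReal V ≤ volume (cell a (2 * a * Real.exp T) r M) →
    ∀ ρ : ℝ, 0 < ρ → ρ * |M.det| * (2 * a * Real.exp T) ^ d ≤ 1 →
      ρ < ρ₀ ∧ ρ * Real.log V ≤ f ρ

/-- Mean field theory is false beyond `(1 + s) d log d`. -/
def RowL2 : Prop := ∀ s : ℝ, 0 < s → ∃ d0 : ℕ, ∀ d : ℕ, d0 ≤ d → ∀ a : ℝ, 0 < a →
  ∀ (f : ℝ → ℝ) (ρ₀ : ℝ), Pool.Agent.VdwGas.IsF d a (fun _ => 0) f ρ₀ →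
    ∀ ρ x b : ℝ, b = kap d * (2 * a) ^ d → x = ρ * b →
      (1 + s) * (d * Real.log d) ≤ x → x ≤ (d : ℝ) ^ (2 - s) →
        ρ < ρ₀ ∧ x - x * Real.log ρ - x ^ 2 / 2 + s / 4 * x * (d * Real.log d) ≤ b * f ρ

end Pool.Agent.KLG
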