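import Pool.Agent.Lib.KLG.RowH
import Pool.Agent.Lib.KLG.Rows2

/-!
Row N: spherical caps (helper16).
-/

set_option autoImplicit false

namespace Pool.Agent.KLG

namespace RN

open Matrix MeasureTheory Filter Topology

/-- the point of the cap is near the centre -/
lemma cap_sub {d : ℕ} (v : Fin d → ℝ) {r W : ℝ} (hW : 0 ≤ W) (hv : 0 < ∑ k, v k ^ 2) :
    {u : Fin d → ℝ | ∑ k, u k ^ 2 < r ^ 2 ∧ W < ∑ k, u k * v k} ⊆
      {u : Fin d → ℝ | u - (W / ∑ k, v k ^ 2) • v ∈ RH.bl d (r ^ 2 - W ^ 2 / ∑ k, v k ^ 2)} := by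
  intro u hu
  obtain ⟨h1, h2⟩ := hu
  obtain ⟨q, hq⟩ : ∃ q, q = ∑ k, v k ^ 2 := ⟨_, rfl⟩
  rw [← hq] at hv
  show ∑ i, (u - (W / ∑ k, v k ^ 2) • v) i ^ 2 < r ^ 2 - W ^ 2 / ∑ k, v k ^ 2
  rw [← hq]
  have h3 : ∑ i, (u - (W / q) • v) i ^ 2 =
      ∑ k, u k ^ 2 - 2 * (W / q) * ∑ k, u k * v k + (W / q) ^ 2 * ∑ k, v k ^ 2 := by
    rw [Finset.mul_sum, Finset.mul_sum, ← Finset.sum_sub_distrib, ← Finset.sum_add_distrib]
    refine Finset.sum_congr rfl fun k _ => ?_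
    simp only [Pi.sub_apply, Pi.smul_apply, smul_eq_mul]
    ring
  rw [h3, ← hq]
  have h4 : 0 ≤ W / q := div_nonneg hW hv.le
  have h5 : 2 * (W / q) * W ≤ 2 * (W / q) * ∑ k, u k * v k :=
    mul_le_mul_of_nonneg_left h2.le (by positivity)
  have h6 : 2 * (W / q) * W = 2 * (W ^ 2 / q) := by ring
  have h7 : (W / q) ^ 2 * q = W ^ 2 / q := by field_simp
  rw [h7]
  linarith

lemma one_cap {d : ℕ} (v : Fin d → ℝ) {r W : ℝ} (hr : 0 < r) (hW : 0 ≤ W)
    (hv : 0 < ∑ k, v k ^ 2) :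
    volume {u : Fin d → ℝ | ∑ k, u k ^ 2 < r ^ 2 ∧ W < ∑ k, u k * v k} ≤
      ENNReal.ofReal
        (Real.exp (-(d * W ^ 2 / (2 * r ^ 2 * ∑ k, v k ^ 2))) * (kap d * r ^ d)) := by
  refine (measure_mono (cap_sub v hW hv)).trans ?_
  rw [RH.vol_shift]
  obtain ⟨q, hq⟩ : ∃ q, q = ∑ k, v k ^ 2 := ⟨_, rfl⟩
  rw [← hq] at hv ⊢
  rcases le_or_gt (r ^ 2 - W ^ 2 / q) 0 with h | h
  · have h1 : RH.bl d (r ^ 2 - W ^ 2 / q) = ∅ := by
      ext x
      simp only [RH.bl, Set.mem_ofPred_eq, Set.mem_empty_iff_false, iff_false, not_lt]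
      exact h.trans (Finset.sum_nonneg fun i _ => sq_nonneg _)
    rw [h1, measure_empty]
    exact zero_le
  · rw [RH.vol_bl h]
    have h1 : volume (RH.bl d 1) = ENNReal.ofReal (kap d) := by
      rw [RH.kap_eq, ENNReal.ofReal_toReal (RH.vol_one_lt d).ne]
    rw [h1, ← ENNReal.ofReal_mul (by positivity)]
    apply ENNReal.ofReal_le_ofReal
    have hk := (RH.kap_pos d).le
    have h2 : r ^ 2 - W ^ 2 / q ≤ r ^ 2 * Real.exp (-(W ^ 2 / (r ^ 2 * q))) := by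
      have h3 := Real.add_one_le_exp (-(W ^ 2 / (r ^ 2 * q)))
      calc r ^ 2 - W ^ 2 / q = r ^ 2 * (-(W ^ 2 / (r ^ 2 * q)) + 1) := by field_simp; ring
        _ ≤ r ^ 2 * Real.exp (-(W ^ 2 / (r ^ 2 * q))) :=
            mul_le_mul_of_nonneg_left h3 (by positivity)
    have h4 : (r ^ 2 - W ^ 2 / q) ^ ((d : ℝ) / 2) ≤
        Real.exp (-(d * W ^ 2 / (2 * r ^ 2 * q))) * r ^ d := by
      calc (r ^ 2 - W ^ 2 / q) ^ ((d : ℝ) / 2)
          ≤ (r ^ 2 * Real.exp (-(W ^ 2 / (r ^ 2 * q)))) ^ ((d : ℝ) / 2) :=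
            Real.rpow_le_rpow h.le h2 (by positivity)
        _ = Real.exp (-(d * W ^ 2 / (2 * r ^ 2 * q))) * r ^ d := by
            rw [Real.mul_rpow (by positivity) (Real.exp_pos _).le, ← Real.exp_mul,
              ← Real.rpow_natCast r 2, ← Real.rpow_mul hr.le, mul_comm]
            congr 1
            · congr 1
              field_simp
            · rw [← Real.rpow_natCast]
              congr 1
              push_cast
              ring
    calc (r ^ 2 - W ^ 2 / q) ^ ((d : ℝ) / 2) * kap d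
        ≤ Real.exp (-(d * W ^ 2 / (2 * r ^ 2 * q))) * r ^ d * kap d :=
          mul_le_mul_of_nonneg_right h4 hk
      _ = Real.exp (-(d * W ^ 2 / (2 * r ^ 2 * q))) * (kap d * r ^ d) := by ring

end RN

open MeasureTheory in
/-- Row N. -/
theorem rowN : RowN := by
  intro d v r W hr hW hv
  have hv2 : 0 < ∑ k, v k ^ 2 := by
    obtain ⟨k, hk⟩ : ∃ k, v k ≠ 0 := by
      by_contra hcon
      push Not at hcon
      exact hv (funext hcon)
    exact lt_of_lt_of_le (pow_pos (abs_pos.2 hk) 2 |>.trans_eq (sq_abs _))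
      (Finset.single_le_sum (f := fun k => v k ^ 2) (fun i _ => sq_nonneg _) (Finset.mem_univ k))
  have hneg : ∑ k, (-v) k ^ 2 = ∑ k, v k ^ 2 := by
    refine Finset.sum_congr rfl fun k _ => ?_
    simp
  have h1 := RN.one_cap v hr hW hv2
  have h2 := RN.one_cap (-v) hr hW (by rw [hneg]; exact hv2)
  rw [hneg] at h2
  have hsub : {u : Fin d → ℝ | ∑ k, u k ^ 2 < r ^ 2 ∧ W < |∑ k, u k * v k|} ⊆
      {u : Fin d → ℝ | ∑ k, u k ^ 2 < r ^ 2 ∧ W < ∑ k, u k * v k} ∪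
      {u : Fin d → ℝ | ∑ k, u k ^ 2 < r ^ 2 ∧ W < ∑ k, u k * (-v) k} := by
    intro u hu
    obtain ⟨a1, a2⟩ := hu
    rcases lt_abs.1 a2 with h | h
    · exact Or.inl ⟨a1, h⟩
    · right
      refine ⟨a1, ?_⟩
      have : ∑ k, u k * (-v) k = -∑ k, u k * v k := by
        rw [← Finset.sum_neg_distrib]
        refine Finset.sum_congr rfl fun k _ => ?_
        simp
      rw [this]
      exact h
  refine (measure_mono hsub).trans ((measure_union_le _ _).trans ?_)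
  refine (add_le_add h1 h2).trans_eq ?_
  have hk := (RH.kap_pos d).le
  rw [← ENNReal.ofReal_add (by positivity) (by positivity)]
  congr 1
  ring

end Pool.Agent.KLG
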