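import Pool.Agent.Lib.KLG.Rows

/-!
Hard spheres in the cells of a lattice packing.
-/

set_option autoImplicit false

namespace Pool.Agent.KLG

open Matrix MeasureTheory Filter Topology Pointwise Pool.Agent.Lib.MP_ef2672_gt_Tauber
  Pool.Agent.Lib.MP_ef2672_gt_Eutaxy

namespace J

/-- A set whose volume is at least `N` times the covolume contains `N` points of a translate of
the lattice. -/
theorem blich {d : ℕ} (A : Matrix (Fin d) (Fin d) ℝ) (hA : A.det ≠ 0) (S : Set (Fin d → ℝ))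
    (hS : MeasurableSet S) (hfin : volume S ≠ ⊤) (N : ℕ)
    (h : (N : ENNReal) * ENNReal.ofReal |A.det| ≤ volume S) :
    ∃ (y : Fin N → Fin d → ℝ), (∀ i, y i ∈ S) ∧
      ∀ i j, i ≠ j → ∃ w : Fin d → ℤ, w ≠ 0 ∧ y i - y j = vec A w := by
  classical
  have hunit : IsUnit A.det := isUnit_iff_ne_zero.2 hA
  let e : (Fin d → ℝ) ≃ₗ[ℝ] (Fin d → ℝ) := Matrix.toLinearEquiv' A
    ((Matrix.isUnit_iff_isUnit_det A).2 hunit).invertible
  let b : Module.Basis (Fin d) ℝ (Fin d → ℝ) := (Pi.basisFun ℝ (Fin d)).map e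
  have hb : ∀ j, b j = fun i => A i j := by
    intro j
    simp only [b, e, Module.Basis.map_apply, Pi.basisFun_apply]
    ext i
    simp [Matrix.toLinearEquiv']
  have hdetb : (Matrix.of b).det = A.det := by
    rw [← Matrix.det_transpose A]
    congr 1
    ext i j
    simp [hb]
  have hfund := ZSpan.isAddFundamentalDomain' b volume
  have hcount : Countable (Submodule.span ℤ (Set.range b)).toAddSubgroup :=
    inferInstanceAs (Countable (Submodule.span ℤ (Set.range b)))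
  set F : Set (Fin d → ℝ) := ZSpan.fundamentalDomain b with hF
  have hvolF : volume F = ENNReal.ofReal |A.det| := by
    rw [hF, ZSpan.volume_fundamentalDomain, hdetb]
  have hF0 : volume F ≠ 0 := by
    rw [hvolF]
    exact (ENNReal.ofReal_pos.2 (abs_pos.2 hA)).ne'
  have hFt : volume F ≠ ⊤ := by
    rw [hvolF]
    exact ENNReal.ofReal_ne_top
  set f : (Fin d → ℝ) → ENNReal := fun x =>
    ∑' g : (Submodule.span ℤ (Set.range b)).toAddSubgroup, S.indicator 1 (g +ᵥ x) with hf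
  have hmS : Measurable (S.indicator (1 : (Fin d → ℝ) → ENNReal)) :=
    measurable_one.indicator hS
  have hint : ∫⁻ x in F, f x = volume S := by
    rw [hf, lintegral_tsum]
    · rw [← hfund.lintegral_eq_tsum'' (S.indicator 1), lintegral_indicator_one hS]
    · intro g
      refine (hmS.comp ?_).aemeasurable
      exact measurable_const_vadd g
  obtain ⟨u, -, hu⟩ := exists_setLAverage_le (μ := volume) (s := F) (f := f) hF0
    (ZSpan.fundamentalDomain_measurableSet b).nullMeasurableSet (by rw [hint]; exact hfin)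
  rw [setLAverage_eq, hint, hvolF] at hu
  have hN : (N : ENNReal) ≤ f u := by
    refine le_trans ?_ hu
    rw [ENNReal.le_div_iff_mul_le (Or.inl (by rw [← hvolF]; exact hF0))
      (Or.inl ENNReal.ofReal_ne_top)]
    exact h
  set T : Set (Submodule.span ℤ (Set.range b)).toAddSubgroup := {g | g +ᵥ u ∈ S} with hT
  have hfT : f u = (T.encard : ENNReal) := by
    have h1 : f u = ∑' g : (Submodule.span ℤ (Set.range b)).toAddSubgroup,
        T.indicator (fun _ => (1 : ENNReal)) g := by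
      rw [hf]
      dsimp only
      refine tsum_congr fun g => ?_
      by_cases hg : g +ᵥ u ∈ S
      · rw [Set.indicator_of_mem hg, Set.indicator_of_mem (show g ∈ T from hg)]
        rfl
      · rw [Set.indicator_of_notMem hg, Set.indicator_of_notMem (show g ∉ T from hg)]
    rw [h1, ← tsum_subtype]
    simp
  rw [hfT] at hN
  have hN2 : (N : ℕ∞) ≤ T.encard := by exact_mod_cast hN
  obtain ⟨T', hT', hc⟩ := Set.exists_subset_encard_eq hN2
  have hTf : T'.Finite := Set.finite_of_encard_eq_coe hc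
  have hcard : Nat.card T' = N := by
    have := hTf.cast_ncard_eq
    rw [hc] at this
    exact_mod_cast this
  have := hTf.to_subtype
  let q : Fin N ≃ T' := (Finite.equivFinOfCardEq hcard).symm
  refine ⟨fun i => (q i).1 +ᵥ u, fun i => hT' (q i).2, fun i j hij => ?_⟩
  have hne : ((q i).1 : Fin d → ℝ) - ((q j).1 : Fin d → ℝ) ≠ 0 := by
    intro h0
    apply hij
    apply q.injective
    exact Subtype.ext (Subtype.ext (sub_eq_zero.1 h0))
  have hmem : ((q i).1 : Fin d → ℝ) - ((q j).1 : Fin d → ℝ) ∈ Submodule.span ℤ (Set.range b) :=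
    Submodule.sub_mem _ (q i).1.2 (q j).1.2
  rw [Submodule.mem_span_range_iff_exists_fun] at hmem
  obtain ⟨w, hw⟩ := hmem
  have hAw : vec A w = ((q i).1 : Fin d → ℝ) - ((q j).1 : Fin d → ℝ) := by
    rw [← hw]
    ext i
    rw [Pool.Agent.Lib.MP_ef2672_gt_Eutaxy.vec, Matrix.mulVec, dotProduct, Finset.sum_apply]
    refine Finset.sum_congr rfl fun j _ => ?_
    rw [hb]
    simp [mul_comm]
  refine ⟨w, ?_, ?_⟩
  · rintro rfl
    apply hne
    rw [← hAw]
    ext i
    simp [Pool.Agent.Lib.MP_ef2672_gt_Eutaxy.vec, Matrix.mulVec, dotProduct]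
  · rw [hAw]
    show (((q i).1 : Fin d → ℝ) + u) - (((q j).1 : Fin d → ℝ) + u) = _
    abel

theorem ball_ne_top (d : ℕ) : volume {x : Fin d → ℝ | ∑ k, x k ^ 2 < 1} ≠ ⊤ := by
  refine ne_top_of_le_ne_top ?_ (measure_mono (t := Set.pi Set.univ fun _ : Fin d =>
    Set.Icc (-1 : ℝ) 1) fun x hx k _ => ?_)
  · rw [volume_pi_pi]
    refine ENNReal.prod_ne_top fun _ _ => ?_
    rw [Real.volume_Icc]
    exact ENNReal.ofReal_ne_top
  · have h1 : x k ^ 2 ≤ ∑ k, x k ^ 2 := Finset.single_le_sum (f := fun k => x k ^ 2)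
      (fun _ _ => sq_nonneg _) (Finset.mem_univ k)
    have h2 : x k ^ 2 ≤ 1 := h1.trans (le_of_lt hx)
    exact abs_le.1 (abs_le_one_iff_mul_self_le_one.2 (by nlinarith))

theorem kap_pos (d : ℕ) : 0 < kap d := by
  refine ENNReal.toReal_pos ?_ (ball_ne_top d)
  have h1 : IsOpen {x : Fin d → ℝ | ∑ k, x k ^ 2 < 1} :=
    isOpen_lt (by fun_prop) continuous_const
  exact (h1.measure_pos volume ⟨0, by simp⟩).ne'

theorem vol_ball (d : ℕ) (y : Fin d → ℝ) {r : ℝ} (hr : 0 < r) :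
    volume {x : Fin d → ℝ | ∑ k, (x k - y k) ^ 2 < r ^ 2} = ENNReal.ofReal (kap d * r ^ d) := by
  have h1 : {x : Fin d → ℝ | ∑ k, (x k - y k) ^ 2 < r ^ 2} =
      (fun x => x + -y) ⁻¹' (r • {x : Fin d → ℝ | ∑ k, x k ^ 2 < 1}) := by
    ext x
    rw [Set.mem_preimage, Set.mem_smul_set_iff_inv_smul_mem₀ hr.ne']
    simp only [Set.mem_ofPred_eq, Pi.smul_apply, Pi.add_apply, Pi.neg_apply, smul_eq_mul]
    have h2 : ∑ k, (r⁻¹ * (x k + -y k)) ^ 2 = (∑ k, (x k - y k) ^ 2) / r ^ 2 := by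
      rw [Finset.sum_div]
      refine Finset.sum_congr rfl fun k _ => ?_
      field_simp
      ring
    rw [h2, div_lt_one (by positivity)]
  rw [h1, measure_preimage_add_right, Measure.addHaar_smul, Module.finrank_fin_fun,
    abs_of_pos (pow_pos hr d), kap, ENNReal.ofReal_mul' (pow_pos hr d).le,
    ENNReal.ofReal_toReal (ball_ne_top d), mul_comm]

theorem tri {d : ℕ} {v w : Fin d → ℝ} {p q : ℝ} (hp : 0 ≤ p) (hq : 0 ≤ q)
    (hv : (p + q) ^ 2 ≤ ∑ k, v k ^ 2) (hw : ∑ k, w k ^ 2 ≤ q ^ 2) :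
    p ^ 2 ≤ ∑ k, (v k + w k) ^ 2 := by
  have hV : p + q ≤ Real.sqrt (∑ k, v k ^ 2) := by
    rw [← Real.sqrt_sq (show 0 ≤ p + q by linarith)]
    exact Real.sqrt_le_sqrt hv
  have hW : Real.sqrt (∑ k, w k ^ 2) ≤ q := by
    rw [← Real.sqrt_sq hq]
    exact Real.sqrt_le_sqrt hw
  have hv0 : 0 ≤ ∑ k, v k ^ 2 := Finset.sum_nonneg fun k _ => sq_nonneg _
  have hw0 : 0 ≤ ∑ k, w k ^ 2 := Finset.sum_nonneg fun k _ => sq_nonneg _
  have hcs : (∑ k, v k * w k) ^ 2 ≤ (∑ k, v k ^ 2) * ∑ k, w k ^ 2 :=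
    Finset.sum_mul_sq_le_sq_mul_sq _ _ _
  have hcs2 : |∑ k, v k * w k| ≤ Real.sqrt (∑ k, v k ^ 2) * Real.sqrt (∑ k, w k ^ 2) := by
    rw [← Real.sqrt_mul hv0]
    exact Real.abs_le_sqrt hcs
  have hexp : ∑ k, (v k + w k) ^ 2 = ∑ k, v k ^ 2 + 2 * ∑ k, v k * w k + ∑ k, w k ^ 2 := by
    rw [Finset.mul_sum, ← Finset.sum_add_distrib, ← Finset.sum_add_distrib]
    exact Finset.sum_congr rfl fun k _ => by ring
  have h1 := neg_abs_le (∑ k, v k * w k)
  have h2 := Real.sq_sqrt hv0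
  have h3 := Real.sq_sqrt hw0
  have h4 := Real.sqrt_nonneg (∑ k, w k ^ 2)
  have h5 : p ≤ Real.sqrt (∑ k, v k ^ 2) - Real.sqrt (∑ k, w k ^ 2) := by linarith
  have h6 : p ^ 2 ≤ (Real.sqrt (∑ k, v k ^ 2) - Real.sqrt (∑ k, w k ^ 2)) ^ 2 :=
    pow_le_pow_left₀ hp h5 2
  nlinarith

theorem small {d : ℕ} {u w : Fin d → ℝ} {r : ℝ} (hu : ∑ k, u k ^ 2 < r ^ 2)
    (hw : ∑ k, w k ^ 2 < r ^ 2) : ∑ k, (u k - w k) ^ 2 < (2 * r) ^ 2 := by
  calc ∑ k, (u k - w k) ^ 2 ≤ ∑ k, (2 * u k ^ 2 + 2 * w k ^ 2) :=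
        Finset.sum_le_sum fun k _ => by nlinarith [sq_nonneg (u k + w k)]
    _ = 2 * ∑ k, u k ^ 2 + 2 * ∑ k, w k ^ 2 := by
        rw [Finset.sum_add_distrib, Finset.mul_sum, Finset.mul_sum]
    _ < (2 * r) ^ 2 := by nlinarith

/-- Hard spheres which move in balls around given points. -/
theorem cells {d N : ℕ} {a r ℓ : ℝ} (ha : 0 < a) (hr : 0 < r) (y : Fin N → Fin d → ℝ)
    (hy : ∀ i k, r ≤ y i k ∧ y i k ≤ ℓ - r)
    (hsep : ∀ i j, i ≠ j → (2 * a + 2 * r) ^ 2 ≤ ∑ k, (y i k - y j k) ^ 2) :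
    (kap d * r ^ d) ^ N ≤ Pool.Agent.KacGas.Z d a (fun _ => 0) ℓ N := by
  classical
  set S : Set (Fin N → Fin d → ℝ) := {x | (∀ i, x i ∈ Pool.Agent.SquareWellGas.Box d ℓ) ∧
      ∀ i j, i ≠ j → (2 * a) ^ 2 ≤ ∑ k, (x i k - x j k) ^ 2} with hS
  have hZ : Pool.Agent.KacGas.Z d a (fun _ => 0) ℓ N =
      ((N.factorial : ℝ))⁻¹ * (volume S).toReal := by
    unfold Pool.Agent.KacGas.Z
    congr 1
    simp [hS, Measure.real]
  set P : Equiv.Perm (Fin N) → Set (Fin N → Fin d → ℝ) := fun σ =>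
    Set.pi Set.univ fun i => {x : Fin d → ℝ | ∑ k, (x k - y (σ i) k) ^ 2 < r ^ 2} with hP
  have hmem : ∀ σ z, z ∈ P σ → ∀ i, ∑ k, (z i k - y (σ i) k) ^ 2 < r ^ 2 :=
    fun σ z hz i => hz i (Set.mem_univ _)
  have hsub : ∀ σ, P σ ⊆ S := by
    intro σ z hz
    refine ⟨fun i k => ?_, fun i j hij => ?_⟩
    · have h1 : (z i k - y (σ i) k) ^ 2 ≤ ∑ k, (z i k - y (σ i) k) ^ 2 :=
        Finset.single_le_sum (f := fun k => (z i k - y (σ i) k) ^ 2)
          (fun _ _ => sq_nonneg _) (Finset.mem_univ k)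
      have h2 := abs_lt_of_sq_lt_sq (h1.trans_lt (hmem σ z hz i)) hr.le
      rw [abs_lt] at h2
      have h3 := hy (σ i) k
      exact ⟨by linarith [h2.1, h3.1], by linarith [h2.2, h3.2]⟩
    · have h1 := hsep (σ i) (σ j) fun h => hij (σ.injective h)
      have h2 := small (hmem σ z hz i) (hmem σ z hz j)
      have h3 := tri (p := 2 * a) (q := 2 * r) (by linarith) (by linarith) h1 h2.le
      refine h3.trans (le_of_eq (Finset.sum_congr rfl fun k _ => ?_))
      ring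
  have hdisj : Pairwise (Function.onFun Disjoint P) := by
    intro σ τ hne
    rw [Function.onFun, Set.disjoint_left]
    intro z hz hz'
    have h1 : ∃ i, σ i ≠ τ i := by
      by_contra hcon
      push Not at hcon
      exact hne (Equiv.ext hcon)
    obtain ⟨i, hi⟩ := h1
    have h2 := hsep (σ i) (τ i) hi
    have h3 := small (hmem τ z hz' i) (hmem σ z hz i)
    have h4 : ∑ k, (z i k - y (τ i) k - (z i k - y (σ i) k)) ^ 2 =
        ∑ k, (y (σ i) k - y (τ i) k) ^ 2 := Finset.sum_congr rfl fun k _ => by ring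
    rw [h4] at h3
    nlinarith
  have hmball : ∀ y : Fin d → ℝ, MeasurableSet {x : Fin d → ℝ | ∑ k, (x k - y k) ^ 2 < r ^ 2} :=
    fun y => (isOpen_lt (by fun_prop) continuous_const).measurableSet
  have hmeas : ∀ σ, MeasurableSet (P σ) := fun σ =>
    MeasurableSet.univ_pi fun i => hmball _
  have hvol : ∀ σ, volume (P σ) = ENNReal.ofReal (kap d * r ^ d) ^ N := by
    intro σ
    rw [hP]
    dsimp only
    rw [volume_pi_pi, Finset.prod_congr rfl fun i _ => vol_ball d (y (σ i)) hr,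
      Finset.prod_const, Finset.card_univ, Fintype.card_fin]
  have hU : volume (⋃ σ, P σ) =
      (N.factorial : ENNReal) * ENNReal.ofReal (kap d * r ^ d) ^ N := by
    rw [measure_iUnion hdisj hmeas, tsum_fintype, Finset.sum_congr rfl fun σ _ => hvol σ,
      Finset.sum_const, Finset.card_univ, Fintype.card_perm, Fintype.card_fin, nsmul_eq_mul]
  have hle : (N.factorial : ENNReal) * ENNReal.ofReal (kap d * r ^ d) ^ N ≤ volume S := by
    rw [← hU]
    exact measure_mono (Set.iUnion_subset hsub)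
  have hSt : volume S ≠ ⊤ := by
    refine ne_top_of_le_ne_top ?_ (measure_mono (t := Set.pi Set.univ fun _ : Fin N =>
      Set.pi Set.univ fun _ : Fin d => Set.Ico (0 : ℝ) ℓ) fun x hx i _ k _ => hx.1 i k)
    rw [volume_pi_pi]
    refine ENNReal.prod_ne_top fun _ _ => ?_
    rw [Real.volume_pi_Ico]
    exact ENNReal.prod_ne_top fun _ _ => ENNReal.ofReal_ne_top
  have h0 : 0 ≤ kap d * r ^ d := mul_nonneg (kap_pos d).le (pow_pos hr d).le
  have h1 := ENNReal.toReal_mono hSt hle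
  rw [ENNReal.toReal_mul, ENNReal.toReal_natCast, ENNReal.toReal_pow,
    ENNReal.toReal_ofReal h0] at h1
  rw [hZ, inv_mul_eq_div, le_div_iff₀ (by exact_mod_cast N.factorial_pos), mul_comm]
  exact h1

theorem vec_smul {d : ℕ} (M : Matrix (Fin d) (Fin d) ℝ) (c : ℝ) (w : Fin d → ℤ) (k : Fin d) :
    Pool.Agent.Lib.MP_ef2672_gt_Eutaxy.vec (c • M) w k =
      c * Pool.Agent.Lib.MP_ef2672_gt_Eutaxy.vec M w k := by
  simp [Pool.Agent.Lib.MP_ef2672_gt_Eutaxy.vec, Matrix.smul_mulVec]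

/-- The partition function along a sequence of cubes. -/
theorem seq {d : ℕ} (hd : 1 ≤ d) {a s ρ : ℝ} (ha : 0 < a) (hs : 0 < s) (hρ : 0 < ρ)
    {M : Matrix (Fin d) (Fin d) ℝ} (hM : Adm M)
    (h : ρ * |M.det| * (2 * a * (1 + s)) ^ d ≤ 1) :
    ∃ (ℓ : ℕ → ℝ) (N : ℕ → ℕ), Tendsto ℓ atTop atTop ∧
      Tendsto (fun j => (N j : ℝ) / ℓ j ^ d) atTop (𝓝 ρ) ∧ (∀ j, 0 < ℓ j) ∧
      ∀ j, (kap d * (a * s) ^ d) ^ N j ≤ Pool.Agent.KacGas.Z d a (fun _ => 0) (ℓ j) (N j) := by
  set r : ℝ := a * s with hr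
  have hr0 : 0 < r := by positivity
  set c : ℝ := 2 * a * (1 + s) with hc
  have hc0 : 0 < c := by positivity
  set A : Matrix (Fin d) (Fin d) ℝ := c • M with hA
  have hdet : A.det = c ^ d * M.det := by
    rw [hA, Matrix.det_smul, Fintype.card_fin]
  have hdet0 : A.det ≠ 0 := by
    rw [hdet]
    exact mul_ne_zero (pow_pos hc0 d).ne' hM.1
  have habs : |A.det| = c ^ d * |M.det| := by
    rw [hdet, abs_mul, abs_of_pos (pow_pos hc0 d)]
  set ℓ : ℕ → ℝ := fun j => (j + 1 : ℝ) + 2 * r with hℓ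
  set N : ℕ → ℕ := fun j => ⌊ρ * (j + 1 : ℝ) ^ d⌋₊ with hN
  have hℓ0 : ∀ j, 0 < ℓ j := fun j => by rw [hℓ]; positivity
  have hj1 : Tendsto (fun j : ℕ => (j + 1 : ℝ)) atTop atTop :=
    tendsto_atTop_add_const_right _ _ tendsto_natCast_atTop_atTop
  have hℓt : Tendsto ℓ atTop atTop := tendsto_atTop_add_const_right _ _ hj1
  refine ⟨ℓ, N, hℓt, ?_, hℓ0, fun j => ?_⟩
  · have h1 : Tendsto (fun j : ℕ => (⌊ρ * (j + 1 : ℝ) ^ d⌋₊ : ℝ) / (j + 1 : ℝ) ^ d) atTop
        (𝓝 ρ) := (tendsto_nat_floor_mul_div_atTop hρ.le).comp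
          ((tendsto_pow_atTop (by omega)).comp hj1)
    have h2 : Tendsto (fun j : ℕ => ((j + 1 : ℝ) / ℓ j) ^ d) atTop (𝓝 1) := by
      have h3 : Tendsto (fun j : ℕ => 1 - 2 * r / ℓ j) atTop (𝓝 (1 - 0)) :=
        tendsto_const_nhds.sub (hℓt.const_div_atTop (2 * r))
      rw [sub_zero] at h3
      have h4 := h3.pow d
      rw [one_pow] at h4
      refine h4.congr fun j => ?_
      congr 1
      have := (hℓ0 j).ne'
      rw [eq_div_iff this, sub_mul, one_mul, div_mul_cancel₀ _ this, hℓ]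
      ring
    have h5 := h1.mul h2
    rw [mul_one] at h5
    refine h5.congr fun j => ?_
    have h6 : (0 : ℝ) < (j + 1 : ℝ) := by positivity
    have h7 := hℓ0 j
    rw [div_pow]
    field_simp
    rfl
  · set L : ℝ := (j + 1 : ℝ) with hL
    have hL0 : 0 < L := by positivity
    have hvS : volume (Set.pi Set.univ fun _ : Fin d => Set.Icc r (r + L)) =
        ENNReal.ofReal (L ^ d) := by
      rw [volume_pi_pi]
      simp only [Real.volume_Icc, add_sub_cancel_left, Finset.prod_const, Finset.card_univ,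
        Fintype.card_fin]
      rw [ENNReal.ofReal_pow hL0.le]
    obtain ⟨y, hy, hsep⟩ := blich A hdet0 (Set.pi Set.univ fun _ : Fin d => Set.Icc r (r + L))
      (MeasurableSet.univ_pi fun _ => measurableSet_Icc) (by rw [hvS]; exact ENNReal.ofReal_ne_top)
      (N j) (by
        rw [hvS, ← ENNReal.ofReal_natCast, ← ENNReal.ofReal_mul (Nat.cast_nonneg _)]
        refine ENNReal.ofReal_le_ofReal ?_
        have h1 : (N j : ℝ) ≤ ρ * L ^ d := Nat.floor_le (by positivity)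
        calc (N j : ℝ) * |A.det| ≤ (ρ * L ^ d) * (c ^ d * |M.det|) := by
              rw [habs]
              gcongr
          _ = (ρ * |M.det| * c ^ d) * L ^ d := by ring
          _ ≤ 1 * L ^ d := by gcongr
          _ = L ^ d := one_mul _)
    refine cells ha hr0 y (fun i k => ?_) fun i j hij => ?_
    · have h1 := hy i k (Set.mem_univ _)
      have h2 : ℓ j = L + 2 * r := rfl
      exact ⟨h1.1, by rw [h2]; linarith [h1.2]⟩
    · obtain ⟨w, hw, he⟩ := hsep i j hij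
      have h1 := hM.2 w hw
      rw [normSq_eq] at h1
      have h2 : ∑ k, (y i k - y j k) ^ 2 = c ^ 2 * dotProduct
          (Pool.Agent.Lib.MP_ef2672_gt_Eutaxy.vec M w)
          (Pool.Agent.Lib.MP_ef2672_gt_Eutaxy.vec M w) := by
        rw [dotProduct, Finset.mul_sum]
        refine Finset.sum_congr rfl fun k _ => ?_
        have h3 : y i k - y j k = Pool.Agent.Lib.MP_ef2672_gt_Eutaxy.vec A w k := by
          rw [← he]
          rfl
        rw [h3, hA, vec_smul]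
        ring
      have h4 : 2 * a + 2 * r = c := by rw [hr, hc]; ring
      rw [h2, h4]
      exact le_mul_of_one_le_right (sq_nonneg c) h1

end J

theorem rowJ : RowJ := by
  intro d hd a ha f ρ₀ hf M hM ρ hρ h
  have hd0 : (0 : ℝ) < d := by exact_mod_cast hd
  have hdet := abs_pos.2 hM.1
  -- the density is below the maximum
  have hlt : ρ < ρ₀ := by
    set s : ℝ := 1 / (2 * d) with hs
    have hs0 : 0 < s := by positivity
    have hs1 : s < 1 / d := by
      rw [hs]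
      exact one_div_lt_one_div_of_lt hd0 (by linarith)
    set ρ2 : ℝ := 1 / (|M.det| * (2 * a * (1 + s)) ^ d) with hρ2
    have hX : 0 < |M.det| * (2 * a * (1 + s)) ^ d := by positivity
    have hρ20 : 0 < ρ2 := by positivity
    obtain ⟨ℓ, N, hℓ, hN, -, hZ⟩ := J.seq hd ha hs0 hρ20 hM (le_of_eq (by
      rw [mul_assoc, hρ2, one_div, inv_mul_cancel₀ hX.ne']))
    have h1 : ρ2 ≤ ρ₀ := by
      by_contra hcon
      push Not at hcon
      obtain ⟨j, hj⟩ := ((hf.2 ℓ N ρ2 hℓ hN).2 hcon).exists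
      have h2 := hZ j
      rw [hj] at h2
      have h3 : 0 < (kap d * (a * s) ^ d) ^ N j :=
        pow_pos (mul_pos (J.kap_pos d) (by positivity)) _
      linarith
    refine lt_of_lt_of_le ?_ h1
    rw [hρ2, lt_div_iff₀ hX]
    refine lt_of_lt_of_le ?_ h
    rw [← mul_assoc]
    refine mul_lt_mul_of_pos_left ?_ (by positivity)
    refine pow_lt_pow_left₀ ?_ (by positivity) (by omega)
    refine mul_lt_mul_of_pos_left ?_ (by positivity)
    linarith
  refine ⟨hlt, ?_⟩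
  obtain ⟨ℓ, N, hℓ, hN, hℓ0, hZ⟩ := J.seq hd ha (one_div_pos.2 hd0) hρ hM h
  have h1 := ((hf.2 ℓ N ρ hℓ hN).1 ⟨hρ, hlt⟩).2
  have h2 := hN.mul_const (Real.log (kap d * (a * (1 / d)) ^ d))
  rw [show a * (1 / (d : ℝ)) = a / d by ring] at h2 hZ
  refine le_of_tendsto_of_tendsto h2 h1 (Eventually.of_forall fun j => ?_)
  have hX : 0 < kap d * (a / d) ^ d := mul_pos (J.kap_pos d) (by positivity)
  have h3 := Real.log_le_log (pow_pos hX _) (hZ j)
  rw [Real.log_pow] at h3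
  have h4 : 0 < ℓ j ^ d := pow_pos (hℓ0 j) d
  show (N j : ℝ) / ℓ j ^ d * Real.log (kap d * (a / d) ^ d) ≤
    Real.log (Pool.Agent.KacGas.Z d a (fun _ => 0) (ℓ j) (N j)) / ℓ j ^ d
  rw [div_mul_eq_mul_div]
  exact div_le_div_of_nonneg_right h3 h4.le

end Pool.Agent.KLG
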