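import Pool.Agent.Lib.KLG.Rows2
import Pool.Agent.Lib.KLG.RowDE
import Pool.Agent.Lib.KLG.RowJ

/-!
Row O: the volume of the cell.
-/

set_option autoImplicit false

namespace Pool.Agent.KLG

open Matrix MeasureTheory Pool.Agent.Lib.MP_ef2672_gt_Tauber Pool.Agent.Lib.MP_ef2672_gt_Eutaxy

namespace RO

/-- The exponent of a cap. -/
theorem expo {d : ℕ} {m T B a r q : ℝ} (hq : 1 ≤ q) (hT : 0 < T) (ha : 0 < a) (hr : 0 < r)
    (hB : 2 * m ≤ B) (hBr : 2 * B * r ^ 2 ≤ d * a ^ 2 * T) :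
    Real.exp (-(d * (((2 * a * Real.exp T) ^ 2 * q - (2 * a) ^ 2) / 4) ^ 2 /
      (2 * r ^ 2 * ((2 * a * Real.exp T) ^ 2 * q)))) ≤ Real.exp (-(T * B)) * q ^ (-m) := by
  have hq0 : 0 < q := by linarith
  have hlq : 0 ≤ Real.log q := Real.log_nonneg hq
  obtain ⟨y, hy⟩ : ∃ y : ℝ, y = T + Real.log q / 2 := ⟨_, rfl⟩
  have hyT : T ≤ y := by linarith
  have hy0 : 0 < y := by linarith
  have e0 : Real.exp T ^ 2 * q = Real.exp y ^ 2 := by
    nth_rewrite 1 [← Real.exp_log hq0]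
    rw [← Real.exp_nat_mul, ← Real.exp_nat_mul, ← Real.exp_add]
    congr 1
    rw [hy]
    push_cast
    ring
  have e1 : (2 * a * Real.exp T) ^ 2 * q = 4 * a ^ 2 * Real.exp y ^ 2 := by
    calc (2 * a * Real.exp T) ^ 2 * q = 4 * a ^ 2 * (Real.exp T ^ 2 * q) := by ring
      _ = _ := by rw [e0]
  have e2 : (4 * a ^ 2 * Real.exp y ^ 2 - (2 * a) ^ 2) / 4 =
      2 * a ^ 2 * Real.exp y * Real.sinh y := by
    rw [Real.sinh_eq, Real.exp_neg]
    field_simp
    ring
  rw [e1, e2]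
  have e3 : d * (2 * a ^ 2 * Real.exp y * Real.sinh y) ^ 2 /
      (2 * r ^ 2 * (4 * a ^ 2 * Real.exp y ^ 2)) = d * a ^ 2 / (2 * r ^ 2) * Real.sinh y ^ 2 := by
    have : Real.exp y ≠ 0 := (Real.exp_pos y).ne'
    field_simp
    ring
  rw [e3, Real.rpow_def_of_pos hq0, ← Real.exp_add, Real.exp_le_exp]
  have h1 : y ≤ Real.sinh y := Real.self_le_sinh_iff.2 hy0.le
  have h2 : y ^ 2 ≤ Real.sinh y ^ 2 := pow_le_pow_left₀ hy0.le h1 2
  have h3 : B ≤ d * a ^ 2 / (2 * r ^ 2) * T := by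
    rw [div_mul_eq_mul_div, le_div_iff₀ (by positivity)]
    linarith
  have h4 : B * y ≤ d * a ^ 2 / (2 * r ^ 2) * Real.sinh y ^ 2 := by
    have hc : (0 : ℝ) ≤ d * a ^ 2 / (2 * r ^ 2) := by positivity
    calc B * y ≤ d * a ^ 2 / (2 * r ^ 2) * T * y := mul_le_mul_of_nonneg_right h3 hy0.le
      _ ≤ d * a ^ 2 / (2 * r ^ 2) * y * y := by gcongr
      _ = d * a ^ 2 / (2 * r ^ 2) * y ^ 2 := by ring
      _ ≤ _ := mul_le_mul_of_nonneg_left h2 hc
  have h5 : T * B + m * Real.log q ≤ B * y := by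
    rw [hy]
    nlinarith
  linarith

end RO

open RO in
theorem rowO (hN : RowN) : RowO := by
  classical
  intro d hd M m T B a r hM hm hT ha hr hB hZ hBr
  have hd0 : (1 : ℝ) ≤ d := by exact_mod_cast hd
  set c : ℝ := 2 * a * Real.exp T with hc
  have hc0 : 0 < c := by positivity
  set V : ℝ := kap d * r ^ d with hV
  have hV0 : 0 < V := mul_pos (J.kap_pos d) (by positivity)
  set cap : {w : Fin d → ℤ // w ≠ 0} → Set (Fin d → ℝ) := fun w =>
    {u | ∑ k, u k ^ 2 < r ^ 2 ∧ (c ^ 2 * normSq M w.1 - (2 * a) ^ 2) / 4 <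
      |∑ k, u k * (c * Pool.Agent.Lib.MP_ef2672_gt_Eutaxy.vec M w.1 k)|} with hcap
  have hball : volume {u : Fin d → ℝ | ∑ k, u k ^ 2 < r ^ 2} = ENNReal.ofReal V := by
    have := J.vol_ball d (fun _ => 0) hr
    simpa using this
  have hsub : {u : Fin d → ℝ | ∑ k, u k ^ 2 < r ^ 2} ⊆ cell a c r M ∪ ⋃ w, cap w := by
    intro u hu
    by_cases h : u ∈ ⋃ w, cap w
    · exact Or.inr h
    · refine Or.inl ⟨hu, fun w hw => ?_⟩
      by_contra hcon
      push Not at hcon
      exact h (Set.mem_iUnion.2 ⟨⟨w, hw⟩, hu, hcon⟩)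
  have hsum : Summable fun w : {w : Fin d → ℤ // w ≠ 0} => normSq M w.1 ^ (-m) :=
    rowD d M m hM.1 hm
  have hone : ∀ w, volume (cap w) ≤
      ENNReal.ofReal (2 * V * Real.exp (-(T * B)) * normSq M w.1 ^ (-m)) := by
    intro w
    have hq : 1 ≤ normSq M w.1 := hM.2 w.1 w.2
    have hsq : ∑ k, (c * Pool.Agent.Lib.MP_ef2672_gt_Eutaxy.vec M w.1 k) ^ 2 =
        c ^ 2 * normSq M w.1 := by
      rw [normSq_eq, dotProduct, Finset.mul_sum]
      exact Finset.sum_congr rfl fun k _ => by ring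
    have hv : (fun k => c * Pool.Agent.Lib.MP_ef2672_gt_Eutaxy.vec M w.1 k) ≠ 0 := by
      intro h0
      have h1 : ∑ k, (c * Pool.Agent.Lib.MP_ef2672_gt_Eutaxy.vec M w.1 k) ^ 2 = 0 := by
        refine Finset.sum_eq_zero fun k _ => ?_
        have := congrFun h0 k
        simp only [Pi.zero_apply] at this
        rw [this]
        norm_num
      rw [hsq] at h1
      have : 0 < c ^ 2 * normSq M w.1 := by positivity
      linarith
    have hW : 0 ≤ (c ^ 2 * normSq M w.1 - (2 * a) ^ 2) / 4 := by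
      have h1 : 1 ≤ Real.exp T := Real.one_le_exp hT.le
      have h2 : (2 * a) ^ 2 ≤ c ^ 2 := by
        rw [hc]
        exact pow_le_pow_left₀ (by positivity) (le_mul_of_one_le_right (by positivity) h1) 2
      nlinarith [sq_nonneg c]
    refine (hN d _ r _ hr hW hv).trans (ENNReal.ofReal_le_ofReal ?_)
    rw [hsq]
    have h3 := expo (d := d) hq hT ha hr hB hBr
    rw [← hc] at h3
    calc 2 * Real.exp (-(d * ((c ^ 2 * normSq M w.1 - (2 * a) ^ 2) / 4) ^ 2 /
          (2 * r ^ 2 * (c ^ 2 * normSq M w.1)))) * (kap d * r ^ d)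
        ≤ 2 * (Real.exp (-(T * B)) * normSq M w.1 ^ (-m)) * (kap d * r ^ d) := by
          refine mul_le_mul_of_nonneg_right ?_ hV0.le
          exact mul_le_mul_of_nonneg_left h3 (by norm_num)
      _ = _ := by rw [hV]; ring
  have hZt : 0 ≤ Zt m M := tsum_nonneg fun w => Real.rpow_nonneg (by
    linarith [hM.2 w.1 w.2]) _
  have htot : ∑' w, volume (cap w) ≤ ENNReal.ofReal (V / 2) := by
    calc ∑' w, volume (cap w)
        ≤ ∑' w : {w : Fin d → ℤ // w ≠ 0},
          ENNReal.ofReal (2 * V * Real.exp (-(T * B)) * normSq M w.1 ^ (-m)) :=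
          ENNReal.tsum_le_tsum hone
      _ = ENNReal.ofReal (∑' w : {w : Fin d → ℤ // w ≠ 0},
          2 * V * Real.exp (-(T * B)) * normSq M w.1 ^ (-m)) := by
          refine (ENNReal.ofReal_tsum_of_nonneg (fun w => ?_) (hsum.mul_left _)).symm
          exact mul_nonneg (by positivity) (Real.rpow_nonneg (by linarith [hM.2 w.1 w.2]) _)
      _ ≤ _ := by
          refine ENNReal.ofReal_le_ofReal ?_
          rw [tsum_mul_left]
          change 2 * V * Real.exp (-(T * B)) * Zt m M ≤ V / 2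
          have h1 : 4 * Zt m M ≤ Real.exp (T * B) := by linarith
          have h2 : Real.exp (-(T * B)) * Real.exp (T * B) = 1 := by
            rw [← Real.exp_add]
            simp
          have h3 : Real.exp (-(T * B)) * (4 * Zt m M) ≤ 1 := by
            rw [← h2]
            exact mul_le_mul_of_nonneg_left h1 (Real.exp_pos _).le
          nlinarith
  have hmain : ENNReal.ofReal V ≤ volume (cell a c r M) + ENNReal.ofReal (V / 2) := by
    calc ENNReal.ofReal V = volume {u : Fin d → ℝ | ∑ k, u k ^ 2 < r ^ 2} := hball.symm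
      _ ≤ volume (cell a c r M ∪ ⋃ w, cap w) := measure_mono hsub
      _ ≤ volume (cell a c r M) + volume (⋃ w, cap w) := measure_union_le _ _
      _ ≤ volume (cell a c r M) + ∑' w, volume (cap w) := by
          gcongr
          exact measure_iUnion_le _
      _ ≤ _ := by gcongr
  have hsplit : ENNReal.ofReal V = ENNReal.ofReal (V / 2) + ENNReal.ofReal (V / 2) := by
    rw [← ENNReal.ofReal_add (by positivity) (by positivity)]
    congr 1
    ring
  rw [hsplit] at hmain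
  exact (ENNReal.add_le_add_iff_right ENNReal.ofReal_ne_top).1 hmain

end Pool.Agent.KLG
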