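import Pool.Agent.Lib.KLG.Rows2
import Pool.Agent.Lib.KLG.RowJ

/-!
Hard spheres in the larger cells of a lattice packing.  (helper28)
-/

set_option autoImplicit false

namespace Pool.Agent.KLG

open Matrix MeasureTheory Filter Topology Pointwise Pool.Agent.Lib.MP_ef2672_gt_Tauber
  Pool.Agent.Lib.MP_ef2672_gt_Eutaxy

namespace P

/-- Hard spheres which move in translates of a set. -/
theorem cells {d N : ℕ} {a r ℓ V : ℝ} (ha : 0 < a) (hr : 0 < r) (hV : 0 < V)
    (Ω : Set (Fin d → ℝ)) (hΩm : MeasurableSet Ω) (hΩr : ∀ u ∈ Ω, ∑ k, u k ^ 2 < r ^ 2)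
    (hΩV : ENNReal.ofReal V ≤ volume Ω) (y : Fin N → Fin d → ℝ)
    (hy : ∀ i k, r ≤ y i k ∧ y i k ≤ ℓ - r)
    (hsep : ∀ i j, i ≠ j → ∀ u ∈ Ω, ∀ v ∈ Ω,
      (2 * a) ^ 2 ≤ ∑ k, ((y i k + u k) - (y j k + v k)) ^ 2) :
    V ^ N ≤ Pool.Agent.KacGas.Z d a (fun _ => 0) ℓ N := by
  classical
  set S : Set (Fin N → Fin d → ℝ) := {x | (∀ i, x i ∈ Pool.Agent.SquareWellGas.Box d ℓ) ∧
      ∀ i j, i ≠ j → (2 * a) ^ 2 ≤ ∑ k, (x i k - x j k) ^ 2} with hS
  have hZ : Pool.Agent.KacGas.Z d a (fun _ => 0) ℓ N =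
      ((N.factorial : ℝ))⁻¹ * (volume S).toReal := by
    unfold Pool.Agent.KacGas.Z
    congr 1
    simp [hS, Measure.real]
  set P : Equiv.Perm (Fin N) → Set (Fin N → Fin d → ℝ) := fun σ =>
    Set.pi Set.univ fun i => (fun x : Fin d → ℝ => x + -y (σ i)) ⁻¹' Ω with hP
  have hmem : ∀ σ z, z ∈ P σ → ∀ i, z i + -y (σ i) ∈ Ω :=
    fun σ z hz i => hz i (Set.mem_univ _)
  have hsub : ∀ σ, P σ ⊆ S := by
    intro σ z hz
    refine ⟨fun i k => ?_, fun i j hij => ?_⟩
    · have h0 := hΩr _ (hmem σ z hz i)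
      have h1 : ((z i + -y (σ i)) k) ^ 2 ≤ ∑ k, ((z i + -y (σ i)) k) ^ 2 :=
        Finset.single_le_sum (f := fun k => ((z i + -y (σ i)) k) ^ 2)
          (fun _ _ => sq_nonneg _) (Finset.mem_univ k)
      have h2 := abs_lt_of_sq_lt_sq (h1.trans_lt h0) hr.le
      rw [abs_lt] at h2
      simp only [Pi.add_apply, Pi.neg_apply] at h2
      have h3 := hy (σ i) k
      exact ⟨by linarith [h2.1, h3.1], by linarith [h2.2, h3.2]⟩
    · have h1 := hsep (σ i) (σ j) (fun h => hij (σ.injective h)) _ (hmem σ z hz i) _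
        (hmem σ z hz j)
      refine h1.trans (le_of_eq (Finset.sum_congr rfl fun k _ => ?_))
      simp only [Pi.add_apply, Pi.neg_apply]
      ring
  have hdisj : Pairwise (Function.onFun Disjoint P) := by
    intro σ τ hne
    rw [Function.onFun, Set.disjoint_left]
    intro z hz hz'
    have h1 : ∃ i, σ i ≠ τ i := by
      by_contra hcon
      push Not at hcon
      exact hne (Equiv.ext hcon)
    obtain ⟨i, hi⟩ := h1
    have h2 := hsep (σ i) (τ i) hi _ (hmem σ z hz i) _ (hmem τ z hz' i)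
    have h4 : ∑ k, ((y (σ i) k + (z i + -y (σ i)) k) - (y (τ i) k + (z i + -y (τ i)) k)) ^ 2
        = 0 := by
      refine Finset.sum_eq_zero fun k _ => ?_
      simp only [Pi.add_apply, Pi.neg_apply]
      ring
    rw [h4] at h2
    have : 0 < (2 * a) ^ 2 := by positivity
    linarith
  have hmeas : ∀ σ, MeasurableSet (P σ) := fun σ =>
    MeasurableSet.univ_pi fun i => (measurable_add_const _) hΩm
  have hvol : ∀ σ, volume (P σ) = volume Ω ^ N := by
    intro σ
    rw [hP]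
    dsimp only
    rw [volume_pi_pi, Finset.prod_congr rfl fun i _ =>
      measure_preimage_add_right volume (-y (σ i)) Ω,
      Finset.prod_const, Finset.card_univ, Fintype.card_fin]
  have hU : volume (⋃ σ, P σ) = (N.factorial : ENNReal) * volume Ω ^ N := by
    rw [measure_iUnion hdisj hmeas, tsum_fintype, Finset.sum_congr rfl fun σ _ => hvol σ,
      Finset.sum_const, Finset.card_univ, Fintype.card_perm, Fintype.card_fin, nsmul_eq_mul]
  have hle : (N.factorial : ENNReal) * ENNReal.ofReal V ^ N ≤ volume S := by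
    refine (mul_le_mul_right (pow_le_pow_left₀ zero_le hΩV N) _).trans ?_
    rw [← hU]
    exact measure_mono (Set.iUnion_subset hsub)
  have hSt : volume S ≠ ⊤ := by
    refine ne_top_of_le_ne_top ?_ (measure_mono (t := Set.pi Set.univ fun _ : Fin N =>
      Set.pi Set.univ fun _ : Fin d => Set.Ico (0 : ℝ) ℓ) fun x hx i _ k _ => hx.1 i k)
    rw [volume_pi_pi]
    refine ENNReal.prod_ne_top fun _ _ => ?_
    rw [Real.volume_pi_Ico]
    exact ENNReal.prod_ne_top fun _ _ => ENNReal.ofReal_ne_top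
  have h1 := ENNReal.toReal_mono hSt hle
  rw [ENNReal.toReal_mul, ENNReal.toReal_natCast, ENNReal.toReal_pow,
    ENNReal.toReal_ofReal hV.le] at h1
  rw [hZ, inv_mul_eq_div, le_div_iff₀ (by exact_mod_cast N.factorial_pos), mul_comm]
  exact h1

theorem measurableSet_cell {d : ℕ} (a c r : ℝ) (M : Matrix (Fin d) (Fin d) ℝ) :
    MeasurableSet (cell a c r M) := by
  have h : cell a c r M = {u : Fin d → ℝ | ∑ k, u k ^ 2 < r ^ 2} ∩ ⋂ (w : Fin d → ℤ),
      ⋂ (_ : w ≠ 0), {u : Fin d → ℝ | |∑ k, u k *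
        (c * Pool.Agent.Lib.MP_ef2672_gt_Eutaxy.vec M w k)| ≤
      (c ^ 2 * normSq M w - (2 * a) ^ 2) / 4} := by
    ext u
    simp only [cell, Set.mem_inter_iff, Set.mem_iInter, Set.mem_ofPred_eq]
  rw [h]
  refine MeasurableSet.inter (isOpen_lt (by fun_prop) continuous_const).measurableSet ?_
  refine MeasurableSet.iInter fun w => MeasurableSet.iInter fun _ => ?_
  exact (isClosed_le (by fun_prop) continuous_const).measurableSet

/-- Points of different cells are far apart. -/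
theorem cell_sep {d : ℕ} {a c r : ℝ} {M : Matrix (Fin d) (Fin d) ℝ} {u v y z : Fin d → ℝ}
    (hu : u ∈ cell a c r M) (hv : v ∈ cell a c r M) {w : Fin d → ℤ} (hw : w ≠ 0)
    (h : y - z = Pool.Agent.Lib.MP_ef2672_gt_Eutaxy.vec (c • M) w) :
    (2 * a) ^ 2 ≤ ∑ k, ((y k + u k) - (z k + v k)) ^ 2 := by
  have h1 := hu.2 w hw
  have h2 := hv.2 w hw
  rw [abs_le] at h1 h2
  have hk : ∀ k, y k - z k = c * Pool.Agent.Lib.MP_ef2672_gt_Eutaxy.vec M w k := by
    intro k
    rw [← J.vec_smul, ← h]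
    rfl
  have h3 : ∑ k, ((y k + u k) - (z k + v k)) ^ 2 = c ^ 2 * normSq M w +
      2 * (∑ k, u k * (c * Pool.Agent.Lib.MP_ef2672_gt_Eutaxy.vec M w k)) -
      2 * (∑ k, v k * (c * Pool.Agent.Lib.MP_ef2672_gt_Eutaxy.vec M w k)) +
      ∑ k, (u k - v k) ^ 2 := by
    rw [normSq_eq, dotProduct, Finset.mul_sum, Finset.mul_sum, Finset.mul_sum,
      ← Finset.sum_add_distrib, ← Finset.sum_sub_distrib, ← Finset.sum_add_distrib]
    refine Finset.sum_congr rfl fun k _ => ?_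
    have h4 : y k + u k - (z k + v k) =
        c * Pool.Agent.Lib.MP_ef2672_gt_Eutaxy.vec M w k + (u k - v k) := by
      rw [← hk k]; ring
    rw [h4]
    ring
  have h5 : 0 ≤ ∑ k, (u k - v k) ^ 2 := Finset.sum_nonneg fun k _ => sq_nonneg _
  rw [h3]
  linarith [h1.1, h1.2, h2.1, h2.2]

/-- The partition function along a sequence of cubes. -/
theorem seq {d : ℕ} (hd : 1 ≤ d) {a c r V ρ : ℝ} (ha : 0 < a) (hc0 : 0 < c) (hr0 : 0 < r)
    (hV : 0 < V) (hρ : 0 < ρ) {M : Matrix (Fin d) (Fin d) ℝ} (hM : Adm M)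
    (hcell : ENNReal.ofReal V ≤ volume (cell a c r M)) (h : ρ * |M.det| * c ^ d ≤ 1) :
    ∃ (ℓ : ℕ → ℝ) (N : ℕ → ℕ), Tendsto ℓ atTop atTop ∧
      Tendsto (fun j => (N j : ℝ) / ℓ j ^ d) atTop (𝓝 ρ) ∧ (∀ j, 0 < ℓ j) ∧
      ∀ j, V ^ N j ≤ Pool.Agent.KacGas.Z d a (fun _ => 0) (ℓ j) (N j) := by
  set A : Matrix (Fin d) (Fin d) ℝ := c • M with hA
  have hdet : A.det = c ^ d * M.det := by
    rw [hA, Matrix.det_smul, Fintype.card_fin]
  have hdet0 : A.det ≠ 0 := by
    rw [hdet]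
    exact mul_ne_zero (pow_pos hc0 d).ne' hM.1
  have habs : |A.det| = c ^ d * |M.det| := by
    rw [hdet, abs_mul, abs_of_pos (pow_pos hc0 d)]
  set ℓ : ℕ → ℝ := fun j => (j + 1 : ℝ) + 2 * r with hℓ
  set N : ℕ → ℕ := fun j => ⌊ρ * (j + 1 : ℝ) ^ d⌋₊ with hN
  have hℓ0 : ∀ j, 0 < ℓ j := fun j => by rw [hℓ]; positivity
  have hj1 : Tendsto (fun j : ℕ => (j + 1 : ℝ)) atTop atTop :=
    tendsto_atTop_add_const_right _ _ tendsto_natCast_atTop_atTop
  have hℓt : Tendsto ℓ atTop atTop := tendsto_atTop_add_const_right _ _ hj1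
  refine ⟨ℓ, N, hℓt, ?_, hℓ0, fun j => ?_⟩
  · have h1 : Tendsto (fun j : ℕ => (⌊ρ * (j + 1 : ℝ) ^ d⌋₊ : ℝ) / (j + 1 : ℝ) ^ d) atTop
        (𝓝 ρ) := (tendsto_nat_floor_mul_div_atTop hρ.le).comp
          ((tendsto_pow_atTop (by omega)).comp hj1)
    have h2 : Tendsto (fun j : ℕ => ((j + 1 : ℝ) / ℓ j) ^ d) atTop (𝓝 1) := by
      have h3 : Tendsto (fun j : ℕ => 1 - 2 * r / ℓ j) atTop (𝓝 (1 - 0)) :=
        tendsto_const_nhds.sub (hℓt.const_div_atTop (2 * r))
      rw [sub_zero] at h3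
      have h4 := h3.pow d
      rw [one_pow] at h4
      refine h4.congr fun j => ?_
      congr 1
      have := (hℓ0 j).ne'
      rw [eq_div_iff this, sub_mul, one_mul, div_mul_cancel₀ _ this, hℓ]
      ring
    have h5 := h1.mul h2
    rw [mul_one] at h5
    refine h5.congr fun j => ?_
    have h6 : (0 : ℝ) < (j + 1 : ℝ) := by positivity
    have h7 := hℓ0 j
    rw [div_pow]
    field_simp
    rfl
  · set L : ℝ := (j + 1 : ℝ) with hL
    have hL0 : 0 < L := by positivity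
    have hvS : volume (Set.pi Set.univ fun _ : Fin d => Set.Icc r (r + L)) =
        ENNReal.ofReal (L ^ d) := by
      rw [volume_pi_pi]
      simp only [Real.volume_Icc, add_sub_cancel_left, Finset.prod_const, Finset.card_univ,
        Fintype.card_fin]
      rw [ENNReal.ofReal_pow hL0.le]
    obtain ⟨y, hy, hsep⟩ := J.blich A hdet0 (Set.pi Set.univ fun _ : Fin d => Set.Icc r (r + L))
      (MeasurableSet.univ_pi fun _ => measurableSet_Icc) (by rw [hvS]; exact ENNReal.ofReal_ne_top)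
      (N j) (by
        rw [hvS, ← ENNReal.ofReal_natCast, ← ENNReal.ofReal_mul (Nat.cast_nonneg _)]
        refine ENNReal.ofReal_le_ofReal ?_
        have h1 : (N j : ℝ) ≤ ρ * L ^ d := Nat.floor_le (by positivity)
        calc (N j : ℝ) * |A.det| ≤ (ρ * L ^ d) * (c ^ d * |M.det|) := by
              rw [habs]
              gcongr
          _ = (ρ * |M.det| * c ^ d) * L ^ d := by ring
          _ ≤ 1 * L ^ d := by gcongr
          _ = L ^ d := one_mul _)
    refine cells ha hr0 hV (cell a c r M) (measurableSet_cell a c r M) (fun u hu => hu.1) hcell y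
      (fun i k => ?_) fun i j hij u hu v hv => ?_
    · have h1 := hy i k (Set.mem_univ _)
      have h2 : ℓ j = L + 2 * r := rfl
      exact ⟨h1.1, by rw [h2]; linarith [h1.2]⟩
    · obtain ⟨w, hw, he⟩ := hsep i j hij
      exact cell_sep hu hv hw he

end P

theorem rowP : RowP := by
  intro d hd a ha f ρ₀ hf M hM T r V hT hr hV hcell ρ hρ h
  have hd0 : (0 : ℝ) < d := by exact_mod_cast hd
  have hdet := abs_pos.2 hM.1
  have hT1 : 1 < Real.exp T := Real.one_lt_exp_iff.2 hT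
  -- the density is below the maximum
  have hlt : ρ < ρ₀ := by
    set s : ℝ := (Real.exp T - 1) / 2 with hs
    have hs0 : 0 < s := by rw [hs]; linarith
    have hs1 : 1 + s < Real.exp T := by rw [hs]; linarith
    set ρ2 : ℝ := 1 / (|M.det| * (2 * a * (1 + s)) ^ d) with hρ2
    have hX : 0 < |M.det| * (2 * a * (1 + s)) ^ d := by positivity
    have hρ20 : 0 < ρ2 := by positivity
    obtain ⟨ℓ, N, hℓ, hN, -, hZ⟩ := J.seq hd ha hs0 hρ20 hM (le_of_eq (by
      rw [mul_assoc, hρ2, one_div, inv_mul_cancel₀ hX.ne']))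
    have h1 : ρ2 ≤ ρ₀ := by
      by_contra hcon
      push Not at hcon
      obtain ⟨j, hj⟩ := ((hf.2 ℓ N ρ2 hℓ hN).2 hcon).exists
      have h2 := hZ j
      rw [hj] at h2
      have h3 : 0 < (kap d * (a * s) ^ d) ^ N j :=
        pow_pos (mul_pos (J.kap_pos d) (by positivity)) _
      linarith
    refine lt_of_lt_of_le ?_ h1
    rw [hρ2, lt_div_iff₀ hX]
    refine lt_of_lt_of_le ?_ h
    rw [← mul_assoc]
    refine mul_lt_mul_of_pos_left ?_ (by positivity)
    refine pow_lt_pow_left₀ ?_ (by positivity) (by omega)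
    exact mul_lt_mul_of_pos_left hs1 (by positivity)
  refine ⟨hlt, ?_⟩
  obtain ⟨ℓ, N, hℓ, hN, hℓ0, hZ⟩ := P.seq hd ha (by positivity) hr hV hρ hM hcell h
  have h1 := ((hf.2 ℓ N ρ hℓ hN).1 ⟨hρ, hlt⟩).2
  have h2 := hN.mul_const (Real.log V)
  refine le_of_tendsto_of_tendsto h2 h1 (Eventually.of_forall fun j => ?_)
  have h3 := Real.log_le_log (pow_pos hV _) (hZ j)
  rw [Real.log_pow] at h3
  have h4 : 0 < ℓ j ^ d := pow_pos (hℓ0 j) d
  show (N j : ℝ) / ℓ j ^ d * Real.log V ≤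
    Real.log (Pool.Agent.KacGas.Z d a (fun _ => 0) (ℓ j) (N j)) / ℓ j ^ d
  rw [div_mul_eq_mul_div]
  exact div_le_div_of_nonneg_right h3 h4.le

end Pool.Agent.KLG
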