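import Pool.Agent.Lib.KLG.Rows2
import Pool.Agent.Lib.KLG.RowJ

/-!
# Row Q: the lower bound for the free energy of hard spheres at all densities `ρ b ≤ d^(2 - s)`.
(helper28)
-/

set_option autoImplicit false

namespace Pool.Agent.KLG

open Matrix MeasureTheory Filter Topology Pool.Agent.Lib.MP_ef2672_gt_Tauber
  Pool.Agent.Lib.MP_ef2672_gt_Eutaxy

/-- The free energy of hard spheres from the cells. -/
def RowQ : Prop := ∀ s : ℝ, 0 < s → ∃ d0 : ℕ, ∀ d : ℕ, d0 ≤ d → ∀ a : ℝ, 0 < a →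
  ∀ (f : ℝ → ℝ) (ρ₀ : ℝ), Pool.Agent.VdwGas.IsF d a (fun _ => 0) f ρ₀ →
    ∀ ρ b : ℝ, b = kap d * (2 * a) ^ d → 0 < ρ → ρ * b ≤ (d : ℝ) ^ (2 - s) →
      ρ < ρ₀ ∧ ρ * (Real.log b - (1 / 2 + s) * (d * Real.log d)) ≤ f ρ

/-- The case `s ≤ 1`. -/
theorem rowQ_aux (hI : RowI2) (hO : RowO) (hP : RowP) (s : ℝ) (hs : 0 < s) (hs1 : s ≤ 1) :
    ∃ d0 : ℕ, 3 ≤ d0 ∧ ∀ d : ℕ, d0 ≤ d → ∀ a : ℝ, 0 < a →
  ∀ (f : ℝ → ℝ) (ρ₀ : ℝ), Pool.Agent.VdwGas.IsF d a (fun _ => 0) f ρ₀ →
    ∀ ρ b : ℝ, b = kap d * (2 * a) ^ d → 0 < ρ → ρ * b ≤ (d : ℝ) ^ (2 - s) →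
      ρ < ρ₀ ∧ ρ * (Real.log b - (1 / 2 + s) * (d * Real.log d)) ≤ f ρ := by
  obtain ⟨C, n0, hC, hn0⟩ := hI (s / 2) (by positivity)
  set K : ℝ := 12 / s with hK
  have hK12 : 12 ≤ K := by rw [hK, le_div_iff₀ hs]; linarith
  have hK0 : 0 < K := by linarith
  refine ⟨max (max n0 3) (max ⌈C⌉₊ (max ⌈Real.exp (2 / s)⌉₊
    ⌈Real.exp (4 / s * (3 + Real.log (2 * K)))⌉₊)), (le_max_right _ _).trans (le_max_left _ _),
    fun d hd a ha f ρ₀ hf ρ b hb hρ hx2 => ?_⟩
  have hd1 : n0 ≤ d := ((le_max_left _ _).trans (le_max_left _ _)).trans hd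
  have hd3 : 3 ≤ d := ((le_max_right _ _).trans (le_max_left _ _)).trans hd
  have hdC : C ≤ d := (Nat.le_ceil _).trans
    (by exact_mod_cast ((le_max_left _ _).trans (le_max_right _ _)).trans hd)
  have hds : Real.exp (2 / s) ≤ d := (Nat.le_ceil _).trans (by
    exact_mod_cast (((le_max_left _ _).trans (le_max_right _ _)).trans (le_max_right _ _)).trans hd)
  have hdK : Real.exp (4 / s * (3 + Real.log (2 * K))) ≤ d := (Nat.le_ceil _).trans (by
    exact_mod_cast (((le_max_right _ _).trans (le_max_right _ _)).trans (le_max_right _ _)).trans hd)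
  have hdR : (3 : ℝ) ≤ d := by exact_mod_cast hd3
  have hd0 : (0 : ℝ) < d := by linarith
  obtain ⟨M, hM, hM2, hM3⟩ := hn0 d hd1
  have hdet : 0 < |M.det| := abs_pos.2 hM.1
  have hkap : 0 < kap d := J.kap_pos d
  have hbp : 0 < b := by rw [hb]; positivity
  have hlogd1 : 1 ≤ Real.log d := by
    rw [Real.le_log_iff_exp_le hd0]
    exact (Real.exp_one_lt_d9.le.trans (by norm_num)).trans hdR
  have hlogds : 2 / s ≤ Real.log d := (Real.le_log_iff_exp_le hd0).2 hds
  have hlogdK : 4 / s * (3 + Real.log (2 * K)) ≤ Real.log d := (Real.le_log_iff_exp_le hd0).2 hdK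
  set x : ℝ := ρ * b with hx
  have hxp : 0 < x := by positivity
  -- the quotient
  set D : ℝ := kap d / |M.det| with hD
  have hD0 : 0 < D := by positivity
  have hDd : (d : ℝ) ^ (2 - s / 2) ≤ D := by
    rw [hD, le_div_iff₀ hdet, mul_comm]
    exact hM2
  have hlogD : (2 - s / 2) * Real.log d ≤ Real.log D := by
    rw [← Real.log_rpow hd0]
    exact Real.log_le_log (Real.rpow_pos_of_pos hd0 _) hDd
  have hlogx : Real.log x ≤ (2 - s) * Real.log d := by
    rw [← Real.log_rpow hd0]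
    exact Real.log_le_log hxp hx2
  -- `Λ = log (D / x)`
  set Λ : ℝ := Real.log D - Real.log x with hΛ
  have hΛ1 : 1 ≤ Λ := by
    have h1 : s / 2 * Real.log d ≤ Λ := by rw [hΛ]; linarith
    have h2 : s / 2 * (2 / s) ≤ s / 2 * Real.log d :=
      mul_le_mul_of_nonneg_left hlogds (by positivity)
    have h3 : s / 2 * (2 / s) = 1 := by field_simp
    linarith
  have hΛD : s / 4 * Real.log D ≤ Λ := by
    -- log x ≤ (2 - s) log d ≤ (1 - s / 4) log D
    have h1 : (2 - s) * Real.log d ≤ (1 - s / 4) * Real.log D := by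
      have h2 : (1 - s / 4) * ((2 - s / 2) * Real.log d) ≤ (1 - s / 4) * Real.log D :=
        mul_le_mul_of_nonneg_left hlogD (by linarith)
      have h3 : 2 - s ≤ (1 - s / 4) * (2 - s / 2) := by nlinarith [sq_nonneg s]
      have h4 := mul_le_mul_of_nonneg_right h3 (by linarith : (0 : ℝ) ≤ Real.log d)
      linarith
    rw [hΛ]
    linarith
  have hlogDC : Real.log C ≤ Real.log D := by
    have h1 : Real.log C ≤ Real.log d := Real.log_le_log (by linarith) hdC
    have h2 : Real.log d ≤ (2 - s / 2) * Real.log d := by nlinarith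
    linarith
  have hlogD0 : 0 ≤ Real.log D := by
    have : 0 ≤ (2 - s / 2) * Real.log d := mul_nonneg (by linarith) (by linarith)
    linarith
  -- the parameters
  set T : ℝ := Λ / d with hT
  have hT0 : 0 < T := by rw [hT]; positivity
  set B : ℝ := K * d with hB
  have hB0 : 0 < B := by positivity
  set r : ℝ := a * Real.sqrt (T / (2 * K)) with hr
  have hTK : 0 < T / (2 * K) := by positivity
  have hr0 : 0 < r := by rw [hr]; exact mul_pos ha (Real.sqrt_pos.2 hTK)
  have hr2 : r ^ 2 = a ^ 2 * (T / (2 * K)) := by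
    rw [hr, mul_pow, Real.sq_sqrt hTK.le]
  have hTB : T * B = K * Λ := by rw [hT, hB]; field_simp
  have hexpT : Real.exp T ^ d = D / x := by
    rw [← Real.exp_nat_mul, hT]
    have h1 : (d : ℝ) * (Λ / d) = Λ := by field_simp
    rw [h1, hΛ, Real.exp_sub, Real.exp_log hD0, Real.exp_log hxp]
  have hcell := hO d (by omega) M ((1 + s / 2) * d / 2) T B a r hM (by nlinarith) hT0 ha hr0
    (by rw [hB]; nlinarith) (by
      -- 4 (1 + Z) ≤ exp (T B)
      refine hM3.trans ?_
      rw [hTB]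
      have h1 : Real.log (C * D ^ (1 + s / 2)) ≤ K * Λ := by
        rw [Real.log_mul (by positivity) (by positivity), Real.log_rpow hD0]
        have h2 : K * (s / 4 * Real.log D) ≤ K * Λ := mul_le_mul_of_nonneg_left hΛD hK0.le
        have h3 : K * (s / 4 * Real.log D) = 3 * Real.log D := by
          rw [hK]; field_simp; ring
        nlinarith
      have h4 : 0 < C * D ^ (1 + s / 2) := by positivity
      exact (Real.log_le_iff_le_exp h4).1 h1)
    (by
      rw [hr2, hB]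
      have : 2 * (K * d) * (a ^ 2 * (T / (2 * K))) = d * a ^ 2 * T := by field_simp
      linarith)
  set V : ℝ := kap d * r ^ d / 2 with hV
  have hV0 : 0 < V := by positivity
  have hdens : ρ * |M.det| * (2 * a * Real.exp T) ^ d ≤ 1 := by
    rw [mul_pow, hexpT]
    have h1 : ρ * |M.det| * ((2 * a) ^ d * (D / x)) = 1 := by
      rw [hx, hb, hD]
      field_simp
    linarith
  obtain ⟨h1, h2⟩ := hP d (by omega) a ha f ρ₀ hf M hM T r V hT0 hr0 hV0 hcell ρ hρ hdens
  refine ⟨h1, le_trans (mul_le_mul_of_nonneg_left ?_ hρ.le) h2⟩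
  have hlogb : Real.log b = Real.log (kap d) + d * (Real.log 2 + Real.log a) := by
    rw [hb, Real.log_mul hkap.ne' (by positivity), Real.log_pow,
      Real.log_mul (by norm_num) ha.ne']
  have hlogr : Real.log r = Real.log a + 1 / 2 * Real.log (T / (2 * K)) := by
    rw [hr, Real.log_mul ha.ne' (Real.sqrt_pos.2 hTK).ne', Real.log_sqrt hTK.le]
    ring
  have hlogTK : -(Real.log d + Real.log (2 * K)) ≤ Real.log (T / (2 * K)) := by
    rw [Real.log_div hT0.ne' (by positivity), hT, Real.log_div (by positivity) hd0.ne']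
    have := Real.log_nonneg hΛ1
    linarith
  have hlogV : Real.log V = Real.log (kap d) + d * Real.log r - Real.log 2 := by
    rw [hV, Real.log_div (by positivity) (by norm_num), Real.log_mul hkap.ne' (by positivity),
      Real.log_pow]
  have hlog2 : Real.log 2 ≤ 1 := by
    have := Real.log_two_lt_d9
    linarith
  rw [hlogb, hlogV, hlogr]
  have h6 : -(d * (1 / 2 * (Real.log d + Real.log (2 * K)))) ≤
      d * (1 / 2 * Real.log (T / (2 * K))) := by
    have := mul_le_mul_of_nonneg_left hlogTK hd0.le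
    linarith
  have h7 : d * (3 + Real.log (2 * K)) ≤ s / 4 * (d * Real.log d) := by
    have h8 := mul_le_mul_of_nonneg_left hlogdK (show (0 : ℝ) ≤ s / 4 * d by positivity)
    have h9 : s / 4 * d * (4 / s * (3 + Real.log (2 * K))) = d * (3 + Real.log (2 * K)) := by
      field_simp
    rw [h9] at h8
    linarith
  have hlog2K : 0 ≤ Real.log (2 * K) := Real.log_nonneg (by linarith)
  have h9 : d * (Real.log 2) ≤ d * 1 := mul_le_mul_of_nonneg_left hlog2 hd0.le
  have h10 : 0 ≤ d * Real.log (2 * K) := mul_nonneg hd0.le hlog2K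
  have h11 : 0 ≤ s * (d * Real.log d) := by positivity
  nlinarith

theorem rowQ (hI : RowI2) (hO : RowO) (hP : RowP) : RowQ := by
  intro s hs
  rcases le_or_gt s 1 with hs1 | hs1
  · obtain ⟨d0, -, h⟩ := rowQ_aux hI hO hP s hs hs1
    exact ⟨d0, h⟩
  · obtain ⟨d0, h3, h⟩ := rowQ_aux hI hO hP 1 one_pos le_rfl
    refine ⟨d0, fun d hd a ha f ρ₀ hf ρ b hb hρ hx => ?_⟩
    have hdR : (3 : ℝ) ≤ d := by exact_mod_cast h3.trans hd
    have hlogd1 : 0 ≤ Real.log d := Real.log_nonneg (by linarith)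
    have h1 : ρ * b ≤ (d : ℝ) ^ ((2 : ℝ) - 1) := hx.trans
      (Real.rpow_le_rpow_of_exponent_le (by linarith) (by linarith))
    obtain ⟨h2, h4⟩ := h d hd a ha f ρ₀ hf ρ b hb hρ h1
    refine ⟨h2, le_trans (mul_le_mul_of_nonneg_left ?_ hρ.le) h4⟩
    have h5 : 0 ≤ (s - 1) * (d * Real.log d) :=
      mul_nonneg (by linarith) (mul_nonneg (by linarith) hlogd1)
    nlinarith

end Pool.Agent.KLG
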