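import Pool.Agent.Lib.KLG.Main
import Pool.Agent.Lib.KLG.RowI2
import Pool.Agent.Lib.KLG.RowN
import Pool.Agent.Lib.KLG.RowO
import Pool.Agent.Lib.KLG.RowP
import Pool.Agent.Lib.KLG.RowQ

/-!
The lower bound for the free energy of hard spheres, without hypotheses.
-/

set_option autoImplicit false

namespace Pool.Agent.KLG

/-- Dense lattice packings with a bound for the zeta function. -/
theorem packings2 : RowI2 := rowI2 (rowG rowE (rowF rowA rowB rowC rowD)) rowH

/-- The lower bound for the free energy. -/
theorem crystal : RowQ := rowQ packings2 (rowO rowN) rowP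

end Pool.Agent.KLG
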