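import Pool.Agent.Lib.KLG.Rows

/-!
# Row B: orthonormal symmetric matrices which vanish on given vectors
-/

set_option autoImplicit false

namespace Pool.Agent.KLG

open Matrix MeasureTheory Pool.Agent.Lib.MP_ef2672_gt_Tauber Pool.Agent.Lib.MP_ef2672_gt_Eutaxy

namespace RB

variable (n : ℕ)

/-- Symmetric matrices from functions on unordered pairs. -/
noncomputable def S : (Sym2 (Fin n) → ℝ) →ₗ[ℝ] EuclideanSpace ℝ (Fin n × Fin n) where
  toFun g := WithLp.toLp 2 (fun p => g s(p.1, p.2))
  map_add' g h := by ext p; simp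
  map_smul' c g := by ext p; simp

lemma S_injective : Function.Injective (S n) := by
  intro g h hgh
  funext z
  induction z using Sym2.ind with
  | _ a b =>
    have := congrArg (fun v : EuclideanSpace ℝ (Fin n × Fin n) => v (a, b)) hgh
    simpa [S] using this

/-- The values on the vectors of `Y`. -/
noncomputable def Q (Y : Finset (Fin n → ℝ)) : (Sym2 (Fin n) → ℝ) →ₗ[ℝ] (Y → ℝ) where
  toFun g := fun y => ∑ k, ∑ l, y.1 k * (g s(k, l) * y.1 l)
  map_add' g h := by
    funext y
    simp only [Pi.add_apply, ← Finset.sum_add_distrib]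
    exact Finset.sum_congr rfl fun k _ => Finset.sum_congr rfl fun l _ => by ring
  map_smul' c g := by
    funext y
    simp only [Pi.smul_apply, smul_eq_mul, RingHom.id_apply, Finset.mul_sum]
    exact Finset.sum_congr rfl fun k _ => Finset.sum_congr rfl fun l _ => by ring

end RB

open RB in
theorem rowB : RowB := by
  intro n Y
  set W : Submodule ℝ (EuclideanSpace ℝ (Fin n × Fin n)) := (LinearMap.ker (Q n Y)).map (S n) with hW
  have hdim : (n : ℝ) * (n + 1) / 2 ≤ Module.finrank ℝ W + Y.card := by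
    have h1 : Module.finrank ℝ W = Module.finrank ℝ (LinearMap.ker (Q n Y)) :=
      (LinearEquiv.finrank_eq (Submodule.equivMapOfInjective (S n) (S_injective n) _)).symm
    have h2 := LinearMap.finrank_range_add_finrank_ker (Q n Y)
    have h3 : Module.finrank ℝ (LinearMap.range (Q n Y)) ≤ Y.card := by
      have := Submodule.finrank_le (LinearMap.range (Q n Y))
      simpa using this
    have h4 : Module.finrank ℝ (Sym2 (Fin n) → ℝ) = (n + 1).choose 2 := by
      rw [Module.finrank_fintype_fun_eq_card, Sym2.card]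
      simp
    have h5 : (((n + 1).choose 2 : ℕ) : ℝ) = (n : ℝ) * (n + 1) / 2 := by
      rw [Nat.cast_choose_two]
      push_cast
      ring
    have h6 : (n + 1).choose 2 ≤ Module.finrank ℝ W + Y.card := by
      rw [h1, ← h4]
      omega
    rw [← h5]
    exact_mod_cast h6
  have hsym : ∀ v ∈ W, ∀ k l, v (k, l) = v (l, k) := by
    rintro v ⟨g, _, rfl⟩ k l
    simp [S, Sym2.eq_swap]
  have hY : ∀ v ∈ W, ∀ y ∈ Y, ∑ k, ∑ l, y k * (v (k, l) * y l) = 0 := by
    rintro v ⟨g, hg, rfl⟩ y hy
    have := congrFun (LinearMap.mem_ker.1 hg) ⟨y, hy⟩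
    simpa [Q, S] using this
  set b := stdOrthonormalBasis ℝ W with hb
  have hon : Orthonormal ℝ (fun i => (b i : EuclideanSpace ℝ (Fin n × Fin n))) :=
    b.orthonormal.comp_linearIsometry W.subtypeₗᵢ
  refine ⟨Module.finrank ℝ W, fun i => Matrix.of fun k l => (b i : EuclideanSpace ℝ (Fin n × Fin n)) (k, l),
    hdim, ?_, ?_⟩
  · intro i
    refine ⟨?_, ?_, ?_⟩
    · ext k l
      simp only [Matrix.transpose_apply, Matrix.of_apply]
      exact hsym _ (b i).2 l k
    · have h1 := hon.1 i
      have h2 : ‖(b i : EuclideanSpace ℝ (Fin n × Fin n))‖ ^ 2 = 1 := by rw [h1]; norm_num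
      rw [EuclideanSpace.real_norm_sq_eq, Fintype.sum_prod_type] at h2
      simpa using h2
    · intro y hy
      have h1 := hY _ (b i).2 y hy
      simp only [dotProduct, Matrix.mulVec, Matrix.of_apply, Finset.mul_sum]
      simpa using h1
  · intro x
    set X : EuclideanSpace ℝ (Fin n × Fin n) := WithLp.toLp 2 (fun p => x p.1 * x p.2) with hX
    have h1 : ∑ i ∈ (Finset.univ : Finset (Fin (Module.finrank ℝ W))),
        ‖inner ℝ ((b i : EuclideanSpace ℝ (Fin n × Fin n))) X‖ ^ 2 ≤ ‖X‖ ^ 2 := hon.sum_inner_products_le X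
    have h2 : ‖X‖ ^ 2 = dotProduct x x ^ 2 := by
      rw [EuclideanSpace.real_norm_sq_eq, Fintype.sum_prod_type]
      simp only [hX, dotProduct, sq, Finset.sum_mul_sum]
      exact Finset.sum_congr rfl fun k _ => Finset.sum_congr rfl fun l _ => by ring
    have h3 : ∀ i, inner ℝ ((b i : EuclideanSpace ℝ (Fin n × Fin n))) X =
        dotProduct x ((Matrix.of fun k l => (b i : EuclideanSpace ℝ (Fin n × Fin n)) (k, l)).mulVec x) := by
      intro i
      rw [PiLp.inner_apply, Fintype.sum_prod_type]
      simp only [hX, dotProduct, Matrix.mulVec, Matrix.of_apply, Finset.mul_sum]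
      exact Finset.sum_congr rfl fun k _ => Finset.sum_congr rfl fun l _ => by
        simp
        ring
    rw [h2] at h1
    calc _ = ∑ i, ‖inner ℝ ((b i : EuclideanSpace ℝ (Fin n × Fin n))) X‖ ^ 2 := by
          refine Finset.sum_congr rfl fun i _ => ?_
          rw [h3, Real.norm_eq_abs, sq_abs]
      _ ≤ _ := h1

end Pool.Agent.KLG
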