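import Pool.Agent.Lib.KLG.Rows

set_option autoImplicit false

namespace Pool.Agent.KLG

lemma log_lower {x : ℝ} (hx : |x| ≤ 1 / 2) : -x - x ^ 2 / 2 - 2 * |x| ^ 3 ≤ Real.log (1 - x) := by
  have h := Real.abs_log_sub_add_sum_range_le (x := x) (by linarith) 2
  rw [Finset.sum_range_succ, Finset.sum_range_succ, Finset.sum_range_zero] at h
  norm_num at h
  have h1 : |x| ^ 3 / (1 - |x|) ≤ 2 * |x| ^ 3 := by
    rw [div_le_iff₀ (by linarith)]
    have : 0 ≤ |x| ^ 3 := by positivity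
    nlinarith
  have h2 := (abs_le.1 (h.trans h1)).1
  linarith

theorem rowC : RowC := by
  intro m κ hm hκ
  set A : ℝ := m * (m + 1) / 2 + m with hA
  have hA0 : 0 < A := by positivity
  set t0 : ℝ := min (1 / 2) (min (1 / (A + 1)) (m * (m + 1) * κ / (2 * A ^ 2 + 4 * m))) with ht0
  have h1 : t0 ≤ 1 / 2 := min_le_left _ _
  have h2 : t0 ≤ 1 / (A + 1) := (min_le_right _ _).trans (min_le_left _ _)
  have h3 : t0 ≤ m * (m + 1) * κ / (2 * A ^ 2 + 4 * m) := (min_le_right _ _).trans (min_le_right _ _)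
  have h0 : 0 < t0 := by
    refine lt_min (by norm_num) (lt_min (by positivity) (by positivity))
  refine ⟨t0, h0, h1, fun u hu => ?_⟩
  have hu1 : |u| ≤ 1 / 2 := hu.trans h1
  have hu2 := abs_le.1 hu1
  have hau : 0 ≤ |u| := abs_nonneg u
  have hp : 0 < 1 + u := by linarith [hu2.1]
  have hq : 0 < 1 - u := by linarith [hu2.2]
  set y : ℝ := m * u ^ 2 / 2 + 2 * m * |u| ^ 3 with hy
  have e1 : (1 + u) ^ (-m) ≤ Real.exp (-(m * u) + y) := by
    rw [Real.rpow_def_of_pos hp]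
    refine Real.exp_le_exp.2 ?_
    have h := log_lower (x := -u) (by rw [abs_neg]; exact hu1)
    rw [abs_neg, sub_neg_eq_add] at h
    have h' := mul_le_mul_of_nonneg_right h hm.le
    rw [hy]
    nlinarith
  have e2 : (1 - u) ^ (-m) ≤ Real.exp (m * u + y) := by
    rw [Real.rpow_def_of_pos hq]
    refine Real.exp_le_exp.2 ?_
    have h := log_lower (x := u) hu1
    have h' := mul_le_mul_of_nonneg_right h hm.le
    rw [hy]
    nlinarith
  have e3 : Real.exp (-(m * u) + y) + Real.exp (m * u + y) = 2 * Real.cosh (m * u) * Real.exp y := by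
    rw [Real.exp_add (-(m * u)) y, Real.exp_add (m * u) y, Real.cosh_eq (m * u)]
    generalize Real.exp y = Y
    ring
  have e4 : Real.cosh (m * u) ≤ Real.exp ((m * u) ^ 2 / 2) := Real.cosh_le_exp_half_sq _
  have e5 : 2 * Real.cosh (m * u) * Real.exp y ≤ 2 * Real.exp ((m * u) ^ 2 / 2 + y) := by
    rw [Real.exp_add ((m * u) ^ 2 / 2) y, ← mul_assoc]
    have hY := Real.exp_pos y
    generalize Real.exp y = Y at hY
    exact mul_le_mul_of_nonneg_right (by linarith) hY.le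
  set z : ℝ := (m * u) ^ 2 / 2 + y with hz
  have hu3 : |u| ^ 3 = |u| * u ^ 2 := by rw [← sq_abs u]; ring
  have hsq : u ^ 2 ≤ t0 ^ 2 := by
    rw [← sq_abs u]
    exact pow_le_pow_left₀ hau hu 2
  have hz1 : z ≤ A * u ^ 2 := by
    rw [hz, hy, hu3, hA]
    nlinarith [mul_nonneg hm.le (sq_nonneg u), mul_nonneg (mul_nonneg hm.le (sq_nonneg u))
      (sub_nonneg.2 hu1)]
  have hz0 : 0 ≤ z := by positivity
  have hz2 : A * u ^ 2 ≤ 1 := by
    have h4 : t0 ^ 2 ≤ (1 / (A + 1)) ^ 2 := pow_le_pow_left₀ h0.le h2 2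
    have h5 : A * (1 / (A + 1)) ^ 2 ≤ 1 := by
      rw [div_pow, one_pow, mul_one_div, div_le_one (by positivity)]
      nlinarith
    nlinarith
  have e6 : Real.exp z ≤ 1 + z + z ^ 2 := by
    have h6 : |z| ≤ 1 := by rw [abs_of_nonneg hz0]; exact hz1.trans hz2
    have h7 := Real.abs_exp_sub_one_sub_id_le h6
    have h8 := (abs_le.1 h7).2
    linarith
  have hz3 : z ^ 2 ≤ A ^ 2 * t0 * u ^ 2 := by
    have h9 : z ^ 2 ≤ (A * u ^ 2) ^ 2 := pow_le_pow_left₀ hz0 hz1 2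
    have h10 : u ^ 2 ≤ t0 := by nlinarith
    have h11 : (A * u ^ 2) ^ 2 = A ^ 2 * u ^ 2 * u ^ 2 := by ring
    rw [h11] at h9
    have h12 := mul_le_mul_of_nonneg_left h10 (show 0 ≤ A ^ 2 * u ^ 2 by positivity)
    linarith
  have h13 : t0 * (2 * A ^ 2 + 4 * m) ≤ m * (m + 1) * κ := by
    rwa [le_div_iff₀ (by positivity)] at h3
  have hz4 : z = m * (m + 1) / 2 * u ^ 2 + 2 * m * (|u| * u ^ 2) := by
    rw [hz, hy, hu3]; ring
  have h14 : 2 * m * (|u| * u ^ 2) ≤ 2 * m * (t0 * u ^ 2) :=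
    mul_le_mul_of_nonneg_left (mul_le_mul_of_nonneg_right hu (sq_nonneg u)) (by positivity)
  have h15 := mul_le_mul_of_nonneg_right h13 (sq_nonneg u)
  nlinarith

end Pool.Agent.KLG
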