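import Pool.Agent.Lib.KLG.Rows

set_option autoImplicit false

namespace Pool.Agent.KLG

open Matrix MeasureTheory Pool.Agent.Lib.MP_ef2672_gt_Tauber Pool.Agent.Lib.MP_ef2672_gt_Eutaxy

lemma Zt_nonneg {n : ℕ} (m : ℝ) (M : Matrix (Fin n) (Fin n) ℝ) : 0 ≤ Zt m M :=
  tsum_nonneg fun w => Real.rpow_nonneg (normSq_nonneg M w.1) _

/-- The near contacts contribute to the zeta function. -/
lemma card_le_Zt {n : ℕ} {m δ : ℝ} (hm : 0 < m) {M : Matrix (Fin n) (Fin n) ℝ} (hM : Adm M)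
    (hs : Summable fun w : {w : Fin n → ℤ // w ≠ 0} => normSq M w.1 ^ (-m))
    (hδ : (1 + δ) ^ m ≤ 2) (hδ0 : 0 < δ) (S : Finset (Fin n → ℤ))
    (hS : ∀ w ∈ S, w ≠ 0 ∧ normSq M w ≤ 1 + δ) : (S.card : ℝ) ≤ 2 * Zt m M := by
  classical
  let T : Finset {w : Fin n → ℤ // w ≠ 0} := S.attach.image fun w => ⟨w.1, (hS w.1 w.2).1⟩
  have hT : T.card = S.card := by
    rw [Finset.card_image_of_injective, Finset.card_attach]
    intro a b h
    exact Subtype.ext (congrArg (fun z : {w : Fin n → ℤ // w ≠ 0} => z.1) h)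
  have h1 : ∑ w ∈ T, normSq M w.1 ^ (-m) ≤ Zt m M :=
    hs.sum_le_tsum T fun w _ => Real.rpow_nonneg (normSq_nonneg M w.1) _
  have h2 : (T.card : ℝ) * (1 / 2) ≤ ∑ w ∈ T, normSq M w.1 ^ (-m) := by
    rw [← nsmul_eq_mul]
    refine Finset.card_nsmul_le_sum _ _ _ fun w hw => ?_
    obtain ⟨v, _, rfl⟩ := Finset.mem_image.1 hw
    have h3 := (hS v.1 v.2).2
    have h4 := hM.2 v.1 (hS v.1 v.2).1
    show 1 / 2 ≤ normSq M v.1 ^ (-m)
    rw [Real.rpow_neg (by linarith), one_div]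
    refine inv_anti₀ (Real.rpow_pos_of_pos (by linarith) _) ?_
    exact (Real.rpow_le_rpow (by linarith) h3 hm.le).trans hδ
  rw [hT] at h2
  linarith

/-- Bound for the sum of the zeta functions of the perturbed lattices. -/
lemma pair_rpow {q t β m κ : ℝ} (hq : 1 ≤ q) (hβ : |β| ≤ q) {t0 : ℝ} (ht0 : t ≤ t0)
    (htp : 0 < t) (hh : t0 ≤ 1 / 2)
    (h : ∀ u : ℝ, |u| ≤ t0 → (1 + u) ^ (-m) + (1 - u) ^ (-m) ≤ 2 + m * (m + 1) * (1 + κ) * u ^ 2) :
    (q + t * β) ^ (-m) + (q - t * β) ^ (-m) ≤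
      q ^ (-m) * (2 + m * (m + 1) * (1 + κ) * t ^ 2 * (β ^ 2 / q ^ 2)) := by
  have hq0 : 0 < q := by linarith
  have hu : |t * β / q| ≤ t := by
    rw [abs_div, abs_mul, abs_of_pos htp, abs_of_pos hq0, div_le_iff₀ hq0]
    exact mul_le_mul_of_nonneg_left hβ htp.le
  have h1 := h (t * β / q) (hu.trans ht0)
  have hu1 := abs_le.1 (hu.trans (ht0.trans hh))
  have h2 : q + t * β = q * (1 + t * β / q) := by field_simp
  have h3 : q - t * β = q * (1 - t * β / q) := by field_simp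
  rw [h2, h3, Real.mul_rpow hq0.le (by linarith [hu1.1]), Real.mul_rpow hq0.le (by linarith [hu1.2]),
    ← mul_add]
  refine mul_le_mul_of_nonneg_left (h1.trans (le_of_eq ?_)) (Real.rpow_nonneg hq0.le _)
  field_simp

theorem rowF (hA : RowA) (hB : RowB) (hC : RowC) (hD : RowD) : RowF := by
  intro n m c κ hn hm hc hκ
  have hn0 : (0 : ℝ) < n := by exact_mod_cast hn
  have hm0 : 0 < m := by linarith [half_pos hn0]
  obtain ⟨t0, ht0, ht0h, hsc⟩ := hC m κ hm0 hκ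
  -- the near contact parameter
  obtain ⟨δ, hδ0, hδ1, hδ⟩ : ∃ δ : ℝ, 0 < δ ∧ δ ≤ 1 ∧ (1 + δ) ^ m ≤ 2 := by
    have h1 : Filter.Tendsto (fun δ : ℝ => (1 + δ) ^ m) (nhds 0) (nhds ((1 + 0) ^ m)) := by
      refine Filter.Tendsto.rpow_const ?_ (Or.inr hm0.le)
      exact (continuous_const.add continuous_id).tendsto 0
    rw [add_zero, Real.one_rpow] at h1
    have h2 := h1.eventually (eventually_lt_nhds (show (1 : ℝ) < 2 by norm_num))
    obtain ⟨ε, hε, hb⟩ := Metric.eventually_nhds_iff.1 h2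
    refine ⟨min 1 (ε / 2), lt_min one_pos (half_pos hε), min_le_left _ _, (hb ?_).le⟩
    rw [Real.dist_eq, sub_zero, abs_of_pos (lt_min one_pos (half_pos hε))]
    exact lt_of_le_of_lt (min_le_right _ _) (half_lt_self hε)
  set t : ℝ := min t0 (δ / 2) with ht
  have htp : 0 < t := lt_min ht0 (half_pos hδ0)
  have htt0 : t ≤ t0 := min_le_left _ _
  have htδ : t ≤ δ / 2 := min_le_right _ _
  have hth : t ≤ 1 / 2 := htt0.trans ht0h
  refine ⟨t ^ 2 * κ / (2 * (1 + κ)), by positivity, fun M hM => ?_⟩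
  classical
  have hsum := hD n M m hM.1 hm
  -- the near contacts
  have hfin : {w : Fin n → ℤ | w ≠ 0 ∧ normSq M w ≤ 1 + δ}.Finite := by
    refine (finite_short M hM.1 (1 + δ + 1)).subset fun w hw => ⟨hw.1, ?_⟩
    have := hw.2
    linarith
  set S : Finset (Fin n → ℤ) := hfin.toFinset with hS
  have hSm : ∀ w, w ∈ S ↔ w ≠ 0 ∧ normSq M w ≤ 1 + δ := fun w => by
    rw [hS, Set.Finite.mem_toFinset]; rfl
  obtain ⟨D, C, hD1, hD2, hD3⟩ := hB n (S.image fun w => Pool.Agent.Lib.MP_ef2672_gt_Eutaxy.vec M w)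
  have hcard : ((S.image fun w => Pool.Agent.Lib.MP_ef2672_gt_Eutaxy.vec M w).card : ℝ) ≤ S.card := by
    exact_mod_cast Finset.card_image_le
  by_cases hcase : (D : ℝ) < c * m * (m + 1) * (1 + κ) ^ 2
  · right
    have := card_le_Zt hm0 hM hsum hδ hδ0 S fun w hw => (hSm w).1 hw
    linarith
  left
  push Not at hcase
  have hDpos : (0 : ℝ) < D := lt_of_lt_of_le (by positivity) hcase
  have hDne : (0 : ℕ) < D := by exact_mod_cast hDpos
  -- the perturbed lattices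
  have hpert : ∀ i : Fin D, ∃ A1 A2 : Matrix (Fin n) (Fin n) ℝ, A1.det ≠ 0 ∧ A2.det ≠ 0 ∧
      Real.log |A1.det| + Real.log |A2.det| ≤ 2 * Real.log |M.det| - t ^ 2 / 2 ∧
      (∀ w : Fin n → ℤ, normSq A1 w = normSq M w + t *
        dotProduct (Pool.Agent.Lib.MP_ef2672_gt_Eutaxy.vec M w)
          ((C i).mulVec (Pool.Agent.Lib.MP_ef2672_gt_Eutaxy.vec M w))) ∧
      (∀ w : Fin n → ℤ, normSq A2 w = normSq M w - t *
        dotProduct (Pool.Agent.Lib.MP_ef2672_gt_Eutaxy.vec M w)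
          ((C i).mulVec (Pool.Agent.Lib.MP_ef2672_gt_Eutaxy.vec M w))) := fun i =>
    hA n M (C i) t hM.1 (hD2 i).1 (hD2 i).2.1 htp hth
  choose A1 A2 h1 h2 h3 h4 h5 using hpert
  set β : Fin D → (Fin n → ℤ) → ℝ := fun i w =>
    dotProduct (Pool.Agent.Lib.MP_ef2672_gt_Eutaxy.vec M w)
      ((C i).mulVec (Pool.Agent.Lib.MP_ef2672_gt_Eutaxy.vec M w)) with hβ
  have hβsum : ∀ w : Fin n → ℤ, ∑ i, β i w ^ 2 ≤ normSq M w ^ 2 := by
    intro w
    have := hD3 (Pool.Agent.Lib.MP_ef2672_gt_Eutaxy.vec M w)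
    rw [← normSq_eq] at this
    exact this
  have hβ1 : ∀ i (w : Fin n → ℤ), |β i w| ≤ normSq M w := by
    intro i w
    refine abs_le_of_sq_le_sq ?_ (normSq_nonneg M w)
    refine le_trans ?_ (hβsum w)
    exact Finset.single_le_sum (f := fun i => β i w ^ 2) (fun _ _ => sq_nonneg _)
      (Finset.mem_univ i)
  have hβ0 : ∀ i, ∀ w ∈ S, β i w = 0 := by
    intro i w hw
    exact (hD2 i).2.2 _ (Finset.mem_image_of_mem _ hw)
  -- admissibility
  have hadm : ∀ i (s : ℝ), |s| ≤ t → ∀ w : Fin n → ℤ, w ≠ 0 → 1 ≤ normSq M w + s * β i w := by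
    intro i s hs w hw
    by_cases hwS : w ∈ S
    · rw [hβ0 i w hwS, mul_zero, add_zero]; exact hM.2 w hw
    · have h6 : 1 + δ < normSq M w := by
        by_contra hcon
        push Not at hcon
        exact hwS ((hSm w).2 ⟨hw, hcon⟩)
      have h7 : |s * β i w| ≤ δ / 2 * normSq M w := by
        rw [abs_mul]
        exact mul_le_mul (hs.trans htδ) (hβ1 i w) (abs_nonneg _) (by positivity)
      have h8 := (abs_le.1 h7).1
      nlinarith
  have hadm1 : ∀ i, Adm (A1 i) := fun i => ⟨h1 i, fun w hw => by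
    rw [h4 i w]; exact hadm i t (by rw [abs_of_pos htp]) w hw⟩
  have hadm2 : ∀ i, Adm (A2 i) := fun i => ⟨h2 i, fun w hw => by
    rw [h5 i w, sub_eq_add_neg, ← neg_mul]
    exact hadm i (-t) (by rw [abs_neg, abs_of_pos htp]) w hw⟩
  -- the sum of the zeta functions
  have hz : ∑ i, (Zt m (A1 i) + Zt m (A2 i)) ≤
      (2 * D + m * (m + 1) * (1 + κ) * t ^ 2) * Zt m M := by
    have hs1 : ∀ i, Summable fun w : {w : Fin n → ℤ // w ≠ 0} => normSq (A1 i) w.1 ^ (-m) :=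
      fun i => hD n (A1 i) m (h1 i) hm
    have hs2 : ∀ i, Summable fun w : {w : Fin n → ℤ // w ≠ 0} => normSq (A2 i) w.1 ^ (-m) :=
      fun i => hD n (A2 i) m (h2 i) hm
    have e1 : ∑ i, (Zt m (A1 i) + Zt m (A2 i)) = ∑' w : {w : Fin n → ℤ // w ≠ 0},
        ∑ i, (normSq (A1 i) w.1 ^ (-m) + normSq (A2 i) w.1 ^ (-m)) := by
      rw [Summable.tsum_finsetSum fun i _ => (hs1 i).add (hs2 i)]
      refine Finset.sum_congr rfl fun i _ => ?_
      rw [(hs1 i).tsum_add (hs2 i)]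
      rfl
    rw [e1]
    unfold Zt
    rw [← tsum_mul_left]
    refine Summable.tsum_le_tsum (fun w => ?_)
      (summable_sum fun i _ => (hs1 i).add (hs2 i)) (hsum.mul_left _)
    have hq := hM.2 w.1 w.2
    have e2 : ∀ i, normSq (A1 i) w.1 ^ (-m) + normSq (A2 i) w.1 ^ (-m) ≤
        normSq M w.1 ^ (-m) * (2 + m * (m + 1) * (1 + κ) * t ^ 2 *
          (β i w.1 ^ 2 / normSq M w.1 ^ 2)) := by
      intro i
      rw [h4 i, h5 i]
      exact pair_rpow hq (hβ1 i w.1) htt0 htp ht0h hsc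
    refine (Finset.sum_le_sum fun i _ => e2 i).trans ?_
    rw [← Finset.mul_sum, mul_comm]
    refine mul_le_mul_of_nonneg_right ?_ (Real.rpow_nonneg (normSq_nonneg M w.1) _)
    rw [Finset.sum_add_distrib, Finset.sum_const, Finset.card_univ, Fintype.card_fin,
      nsmul_eq_mul, ← Finset.mul_sum, ← Finset.sum_div]
    have e3 : (∑ i, β i w.1 ^ 2) / normSq M w.1 ^ 2 ≤ 1 := by
      rw [div_le_one (by positivity)]
      exact hβsum w.1
    have e4 : 0 ≤ m * (m + 1) * (1 + κ) * t ^ 2 := by positivity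
    nlinarith
  -- the sum of the potentials
  have hZ := Zt_nonneg m M
  have hlog : ∀ B : Matrix (Fin n) (Fin n) ℝ, Real.log (1 + Zt m B) ≤
      Real.log (1 + Zt m M) + (Zt m B - Zt m M) / (1 + Zt m M) := by
    intro B
    have hB0 := Zt_nonneg m B
    have e5 : 0 < (1 + Zt m B) / (1 + Zt m M) := by positivity
    have e6 := Real.log_le_sub_one_of_pos e5
    rw [Real.log_div (by positivity) (by positivity)] at e6
    have e7 : (1 + Zt m B) / (1 + Zt m M) - 1 = (Zt m B - Zt m M) / (1 + Zt m M) := by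
      field_simp
      ring
    linarith
  have hpsi : ∑ i, (Psi m c (A1 i) + Psi m c (A2 i)) ≤
      2 * D * Psi m c M - D * (t ^ 2 * κ / (1 + κ)) := by
    have e8 : ∀ i, Psi m c (A1 i) + Psi m c (A2 i) ≤
        2 * (2 * Real.log |M.det| - t ^ 2 / 2) + 2 * (c * Real.log (1 + Zt m M)) +
          c / (1 + Zt m M) * (Zt m (A1 i) + Zt m (A2 i) - 2 * Zt m M) := by
      intro i
      unfold Psi
      have e9 := h3 i
      have e10 := mul_le_mul_of_nonneg_left (hlog (A1 i)) hc.le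
      have e11 := mul_le_mul_of_nonneg_left (hlog (A2 i)) hc.le
      have e12 : c / (1 + Zt m M) * (Zt m (A1 i) + Zt m (A2 i) - 2 * Zt m M) =
          c * ((Zt m (A1 i) - Zt m M) / (1 + Zt m M)) +
            c * ((Zt m (A2 i) - Zt m M) / (1 + Zt m M)) := by
        field_simp
        ring
      rw [e12]
      nlinarith
    refine (Finset.sum_le_sum fun i _ => e8 i).trans ?_
    rw [Finset.sum_add_distrib, Finset.sum_const, Finset.card_univ, Fintype.card_fin,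
      nsmul_eq_mul, ← Finset.mul_sum, Finset.sum_sub_distrib, Finset.sum_const, Finset.card_univ,
      Fintype.card_fin, nsmul_eq_mul]
    have e13 : (∑ i, (Zt m (A1 i) + Zt m (A2 i))) - D * (2 * Zt m M) ≤
        m * (m + 1) * (1 + κ) * t ^ 2 * Zt m M := by nlinarith
    have e14 : c / (1 + Zt m M) * ((∑ i, (Zt m (A1 i) + Zt m (A2 i))) - D * (2 * Zt m M)) ≤
        c * (m * (m + 1) * (1 + κ) * t ^ 2) := by
      have e15 := mul_le_mul_of_nonneg_left e13 (show 0 ≤ c / (1 + Zt m M) by positivity)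
      refine e15.trans ?_
      rw [div_mul_eq_mul_div, div_le_iff₀ (by positivity)]
      have e16 : 0 ≤ m * (m + 1) * (1 + κ) * t ^ 2 := by positivity
      nlinarith [mul_nonneg hc.le e16]
    have e17 : c * (m * (m + 1) * (1 + κ) * t ^ 2) ≤ D * (t ^ 2 / (1 + κ)) := by
      rw [mul_div_assoc', le_div_iff₀ (by positivity)]
      have e18 := mul_le_mul_of_nonneg_right hcase (sq_nonneg t)
      nlinarith
    have e19 : (D : ℝ) * (t ^ 2 * κ / (1 + κ)) = D * t ^ 2 - D * (t ^ 2 / (1 + κ)) := by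
      field_simp
      ring
    unfold Psi
    nlinarith
  by_contra hcon
  push Not at hcon
  have e20 : ∀ i, 2 * (Psi m c M - t ^ 2 * κ / (2 * (1 + κ))) <
      Psi m c (A1 i) + Psi m c (A2 i) := by
    intro i
    have := hcon (A1 i) (hadm1 i)
    have := hcon (A2 i) (hadm2 i)
    linarith
  have e21 : ∑ _i : Fin D, 2 * (Psi m c M - t ^ 2 * κ / (2 * (1 + κ))) <
      ∑ i, (Psi m c (A1 i) + Psi m c (A2 i)) := by
    refine Finset.sum_lt_sum_of_nonempty ?_ fun i _ => e20 i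
    exact Finset.univ_nonempty_iff.2 ⟨⟨0, hDne⟩⟩
  rw [Finset.sum_const, Finset.card_univ, Fintype.card_fin, nsmul_eq_mul] at e21
  have e22 : t ^ 2 * κ / (2 * (1 + κ)) = t ^ 2 * κ / (1 + κ) / 2 := by
    field_simp
  rw [e22] at e21
  nlinarith

theorem rowG (hE : RowE) (hF : RowF) : RowG := by
  intro n m c κ hn hm hc hκ M0 hM0
  obtain ⟨e, he, hstep⟩ := hF n m c κ hn hm hc hκ
  obtain ⟨L, hL, hLb⟩ := hE n hn
  set V : Set ℝ := {x | ∃ M : Matrix (Fin n) (Fin n) ℝ, Adm M ∧ Psi m c M = x} with hV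
  have hbdd : BddBelow V := by
    refine ⟨2 * Real.log L, ?_⟩
    rintro x ⟨M, hM, rfl⟩
    unfold Psi
    have h1 := Real.log_le_log hL (hLb M hM)
    have h2 := Real.log_nonneg (show (1 : ℝ) ≤ 1 + Zt m M by linarith [Zt_nonneg m M])
    have h3 := mul_nonneg hc.le h2
    linarith
  have hne : V.Nonempty := ⟨_, M0, hM0, rfl⟩
  obtain ⟨M, hM, hM1, hM2⟩ : ∃ M : Matrix (Fin n) (Fin n) ℝ, Adm M ∧ Psi m c M < sInf V + e ∧
      Psi m c M ≤ Psi m c M0 := by
    by_cases h : Psi m c M0 < sInf V + e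
    · exact ⟨M0, hM0, h, le_rfl⟩
    · push Not at h
      obtain ⟨x, ⟨M, hM, rfl⟩, hx⟩ := exists_lt_of_csInf_lt hne
        (show sInf V < sInf V + e by linarith)
      exact ⟨M, hM, hx, hx.le.trans h⟩
  refine ⟨M, hM, hM2, ?_⟩
  rcases hstep M hM with ⟨M', hM', h⟩ | h
  · exfalso
    have := csInf_le hbdd (show Psi m c M' ∈ V from ⟨M', hM', rfl⟩)
    linarith
  · exact h

end Pool.Agent.KLG
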