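import Pool.Agent.Lib.KLG.Rows
import Pool.Agent.Lib.EF_h73.Count

/-!
Row H: the first lattice (helper59).
-/

set_option autoImplicit false

namespace Pool.Agent.KLG

namespace RH

open Matrix MeasureTheory Filter Topology Pool.Agent.Lib.MP_ef2672_gt_Tauber
  Pool.Agent.Lib.MP_ef2672_gt_Eutaxy Pool.Agent.Lib.EF_h73

/-- The ball of squared radius `r`. -/
def bl (n : ℕ) (r : ℝ) : Set (Fin n → ℝ) := {x | ∑ i, x i ^ 2 < r}

lemma isOpen_bl (n : ℕ) (r : ℝ) : IsOpen (bl n r) :=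
  isOpen_lt (by fun_prop) continuous_const

lemma vol_bl {n : ℕ} {r : ℝ} (hr : 0 < r) :
    volume (bl n r) = ENNReal.ofReal (r ^ ((n : ℝ) / 2)) * volume (bl n 1) := by
  have hq : 0 < Real.sqrt r := Real.sqrt_pos.2 hr
  have h := Measure.addHaar_preimage_smul (volume : Measure (Fin n → ℝ))
    (r := (Real.sqrt r)⁻¹) (by positivity) (bl n 1)
  have hset : (fun x : Fin n → ℝ => (Real.sqrt r)⁻¹ • x) ⁻¹' bl n 1 = bl n r := by
    ext x
    show ∑ i, ((Real.sqrt r)⁻¹ • x) i ^ 2 < 1 ↔ ∑ i, x i ^ 2 < r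
    simp only [Pi.smul_apply, smul_eq_mul, mul_pow]
    rw [← Finset.mul_sum, inv_pow, Real.sq_sqrt hr.le, inv_mul_lt_iff₀ hr, mul_one]
  rw [hset] at h
  rw [h]
  congr 2
  rw [Module.finrank_fin_fun, ← inv_pow, inv_inv, abs_of_nonneg (by positivity),
    Real.sqrt_eq_rpow, ← Real.rpow_natCast, ← Real.rpow_mul hr.le]
  congr 1
  ring

lemma vol_one_lt (n : ℕ) : volume (bl n 1) < ⊤ :=
  lt_of_le_of_lt (vol_ball_le 1 1 one_pos) ENNReal.ofReal_lt_top

lemma kap_eq (n : ℕ) : kap n = (volume (bl n 1)).toReal := rfl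

lemma kap_pos (n : ℕ) : 0 < kap n := by
  rw [kap_eq, ENNReal.toReal_pos_iff]
  refine ⟨(isOpen_bl n 1).measure_pos volume ⟨0, ?_⟩, vol_one_lt n⟩
  show ∑ i, (0 : Fin n → ℝ) i ^ 2 < 1
  simp

lemma volr_bl {n : ℕ} {r : ℝ} (hr : 0 < r) :
    (volume (bl n r)).toReal = r ^ ((n : ℝ) / 2) * kap n := by
  rw [vol_bl hr, ENNReal.toReal_mul, ENNReal.toReal_ofReal (by positivity), kap_eq]

lemma vol_shift {n : ℕ} (r : ℝ) (v : Fin n → ℝ) :
    volume {x : Fin n → ℝ | x - v ∈ bl n r} = volume (bl n r) := by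
  have h := measure_preimage_add_right (volume : Measure (Fin n → ℝ)) (-v) (bl n r)
  have hset : {x : Fin n → ℝ | x - v ∈ bl n r} = (fun x => x + -v) ⁻¹' bl n r := by
    ext x
    simp only [Set.mem_preimage, Set.mem_ofPred_eq, sub_eq_add_neg]
  rw [hset, h]

lemma vec_sub {n : ℕ} (M : Matrix (Fin n) (Fin n) ℝ) (w w' : Fin n → ℤ) :
    vec M (w - w') = vec M w - vec M w' := by
  unfold Lib.MP_ef2672_gt_Eutaxy.vec
  rw [← Matrix.mulVec_sub]
  congr 1
  ext j
  simp

lemma normSq_vec {n : ℕ} (M : Matrix (Fin n) (Fin n) ℝ) (w : Fin n → ℤ) :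
    normSq M w = ∑ i, vec M w i ^ 2 := rfl

/-- The packing bound. -/
lemma packing {n : ℕ} {M : Matrix (Fin n) (Fin n) ℝ} (hM : Adm M) {r : ℝ} (hr : 1 ≤ r)
    (S : Finset (Fin n → ℤ)) (hS : ∀ w ∈ S, normSq M w < r) :
    (S.card : ℝ) ≤ (10 * r) ^ ((n : ℝ) / 2) := by
  classical
  have hdisj : (S : Set (Fin n → ℤ)).PairwiseDisjoint
      (fun w => {x : Fin n → ℝ | x - vec M w ∈ bl n (1 / 4)}) := by
    intro w _ w' _ hww
    rw [Function.onFun, Set.disjoint_left]
    intro x hx hx'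
    have h1 : ∑ i, (x i - vec M w i) ^ 2 < 1 / 4 := hx
    have h2 : ∑ i, (x i - vec M w' i) ^ 2 < 1 / 4 := hx'
    have h3 := hM.2 (w - w') (sub_ne_zero.2 hww)
    rw [normSq_vec, vec_sub] at h3
    have h4 : ∑ i, (vec M w - vec M w') i ^ 2 ≤
        ∑ i, (2 * (x i - vec M w i) ^ 2 + 2 * (x i - vec M w' i) ^ 2) := by
      refine Finset.sum_le_sum fun i _ => ?_
      rw [Pi.sub_apply]
      nlinarith [sq_nonneg ((x i - vec M w i) + (x i - vec M w' i))]
    rw [Finset.sum_add_distrib, ← Finset.mul_sum, ← Finset.mul_sum] at h4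
    linarith
  have hsub : (⋃ w ∈ S, {x : Fin n → ℝ | x - vec M w ∈ bl n (1 / 4)}) ⊆ bl n (5 / 2 * r) := by
    intro x hx
    rw [Set.mem_iUnion₂] at hx
    obtain ⟨w, hw, hx⟩ := hx
    have h1 : ∑ i, (x i - vec M w i) ^ 2 < 1 / 4 := hx
    have h2 := hS w hw
    rw [normSq_vec] at h2
    show ∑ i, x i ^ 2 < 5 / 2 * r
    have h4 : ∑ i, x i ^ 2 ≤ ∑ i, (2 * (x i - vec M w i) ^ 2 + 2 * vec M w i ^ 2) := by
      refine Finset.sum_le_sum fun i _ => ?_
      nlinarith [sq_nonneg (x i - 2 * vec M w i)]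
    rw [Finset.sum_add_distrib, ← Finset.mul_sum, ← Finset.mul_sum] at h4
    linarith
  have hmeas : ∀ w ∈ S, MeasurableSet {x : Fin n → ℝ | x - vec M w ∈ bl n (1 / 4)} := by
    intro w _
    exact ((isOpen_bl n (1 / 4)).preimage (by fun_prop)).measurableSet
  have h1 := measure_biUnion_finset (μ := volume) hdisj hmeas
  have h2 := measure_mono (μ := volume) hsub
  rw [h1, Finset.sum_congr rfl fun w _ => vol_shift (1 / 4) (vec M w), Finset.sum_const,
    nsmul_eq_mul] at h2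
  have h3 : volume (bl n (5 / 2 * r)) ≠ ⊤ := by
    rw [vol_bl (by positivity)]
    exact ENNReal.mul_ne_top ENNReal.ofReal_ne_top (vol_one_lt n).ne
  have h4 := ENNReal.toReal_mono h3 h2
  rw [ENNReal.toReal_mul, ENNReal.toReal_natCast, volr_bl (by norm_num), volr_bl (by positivity),
    ← mul_assoc] at h4
  have h5 := le_of_mul_le_mul_right h4 (kap_pos n)
  have h6 : (0 : ℝ) < (1 / 4 : ℝ) ^ ((n : ℝ) / 2) := by positivity
  rw [← le_div_iff₀ h6, ← Real.div_rpow (by positivity) (by norm_num)] at h5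
  refine h5.trans (le_of_eq ?_)
  congr 1
  ring

/-- Sublattices of prime index. -/
lemma lat {n p : ℕ} [hp : Fact p.Prime] (a : Fin n → ZMod p) (ha : a ≠ 0) :
    ∃ (A : Matrix (Fin n) (Fin n) ℝ) (f : (Fin n → ℤ) → (Fin n → ℤ)), A.det = p ∧
      Function.Injective f ∧ (∀ w, w ≠ 0 → f w ≠ 0) ∧
      (∀ w, ∑ j, a j * ((f w j : ℤ) : ZMod p) = 0) ∧
      ∀ w, normSq A w = ∑ i, (f w i : ℝ) ^ 2 := by
  have hp0 : (0 : ℤ) < p := by exact_mod_cast hp.1.pos
  obtain ⟨k, hk⟩ : ∃ k, a k ≠ 0 := by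
    by_contra hcon
    push Not at hcon
    exact ha (funext hcon)
  let b : Fin n → ℤ := fun j => ((a k)⁻¹ * a j).val
  have hbk : b k = 1 := by
    simp only [b]
    rw [inv_mul_cancel₀ hk]
    have : Fact (1 < p) := ⟨hp.1.one_lt⟩
    rw [ZMod.val_one]
    rfl
  have hb : ∀ j, ((b j : ℤ) : ZMod p) = (a k)⁻¹ * a j := by
    intro j
    simp only [b]
    push_cast
    rw [ZMod.natCast_val, ZMod.cast_id', id]
  choose f hf1 hf2 hf3 using subMat_mulVec p k b hbk
  refine ⟨subMat p k b, f, subMat_det p k b, ?_, ?_, ?_, ?_⟩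
  · intro w w' h
    have h1 : ∀ i, w i = w' i := by
      intro i
      by_cases hi : i = k
      · rw [hi]
        have h2 := hf2 w
        have h3 := hf2 w'
        rw [h] at h2
        rw [h2] at h3
        exact mul_left_cancel₀ hp0.ne' h3
      · rw [← hf3 w i hi, ← hf3 w' i hi, h]
    exact funext h1
  · intro w hw h0
    apply hw
    ext i
    by_cases hi : i = k
    · have h2 := hf2 w
      rw [h0] at h2
      simp only [Pi.zero_apply, mul_zero, Finset.sum_const_zero] at h2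
      rw [hi]
      exact (mul_eq_zero.1 h2.symm).resolve_left hp0.ne'
    · rw [← hf3 w i hi, h0]
  · intro w
    have h5 := congrArg (fun z : ℤ => (z : ZMod p)) (hf2 w)
    push_cast at h5
    rw [ZMod.natCast_self, zero_mul] at h5
    have h6 : ∑ j, ((b j : ℤ) : ZMod p) * ((f w j : ℤ) : ZMod p) =
        (a k)⁻¹ * ∑ j, a j * ((f w j : ℤ) : ZMod p) := by
      rw [Finset.mul_sum]
      refine Finset.sum_congr rfl fun j _ => ?_
      rw [hb, mul_assoc]
    rw [h5] at h6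
    exact (mul_eq_zero.1 h6.symm).resolve_left (inv_ne_zero hk)
  · intro w
    unfold normSq
    rw [hf1 w]

/-- Averaging over the hyperplanes. -/
lemma avg {n p : ℕ} (hn : 0 < n) [hp : Fact p.Prime] {ι : Type*} (s : Finset ι)
    (F : ι → Finset (Fin n → ℤ)) (c : ι → ℝ)
    (hmod : ∀ i ∈ s, ∀ w ∈ F i, (fun j => ((w j : ℤ) : ZMod p)) ≠ 0)
    (hlt : ∑ i ∈ s, c i * (F i).card < p) :
    ∃ a : Fin n → ZMod p, a ≠ 0 ∧
      ∑ i ∈ s, c i * ((F i).filter fun w => ∑ j, a j * ((w j : ℤ) : ZMod p) = 0).card < 1 := by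
  classical
  by_contra hcon
  push Not at hcon
  have hp1 : 2 ≤ p := hp.1.two_le
  have hp0 : (0 : ℝ) < p := by exact_mod_cast hp.1.pos
  set U : Finset (Fin n → ZMod p) := Finset.univ.erase 0 with hUdef
  have hpn : 1 < p ^ n := Nat.one_lt_pow hn.ne' (by omega)
  have hU : (U.card : ℝ) = (p : ℝ) ^ n - 1 := by
    rw [hUdef, Finset.card_erase_of_mem (Finset.mem_univ _), Finset.card_univ, Fintype.card_fun,
      ZMod.card, Fintype.card_fin, Nat.cast_sub (by omega)]
    push_cast; ring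
  have h1 : (U.card : ℝ) ≤ ∑ a ∈ U, ∑ i ∈ s,
      c i * ((F i).filter fun w => ∑ j, a j * ((w j : ℤ) : ZMod p) = 0).card := by
    have : (U.card : ℝ) = ∑ a ∈ U, (1 : ℝ) := by simp
    rw [this]
    exact Finset.sum_le_sum fun a ha => hcon a (Finset.ne_of_mem_erase ha)
  have hpp : 0 ≤ (p : ℝ) ^ n / p - 1 := by
    rw [sub_nonneg, one_le_div hp0]
    exact_mod_cast Nat.le_self_pow hn.ne' p
  have h3 : ∀ i ∈ s, ∑ a ∈ U,
      (((F i).filter fun w => ∑ j, a j * ((w j : ℤ) : ZMod p) = 0).card : ℝ) =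
      (F i).card * ((p : ℝ) ^ n / p - 1) := by
    intro i hi
    have h4 : ∑ a ∈ U, ((F i).filter fun w => ∑ j, a j * ((w j : ℤ) : ZMod p) = 0).card
        = ∑ w ∈ F i, (U.filter fun a => ∑ j, a j * ((w j : ℤ) : ZMod p) = 0).card := by
      simp only [Finset.card_filter]
      exact Finset.sum_comm
    have h5 : ∀ w ∈ F i, ((U.filter fun a => ∑ j, a j * ((w j : ℤ) : ZMod p) = 0).card : ℝ) =
        (p : ℝ) ^ n / p - 1 := by
      intro w hw
      have h6 := card_ker (p := p) (fun j => ((w j : ℤ) : ZMod p)) (hmod i hi w hw)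
      have h7 : (U.filter fun a => ∑ j, a j * ((w j : ℤ) : ZMod p) = 0) =
          (Finset.univ.filter fun a : Fin n → ZMod p =>
            ∑ j, a j * ((w j : ℤ) : ZMod p) = 0).erase 0 := by
        ext a
        simp only [U, Finset.mem_filter, Finset.mem_erase, Finset.mem_univ, and_true, true_and]
      have h8 : (0 : Fin n → ZMod p) ∈ (Finset.univ.filter fun a : Fin n → ZMod p =>
            ∑ j, a j * ((w j : ℤ) : ZMod p) = 0) := by
        rw [Finset.mem_filter]; simp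
      have h9 := Finset.card_erase_add_one h8
      rw [← h7] at h9
      rw [← h9] at h6
      have h10 : (p : ℝ) * (((U.filter fun a => ∑ j, a j * ((w j : ℤ) : ZMod p) = 0).card : ℝ) + 1)
          = (p : ℝ) ^ n := by exact_mod_cast h6
      rw [← h10]
      field_simp
      ring
    have h6 : (∑ a ∈ U, (((F i).filter fun w => ∑ j, a j * ((w j : ℤ) : ZMod p) = 0).card : ℝ)) =
        ∑ w ∈ F i, ((U.filter fun a => ∑ j, a j * ((w j : ℤ) : ZMod p) = 0).card : ℝ) := by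
      exact_mod_cast congrArg (fun z : ℕ => (z : ℝ)) h4
    rw [h6, Finset.sum_congr rfl h5, Finset.sum_const, nsmul_eq_mul]
  rw [Finset.sum_comm] at h1
  have h4 : ∑ i ∈ s, ∑ a ∈ U,
      c i * (((F i).filter fun w => ∑ j, a j * ((w j : ℤ) : ZMod p) = 0).card : ℝ) =
      (∑ i ∈ s, c i * (F i).card) * ((p : ℝ) ^ n / p - 1) := by
    rw [Finset.sum_mul]
    refine Finset.sum_congr rfl fun i hi => ?_
    rw [← Finset.mul_sum, h3 i hi]
    ring
  rw [h4, hU] at h1
  have h5 : (∑ i ∈ s, c i * (F i).card) * ((p : ℝ) ^ n / p - 1) ≤ p * ((p : ℝ) ^ n / p - 1) :=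
    mul_le_mul_of_nonneg_right hlt.le hpp
  have h6 : (p : ℝ) * ((p : ℝ) ^ n / p - 1) = (p : ℝ) ^ n - p := by
    field_simp
  have h7 : (2 : ℝ) ≤ p := by exact_mod_cast hp1
  linarith

/-- The zeta function from the counts. -/
lemma zt_le {n : ℕ} (hn : 0 < n) {M : Matrix (Fin n) (Fin n) ℝ} (hM : Adm M) {η : ℝ} (hη : 0 < η)
    (N : ℕ → ℝ) (B : ℝ)
    (hN : ∀ (j : ℕ) (S : Finset (Fin n → ℤ)),
      (∀ w ∈ S, w ≠ 0 ∧ normSq M w < Real.exp (2 * (j + 1) / n)) → (S.card : ℝ) ≤ N j)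
    (hB : ∀ J : ℕ, ∑ j ∈ Finset.range J, Real.exp (-(1 + η) * j) * N j ≤ B) :
    Zt ((1 + η) * n / 2) M ≤ B := by
  classical
  have hB0 : 0 ≤ B := by simpa using hB 0
  have hn0 : (0 : ℝ) < n := by exact_mod_cast hn
  unfold Zt
  refine tsum_le_of_sum_le' hB0 fun S => ?_
  set jj : {w : Fin n → ℤ // w ≠ 0} → ℕ := fun w => ⌊(n : ℝ) / 2 * Real.log (normSq M w.1)⌋₊
    with hjj
  have hq : ∀ w : {w : Fin n → ℤ // w ≠ 0}, 1 ≤ normSq M w.1 := fun w => hM.2 w.1 w.2
  have h1 : ∀ w : {w : Fin n → ℤ // w ≠ 0}, (jj w : ℝ) ≤ (n : ℝ) / 2 * Real.log (normSq M w.1) :=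
    fun w => Nat.floor_le (mul_nonneg (by positivity) (Real.log_nonneg (hq w)))
  have h2 : ∀ w : {w : Fin n → ℤ // w ≠ 0}, (n : ℝ) / 2 * Real.log (normSq M w.1) < jj w + 1 :=
    fun w => Nat.lt_floor_add_one _
  have h3 : ∀ w : {w : Fin n → ℤ // w ≠ 0}, normSq M w.1 ^ (-((1 + η) * n / 2)) ≤
      Real.exp (-(1 + η) * jj w) := by
    intro w
    rw [Real.rpow_def_of_pos (by linarith [hq w])]
    refine Real.exp_le_exp.2 ?_
    have := h1 w
    have h4 : (1 + η) * (jj w : ℝ) ≤ (1 + η) * ((n : ℝ) / 2 * Real.log (normSq M w.1)) :=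
      mul_le_mul_of_nonneg_left this (by linarith)
    nlinarith
  have h4 : ∀ w : {w : Fin n → ℤ // w ≠ 0}, normSq M w.1 < Real.exp (2 * (jj w + 1) / n) := by
    intro w
    rw [← Real.log_lt_iff_lt_exp (by linarith [hq w]), lt_div_iff₀ hn0]
    have := h2 w
    linarith
  set J : ℕ := S.sup jj + 1 with hJ
  have hmaps : ∀ w ∈ S, jj w ∈ Finset.range J := by
    intro w hw
    rw [Finset.mem_range, hJ]
    have : jj w ≤ S.sup jj := Finset.le_sup hw
    omega
  calc ∑ w ∈ S, normSq M w.1 ^ (-((1 + η) * n / 2))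
      ≤ ∑ w ∈ S, Real.exp (-(1 + η) * jj w) := Finset.sum_le_sum fun w _ => h3 w
    _ = ∑ j ∈ Finset.range J, ∑ w ∈ S.filter (fun w => jj w = j), Real.exp (-(1 + η) * jj w) :=
        (Finset.sum_fiberwise_of_maps_to hmaps _).symm
    _ ≤ ∑ j ∈ Finset.range J, Real.exp (-(1 + η) * j) * N j := by
        refine Finset.sum_le_sum fun j _ => ?_
        have h5 : ∑ w ∈ S.filter (fun w => jj w = j), Real.exp (-(1 + η) * jj w) =
            Real.exp (-(1 + η) * j) * (S.filter (fun w => jj w = j)).card := by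
          rw [Finset.sum_congr rfl fun w hw => by rw [(Finset.mem_filter.1 hw).2],
            Finset.sum_const, nsmul_eq_mul, mul_comm]
        rw [h5]
        refine mul_le_mul_of_nonneg_left ?_ (Real.exp_pos _).le
        have h6 := hN j ((S.filter (fun w => jj w = j)).map (Function.Embedding.subtype _)) (by
          intro w hw
          rw [Finset.mem_map] at hw
          obtain ⟨v, hv, rfl⟩ := hw
          refine ⟨v.2, ?_⟩
          have h7 := h4 v
          rw [(Finset.mem_filter.1 hv).2] at h7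
          exact h7)
        rwa [Finset.card_map] at h6
    _ ≤ B := hB J

lemma geom_le {x : ℝ} (h0 : 0 ≤ x) (h1 : x < 1) (m : ℕ) :
    ∑ i ∈ Finset.range m, x ^ i ≤ 1 / (1 - x) := by
  rw [one_div, ← tsum_geometric_of_lt_one h0 h1]
  exact (summable_geometric_of_lt_one h0 h1).sum_le_tsum _ (fun i _ => pow_nonneg h0 i)

lemma exp_eq (η : ℝ) (j : ℕ) : Real.exp (-(1 + η) * j) * Real.exp (j + 1) =
    Real.exp 1 * Real.exp (-η) ^ j := by
  rw [← Real.exp_nat_mul, ← Real.exp_add, ← Real.exp_add]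
  congr 1
  ring

lemma qf_one {n : ℕ} (x : Fin n → ℝ) : qf (1 : Matrix (Fin n) (Fin n) ℝ) x = ∑ i, x i ^ 2 := by
  unfold qf
  rw [Matrix.one_mulVec]

lemma normSq_scale {n : ℕ} (A : Matrix (Fin n) (Fin n) ℝ) (c : ℝ) (w : Fin n → ℤ) :
    normSq (c • A) w = c ^ 2 * normSq A w := by
  unfold normSq
  rw [Matrix.smul_mulVec, Finset.mul_sum]
  refine Finset.sum_congr rfl fun i _ => ?_
  rw [Pi.smul_apply, smul_eq_mul, mul_pow]

/-- Choice of the scale. -/
lemma scale {n : ℕ} (hn : 2 ≤ n) (J : ℕ) : ∃ q : ℕ, 1 ≤ q ∧ 1 ≤ 2 * kap n * (q : ℝ) ^ n ∧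
    Real.exp (2 * J / n) ≤ 4 * kap n ^ 2 * (q : ℝ) ^ 2 ∧
    ∀ i ∈ Finset.range (J + 1), (cnt (1 : Matrix (Fin n) (Fin n) ℝ) (Real.exp (2 * i / n)) q : ℝ) ≤
      11 / 10 * Real.exp i * kap n * (q : ℝ) ^ n := by
  have hk := kap_pos n
  have hn0 : (0 : ℝ) < n := by exact_mod_cast (by omega : 0 < n)
  have h1 : ∀ i ∈ Finset.range (J + 1), ∀ᶠ q : ℕ in atTop,
      (cnt (1 : Matrix (Fin n) (Fin n) ℝ) (Real.exp (2 * i / n)) q : ℝ) / (q : ℝ) ^ n ≤
        11 / 10 * Real.exp i * kap n := by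
    intro i _
    have h2 := cnt_tendsto (1 : Matrix (Fin n) (Fin n) ℝ) (by simp) (Real.exp (2 * i / n))
    have h3 : volume.real {x : Fin n → ℝ | qf (1 : Matrix (Fin n) (Fin n) ℝ) x <
        Real.exp (2 * i / n)} = Real.exp i * kap n := by
      have h4 : {x : Fin n → ℝ | qf (1 : Matrix (Fin n) (Fin n) ℝ) x < Real.exp (2 * i / n)} =
          bl n (Real.exp (2 * i / n)) := by
        ext x
        show qf 1 x < _ ↔ ∑ i, x i ^ 2 < _
        rw [qf_one]
      rw [h4, Measure.real, volr_bl (Real.exp_pos _), ← Real.exp_mul]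
      congr 2
      field_simp
    rw [h3] at h2
    refine h2.eventually_le_const ?_
    have : 0 < Real.exp i * kap n := by positivity
    linarith
  have h2 : ∀ᶠ q : ℕ in atTop, ∀ i ∈ Finset.range (J + 1),
      (cnt (1 : Matrix (Fin n) (Fin n) ℝ) (Real.exp (2 * i / n)) q : ℝ) / (q : ℝ) ^ n ≤
        11 / 10 * Real.exp i * kap n := by
    rw [Filter.eventually_all_finset]
    exact h1
  have h3 : Tendsto (fun q : ℕ => 2 * kap n * (q : ℝ) ^ n) atTop atTop :=
    ((tendsto_pow_atTop (by omega)).comp tendsto_natCast_atTop_atTop).const_mul_atTop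
      (by positivity)
  have h4 : Tendsto (fun q : ℕ => 4 * kap n ^ 2 * (q : ℝ) ^ 2) atTop atTop :=
    ((tendsto_pow_atTop (by norm_num)).comp tendsto_natCast_atTop_atTop).const_mul_atTop
      (by positivity)
  obtain ⟨q, ⟨⟨hq1, hq2⟩, hq3⟩, hq4⟩ := (((eventually_ge_atTop 1).and
    (h3.eventually_ge_atTop 1)).and (h4.eventually_ge_atTop (Real.exp (2 * J / n)))).and h2
    |>.exists
  refine ⟨q, hq1, hq2, hq3, fun i hi => ?_⟩
  have hq0 : (0 : ℝ) < (q : ℝ) ^ n := by positivity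
  have := hq4 i hi
  rwa [div_le_iff₀ hq0] at this

end RH

open Matrix MeasureTheory Filter Topology Pool.Agent.Lib.MP_ef2672_gt_Tauber
  Pool.Agent.Lib.MP_ef2672_gt_Eutaxy Pool.Agent.Lib.EF_h73 RH

/-- Row H. -/
theorem rowH : RowH := by
  classical
  intro η hη
  set x : ℝ := Real.exp (-η) with hx
  have hx0 : 0 < x := Real.exp_pos _
  have hx1 : x < 1 := by rw [hx, Real.exp_lt_one_iff]; linarith
  set K' : ℝ := 4 * Real.exp 1 / (1 - x) with hK'
  have hg : 0 < 1 - x := by linarith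
  have hK'0 : 0 < K' := by positivity
  refine ⟨K' + 1, by positivity, fun n hn => ?_⟩
  have hn0 : 0 < n := by omega
  have hnr : (0 : ℝ) < n := by exact_mod_cast hn0
  have hk := kap_pos n
  -- the tail
  obtain ⟨J, hJ⟩ : ∃ J : ℕ, (10 : ℝ) ^ ((n : ℝ) / 2) * Real.exp 1 * (x ^ J / (1 - x)) ≤ 1 := by
    have h1 : Tendsto (fun J : ℕ => (10 : ℝ) ^ ((n : ℝ) / 2) * Real.exp 1 * (x ^ J / (1 - x)))
        atTop (𝓝 ((10 : ℝ) ^ ((n : ℝ) / 2) * Real.exp 1 * (0 / (1 - x)))) :=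
      ((tendsto_pow_atTop_nhds_zero_of_lt_one hx0.le hx1).div_const _).const_mul _
    rw [zero_div, mul_zero] at h1
    exact (h1.eventually_le_const one_pos).exists
  obtain ⟨q, hq1, hq2, hq3, hq4⟩ := scale hn J
  have hqr : (0 : ℝ) < q := by exact_mod_cast hq1
  have hqn : (0 : ℝ) < (q : ℝ) ^ n := by positivity
  -- the prime
  set X : ℕ := ⌊2 * kap n * (q : ℝ) ^ n⌋₊ with hX
  have hX1 : 1 ≤ X := Nat.le_floor (by exact_mod_cast hq2)
  obtain ⟨p, hp, hpX, hp2⟩ := Nat.exists_prime_lt_and_le_two_mul X (by omega)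
  have hfact : Fact p.Prime := ⟨hp⟩
  have hpl : 2 * kap n * (q : ℝ) ^ n < p := by
    have h1 : 2 * kap n * (q : ℝ) ^ n < X + 1 := Nat.lt_floor_add_one _
    have h2 : (X : ℝ) + 1 ≤ p := by exact_mod_cast hpX
    linarith
  have hpu : (p : ℝ) ≤ 4 * kap n * (q : ℝ) ^ n := by
    have h1 : (X : ℝ) ≤ 2 * kap n * (q : ℝ) ^ n := Nat.floor_le (by positivity)
    have h2 : (p : ℝ) ≤ 2 * X := by exact_mod_cast hp2
    linarith
  have hp0 : (0 : ℝ) < p := by exact_mod_cast hp.pos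
  -- the sets
  set F : ℕ → Finset (Fin n → ℤ) := fun i =>
    (finite_cnt (1 : Matrix (Fin n) (Fin n) ℝ) (by simp)
      ((q : ℝ) ^ 2 * Real.exp (2 * i / n))).toFinset.erase 0 with hF
  have hFm : ∀ i w, w ∈ F i ↔ w ≠ 0 ∧ ∑ j, (w j : ℝ) ^ 2 < (q : ℝ) ^ 2 * Real.exp (2 * i / n) := by
    intro i w
    simp only [hF, Finset.mem_erase, Set.Finite.mem_toFinset]
    refine and_congr Iff.rfl ?_
    show qf 1 (fun i => (w i : ℝ)) < _ ↔ _
    rw [qf_one]
  have hFc : ∀ i ∈ Finset.range (J + 1), ((F i).card : ℝ) ≤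
      11 / 10 * Real.exp i * kap n * (q : ℝ) ^ n := by
    intro i hi
    refine le_trans ?_ (hq4 i hi)
    have h1 : (F i).card ≤ cnt (1 : Matrix (Fin n) (Fin n) ℝ) (Real.exp (2 * i / n)) q := by
      unfold cnt
      rw [Set.ncard_eq_toFinset_card _ (finite_cnt (1 : Matrix (Fin n) (Fin n) ℝ) (by simp)
        ((q : ℝ) ^ 2 * Real.exp (2 * i / n)))]
      exact Finset.card_le_card (Finset.erase_subset _ _)
    exact_mod_cast h1
  set c : ℕ → ℝ := fun i => if i = 0 then 1 else 1 / K' * Real.exp (-(1 + η) * ((i : ℝ) - 1))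
    with hc
  have hc0 : c 0 = 1 := by simp [hc]
  have hcs : ∀ j : ℕ, c (j + 1) = 1 / K' * Real.exp (-(1 + η) * j) := by
    intro j
    simp [hc]
  have hcn : ∀ i, 0 ≤ c i := by
    intro i
    simp only [hc]
    split_ifs
    · exact zero_le_one
    · positivity
  have hsum : ∑ i ∈ Finset.range (J + 1), c i * (F i).card < p := by
    refine lt_of_le_of_lt ?_ hpl
    have h1 : ∑ i ∈ Finset.range (J + 1), c i * ((F i).card : ℝ) ≤
        ∑ i ∈ Finset.range (J + 1), c i * (11 / 10 * Real.exp i * kap n * (q : ℝ) ^ n) :=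
      Finset.sum_le_sum fun i hi => mul_le_mul_of_nonneg_left (hFc i hi) (hcn i)
    refine h1.trans ?_
    rw [Finset.sum_range_succ', hc0]
    have h2 : ∀ j ∈ Finset.range J, c (j + 1) *
        (11 / 10 * Real.exp ((j + 1 : ℕ) : ℝ) * kap n * (q : ℝ) ^ n) =
        (11 / 10 * kap n * (q : ℝ) ^ n * (Real.exp 1 / K')) * x ^ j := by
      intro j _
      rw [hcs]
      have h3 := exp_eq η j
      push_cast
      calc _ = 1 / K' * (11 / 10) * kap n * (q : ℝ) ^ n *
            (Real.exp (-(1 + η) * j) * Real.exp (j + 1)) := by ring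
        _ = _ := by rw [h3]; ring
    rw [Finset.sum_congr rfl h2, ← Finset.mul_sum]
    have h4 := geom_le hx0.le hx1 J
    have h5 : Real.exp 1 / K' * (1 / (1 - x)) = 1 / 4 := by
      rw [hK']
      field_simp
    have h6 : (11 / 10 * kap n * (q : ℝ) ^ n * (Real.exp 1 / K')) *
        ∑ i ∈ Finset.range J, x ^ i ≤ 11 / 10 * kap n * (q : ℝ) ^ n * (1 / 4) := by
      rw [← h5]
      calc _ ≤ (11 / 10 * kap n * (q : ℝ) ^ n * (Real.exp 1 / K')) * (1 / (1 - x)) := by gcongr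
        _ = _ := by ring
    have h7 : (1 : ℝ) * (11 / 10 * Real.exp ((0 : ℕ) : ℝ) * kap n * (q : ℝ) ^ n) =
        11 / 10 * kap n * (q : ℝ) ^ n := by simp
    rw [h7]
    have h8 : 0 < kap n * (q : ℝ) ^ n := by positivity
    linarith
  have hmod : ∀ i ∈ Finset.range (J + 1), ∀ w ∈ F i, (fun j => ((w j : ℤ) : ZMod p)) ≠ 0 := by
    intro i hi w hw hzero
    have hdvd : ∀ j, (p : ℤ) ∣ w j := fun j =>
      (ZMod.intCast_zmod_eq_zero_iff_dvd _ _).1 (congrFun hzero j)
    obtain ⟨hw0, hw1⟩ := (hFm i w).1 hw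
    obtain ⟨l, hl⟩ : ∃ l, w l ≠ 0 := by
      by_contra hcon
      push Not at hcon
      exact hw0 (funext hcon)
    have h1 : (w l : ℝ) ^ 2 ≤ ∑ i, (w i : ℝ) ^ 2 :=
      Finset.single_le_sum (f := fun i => (w i : ℝ) ^ 2) (fun j _ => sq_nonneg _)
        (Finset.mem_univ l)
    have h2 : (p : ℝ) ^ 2 ≤ (w l : ℝ) ^ 2 := by
      have h3 : (p : ℤ) ≤ |w l| := by
        have := Int.le_of_dvd (abs_pos.2 hl) ((dvd_abs _ _).2 (hdvd l))
        exact this
      have h4 : (p : ℝ) ≤ |(w l : ℝ)| := by exact_mod_cast h3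
      calc (p : ℝ) ^ 2 ≤ |(w l : ℝ)| ^ 2 := by gcongr
        _ = _ := sq_abs _
    have h3 : Real.exp (2 * i / n) ≤ Real.exp (2 * J / n) := by
      refine Real.exp_le_exp.2 ?_
      have : (i : ℝ) ≤ J := by exact_mod_cast (by have := Finset.mem_range.1 hi; omega : i ≤ J)
      gcongr
    have h4 : (2 * kap n * (q : ℝ) ^ 2) ^ 2 ≤ (p : ℝ) ^ 2 := by
      have h5 : (q : ℝ) ^ 2 ≤ (q : ℝ) ^ n :=
        pow_le_pow_right₀ (by exact_mod_cast hq1) hn
      have h6 : 2 * kap n * (q : ℝ) ^ 2 ≤ p := by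
        calc 2 * kap n * (q : ℝ) ^ 2 ≤ 2 * kap n * (q : ℝ) ^ n := by gcongr
          _ ≤ p := hpl.le
      gcongr
    have h5 : (q : ℝ) ^ 2 * Real.exp (2 * i / n) ≤ (2 * kap n * (q : ℝ) ^ 2) ^ 2 := by
      calc (q : ℝ) ^ 2 * Real.exp (2 * i / n) ≤ (q : ℝ) ^ 2 * (4 * kap n ^ 2 * (q : ℝ) ^ 2) := by
            gcongr
            exact h3.trans hq3
        _ = _ := by ring
    linarith
  obtain ⟨a, ha0, ha⟩ := avg hn0 (Finset.range (J + 1)) F c hmod hsum
  obtain ⟨A, f, hdet, hinj, hf0, horth, hnorm⟩ := lat a ha0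
  set G : ℕ → Finset (Fin n → ℤ) := fun i =>
    (F i).filter fun w => ∑ j, a j * ((w j : ℤ) : ZMod p) = 0 with hG
  set M : Matrix (Fin n) (Fin n) ℝ := (1 / (q : ℝ)) • A with hM
  have hMn : ∀ w, normSq M w = (∑ i, (f w i : ℝ) ^ 2) / (q : ℝ) ^ 2 := by
    intro w
    rw [hM, normSq_scale, hnorm]
    field_simp
  have hMG : ∀ (i : ℕ) (w : Fin n → ℤ), w ≠ 0 → normSq M w < Real.exp (2 * i / n) →
      f w ∈ G i := by
    intro i w hw hlt
    simp only [hG, Finset.mem_filter]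
    refine ⟨(hFm i _).2 ⟨hf0 w hw, ?_⟩, horth w⟩
    rw [hMn, div_lt_iff₀ (by positivity)] at hlt
    linarith
  have hMd : M.det = p / (q : ℝ) ^ n := by
    rw [hM, Matrix.det_smul, Fintype.card_fin, hdet, one_div, inv_pow, mul_comm, div_eq_mul_inv]
  have hsplit : (G 0).card + ∑ j ∈ Finset.range J, c (j + 1) * ((G (j + 1)).card : ℝ) < 1 := by
    rw [Finset.sum_range_succ', hc0, one_mul] at ha
    linarith
  have hG0 : (G 0).card = 0 := by
    have h1 : 0 ≤ ∑ j ∈ Finset.range J, c (j + 1) * ((G (j + 1)).card : ℝ) :=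
      Finset.sum_nonneg fun j _ => mul_nonneg (hcn _) (Nat.cast_nonneg _)
    have h2 : ((G 0).card : ℝ) < 1 := by linarith
    have h3 : (G 0).card < 1 := by exact_mod_cast h2
    omega
  have hAdm : Adm M := by
    refine ⟨?_, fun w hw => ?_⟩
    · rw [hMd]
      positivity
    · by_contra hlt
      push Not at hlt
      have h1 := hMG 0 w hw (by simpa using hlt)
      rw [Finset.card_eq_zero] at hG0
      rw [hG0] at h1
      exact Finset.notMem_empty _ h1
  have hGs : ∑ j ∈ Finset.range J, Real.exp (-(1 + η) * j) * ((G (j + 1)).card : ℝ) ≤ K' := by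
    have h1 : ∑ j ∈ Finset.range J, c (j + 1) * ((G (j + 1)).card : ℝ) < 1 := by
      have : (0 : ℝ) ≤ (G 0).card := Nat.cast_nonneg _
      linarith
    have h2 : ∑ j ∈ Finset.range J, c (j + 1) * ((G (j + 1)).card : ℝ) =
        1 / K' * ∑ j ∈ Finset.range J, Real.exp (-(1 + η) * j) * ((G (j + 1)).card : ℝ) := by
      rw [Finset.mul_sum]
      refine Finset.sum_congr rfl fun j _ => ?_
      rw [hcs]
      ring
    rw [h2, one_div, inv_mul_lt_iff₀ hK'0, mul_one] at h1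
    exact h1.le
  refine ⟨M, hAdm, ?_, ?_⟩
  · rw [hMd, abs_of_pos (by positivity), div_le_iff₀ hqn]
    exact hpu
  set N : ℕ → ℝ := fun j => if j < J then ((G (j + 1)).card : ℝ) else
    (10 : ℝ) ^ ((n : ℝ) / 2) * Real.exp (j + 1) with hN
  refine zt_le hn0 hAdm hη N (K' + 1) ?_ ?_
  · intro j S hS
    simp only [hN]
    split_ifs with hj
    · have h1 : (S.image f).card ≤ (G (j + 1)).card := by
        refine Finset.card_le_card fun y hy => ?_
        rw [Finset.mem_image] at hy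
        obtain ⟨w, hw, rfl⟩ := hy
        refine hMG (j + 1) w (hS w hw).1 ?_
        have := (hS w hw).2
        push_cast
        exact this
      rw [Finset.card_image_of_injective S hinj] at h1
      exact_mod_cast h1
    · have h1 := packing hAdm (r := Real.exp (2 * (j + 1) / n)) (Real.one_le_exp (by positivity)) S
        fun w hw => (hS w hw).2
      refine h1.trans (le_of_eq ?_)
      rw [Real.mul_rpow (by norm_num) (Real.exp_pos _).le, ← Real.exp_mul]
      congr 2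
      field_simp
  · intro J2
    have hsp : ∑ j ∈ Finset.range J2, Real.exp (-(1 + η) * j) * N j =
        ∑ j ∈ (Finset.range J2).filter (fun j => j < J), Real.exp (-(1 + η) * j) * N j +
        ∑ j ∈ (Finset.range J2).filter (fun j => ¬ j < J), Real.exp (-(1 + η) * j) * N j :=
      (Finset.sum_filter_add_sum_filter_not _ _ _).symm
    have h1 : ∑ j ∈ (Finset.range J2).filter (fun j => j < J), Real.exp (-(1 + η) * j) * N j ≤
        K' := by
      refine le_trans ?_ hGs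
      have h2 : ∀ j ∈ (Finset.range J2).filter (fun j => j < J), Real.exp (-(1 + η) * j) * N j =
          Real.exp (-(1 + η) * j) * ((G (j + 1)).card : ℝ) := by
        intro j hj
        simp only [hN, if_pos (Finset.mem_filter.1 hj).2]
      rw [Finset.sum_congr rfl h2]
      refine Finset.sum_le_sum_of_subset_of_nonneg (fun j hj => ?_) fun j _ _ => by positivity
      exact Finset.mem_range.2 (Finset.mem_filter.1 hj).2
    have h3 : ∑ j ∈ (Finset.range J2).filter (fun j => ¬ j < J), Real.exp (-(1 + η) * j) * N j ≤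
        1 := by
      refine le_trans ?_ hJ
      have h4 : ∀ j ∈ (Finset.range J2).filter (fun j => ¬ j < J),
          Real.exp (-(1 + η) * j) * N j = (10 : ℝ) ^ ((n : ℝ) / 2) * Real.exp 1 * x ^ j := by
        intro j hj
        simp only [hN, if_neg (Finset.mem_filter.1 hj).2]
        have h5 := exp_eq η j
        calc _ = (10 : ℝ) ^ ((n : ℝ) / 2) * (Real.exp (-(1 + η) * j) * Real.exp (j + 1)) := by ring
          _ = _ := by rw [h5]; ring
      rw [Finset.sum_congr rfl h4, ← Finset.mul_sum]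
      refine mul_le_mul_of_nonneg_left ?_ (by positivity)
      have h6 : (Finset.range J2).filter (fun j => ¬ j < J) ⊆ Finset.Ico J (J + J2) := by
        intro j hj
        rw [Finset.mem_filter, Finset.mem_range] at hj
        rw [Finset.mem_Ico]
        omega
      refine (Finset.sum_le_sum_of_subset_of_nonneg h6 fun j _ _ => by positivity).trans ?_
      rw [Finset.sum_Ico_eq_sum_range, Nat.add_sub_cancel_left]
      have h7 : ∀ i ∈ Finset.range J2, x ^ (J + i) = x ^ J * x ^ i := fun i _ => pow_add _ _ _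
      rw [Finset.sum_congr rfl h7, ← Finset.mul_sum, div_eq_mul_one_div]
      exact mul_le_mul_of_nonneg_left (geom_le hx0.le hx1 J2) (by positivity)
    rw [hsp]
    linarith

end Pool.Agent.KLG
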