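import Pool.Agent.Lib.KLG.Rows

/-!
Rows K and L: the critical attraction and the failure of the mean field formula.
-/

set_option autoImplicit false

namespace Pool.Agent.KLG

open MeasureTheory Filter Topology

/-! ### The ideal gas bound -/

theorem Z_le {d : ℕ} {a ℓ : ℝ} (hℓ : 0 ≤ ℓ) (N : ℕ) :
    Pool.Agent.KacGas.Z d a (fun _ => 0) ℓ N ≤ (ℓ ^ d) ^ N / N.factorial := by
  unfold Pool.Agent.KacGas.Z
  have hsub : {x : Fin N → Fin d → ℝ | (∀ i, x i ∈ Pool.Agent.SquareWellGas.Box d ℓ) ∧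
      ∀ i j, i ≠ j → (2 * a) ^ 2 ≤ ∑ k, (x i k - x j k) ^ 2} ⊆
      Set.univ.pi fun _ => Set.univ.pi fun _ => Set.Ico (0 : ℝ) ℓ := by
    intro x hx i _ k _
    exact hx.1 i k
  have hvol : volume (Set.univ.pi fun _ : Fin N => Set.univ.pi fun _ : Fin d =>
      Set.Ico (0 : ℝ) ℓ) = ENNReal.ofReal ((ℓ ^ d) ^ N) := by
    rw [volume_pi_pi]
    simp only [volume_pi_pi, Real.volume_Ico, sub_zero, Finset.prod_const, Finset.card_univ,
      Fintype.card_fin]
    rw [ENNReal.ofReal_pow (by positivity), ENNReal.ofReal_pow hℓ]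
  have h1 : ∫ x in {x : Fin N → Fin d → ℝ | (∀ i, x i ∈ Pool.Agent.SquareWellGas.Box d ℓ) ∧
      ∀ i j, i ≠ j → (2 * a) ^ 2 ≤ ∑ k, (x i k - x j k) ^ 2},
        Real.exp (∑ i, ∑ j ∈ Finset.Ioi i, (fun _ => (0 : ℝ)) (x i - x j)) ≤ (ℓ ^ d) ^ N := by
    simp only [Finset.sum_const_zero, Real.exp_zero]
    rw [setIntegral_const, smul_eq_mul, mul_one]
    have h2 := measure_mono (μ := volume) hsub
    rw [hvol] at h2
    calc (volume.real _ : ℝ) ≤ (ENNReal.ofReal ((ℓ ^ d) ^ N)).toReal :=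
          ENNReal.toReal_mono ENNReal.ofReal_ne_top h2
      _ = (ℓ ^ d) ^ N := ENNReal.toReal_ofReal (by positivity)
  have h3 : (0 : ℝ) < N.factorial := by positivity
  rw [div_eq_inv_mul]
  exact mul_le_mul_of_nonneg_left h1 (by positivity)

theorem ideal {d : ℕ} {a : ℝ} {f : ℝ → ℝ} {ρ₀ : ℝ} (hd : 1 ≤ d)
    (hf : Pool.Agent.VdwGas.IsF d a (fun _ => 0) f ρ₀) {ρ : ℝ} (h0 : 0 < ρ) (h1 : ρ < ρ₀) :
    f ρ ≤ ρ - ρ * Real.log ρ := by
  obtain ⟨ℓ, hℓ⟩ : ∃ ℓ : ℕ → ℝ, ℓ = fun j : ℕ => (j : ℝ) + 1 := ⟨_, rfl⟩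
  obtain ⟨N, hN⟩ : ∃ N : ℕ → ℕ, N = fun j => ⌊ρ * ℓ j ^ d⌋₊ := ⟨_, rfl⟩
  have hℓp : ∀ j, 0 < ℓ j := fun j => by rw [hℓ]; positivity
  have hℓt : Tendsto ℓ atTop atTop := by
    rw [hℓ]
    exact tendsto_atTop_add_const_right _ _ tendsto_natCast_atTop_atTop
  have hVt : Tendsto (fun j => ℓ j ^ d) atTop atTop :=
    (tendsto_pow_atTop (by omega)).comp hℓt
  have hNt : Tendsto (fun j => (N j : ℝ) / ℓ j ^ d) atTop (𝓝 ρ) := by
    rw [hN]
    exact (tendsto_nat_floor_mul_div_atTop h0.le).comp hVt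
  obtain ⟨hpos, hlim⟩ := (hf.2 ℓ N ρ hℓt hNt).1 ⟨h0, h1⟩
  have hlim2 : Tendsto (fun j => (N j : ℝ) / ℓ j ^ d -
      (N j : ℝ) / ℓ j ^ d * Real.log ((N j : ℝ) / ℓ j ^ d)) atTop (𝓝 (ρ - ρ * Real.log ρ)) :=
    hNt.sub (hNt.mul (((Real.continuousAt_log h0.ne').tendsto).comp hNt))
  refine le_of_tendsto_of_tendsto hlim hlim2 ?_
  filter_upwards [hpos, hNt.eventually (lt_mem_nhds h0)] with j hj hN0
  have hV : 0 < ℓ j ^ d := pow_pos (hℓp j) d
  have hNj : (0 : ℝ) < N j := by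
    by_contra h
    have h2 : (N j : ℝ) = 0 := le_antisymm (not_lt.1 h) (Nat.cast_nonneg _)
    rw [h2, zero_div] at hN0
    exact lt_irrefl _ hN0
  have hZ := Z_le (a := a) (hℓp j).le (d := d) (N j)
  have hfac : (0 : ℝ) < (N j).factorial := by positivity
  have h2 : Real.log (Pool.Agent.KacGas.Z d a (fun _ => 0) (ℓ j) (N j)) ≤
      (N j : ℝ) - N j * Real.log ((N j : ℝ) / ℓ j ^ d) := by
    calc Real.log (Pool.Agent.KacGas.Z d a (fun _ => 0) (ℓ j) (N j))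
        ≤ Real.log ((ℓ j ^ d) ^ (N j) / (N j).factorial) := Real.log_le_log hj hZ
      _ ≤ (N j : ℝ) - N j * Real.log ((N j : ℝ) / ℓ j ^ d) := by
          have h3 : ((N j : ℝ)) ^ (N j) / (N j).factorial ≤ Real.exp (N j) :=
            Real.pow_div_factorial_le_exp _ (Nat.cast_nonneg _) _
          have h4 : (ℓ j ^ d) ^ (N j) / (N j).factorial =
              (ℓ j ^ d / N j) ^ (N j) * (((N j : ℝ)) ^ (N j) / (N j).factorial) := by
            rw [div_pow]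
            field_simp
          have h5 : 0 < (ℓ j ^ d / N j) ^ (N j) := by positivity
          rw [h4, Real.log_mul h5.ne' (by positivity), Real.log_pow,
            Real.log_div hV.ne' hNj.ne', Real.log_div hNj.ne' hV.ne']
          have h6 : Real.log (((N j : ℝ)) ^ (N j) / (N j).factorial) ≤ N j := by
            rw [Real.log_le_iff_le_exp (by positivity)]
            exact h3
          nlinarith
  rw [div_le_iff₀ hV]
  calc Real.log (Pool.Agent.KacGas.Z d a (fun _ => 0) (ℓ j) (N j))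
      ≤ (N j : ℝ) - N j * Real.log ((N j : ℝ) / ℓ j ^ d) := h2
    _ = ((N j : ℝ) / ℓ j ^ d -
      (N j : ℝ) / ℓ j ^ d * Real.log ((N j : ℝ) / ℓ j ^ d)) * ℓ j ^ d := by
        field_simp

/-! ### Cells -/

theorem cells (hI : RowI) (hJ : RowJ) (s : ℝ) (hs : 0 < s) : ∃ d0 : ℕ, ∀ d : ℕ, d0 ≤ d →
    0 < kap d ∧ ∀ a : ℝ, 0 < a → ∀ (f : ℝ → ℝ) (ρ₀ : ℝ),
      Pool.Agent.VdwGas.IsF d a (fun _ => 0) f ρ₀ → ∀ ρ : ℝ, 0 < ρ →
        ρ * (kap d * (2 * a) ^ d) ≤ (d : ℝ) ^ (2 - s) →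
        ρ < ρ₀ ∧ ρ * (Real.log (kap d * (2 * a) ^ d) - d * Real.log (2 * d)) ≤ f ρ := by
  obtain ⟨n0, hn0⟩ := hI (s / 2) (by positivity)
  refine ⟨max (max n0 1) ⌈Real.exp (2 / s)⌉₊, fun d hd => ?_⟩
  have hd1 : n0 ≤ d := (le_max_left _ _).trans ((le_max_left _ _).trans hd)
  have hd2 : 1 ≤ d := (le_max_right _ _).trans ((le_max_left _ _).trans hd)
  have hd3 : Real.exp (2 / s) ≤ d :=
    (Nat.le_ceil _).trans (by exact_mod_cast (le_max_right _ _).trans hd)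
  have hdp : (0 : ℝ) < d := by exact_mod_cast hd2
  obtain ⟨M, hM, hM2⟩ := hn0 d hd1
  have hdet : 0 < |M.det| := abs_pos.2 hM.1
  have hpw : (0 : ℝ) < (d : ℝ) ^ (2 - s / 2) := Real.rpow_pos_of_pos hdp _
  have hk : 0 < kap d := lt_of_lt_of_le (mul_pos hdet hpw) hM2
  refine ⟨hk, fun a ha f ρ₀ hf ρ hρ hρb => ?_⟩
  have ha2 : (0 : ℝ) < (2 * a) ^ d := by positivity
  have hA : Real.exp 1 ≤ (d : ℝ) ^ (s / 2) := by
    calc Real.exp 1 = Real.exp (2 / s) ^ (s / 2) := by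
          rw [← Real.exp_mul]
          congr 1
          field_simp
      _ ≤ (d : ℝ) ^ (s / 2) := Real.rpow_le_rpow (Real.exp_pos _).le hd3 (by positivity)
  have hB : (1 + 1 / (d : ℝ)) ^ d ≤ Real.exp 1 := by
    calc (1 + 1 / (d : ℝ)) ^ d ≤ Real.exp (1 / d) ^ d := by
          refine pow_le_pow_left₀ (by positivity) ?_ d
          have := Real.add_one_le_exp (1 / (d : ℝ))
          linarith
      _ = Real.exp 1 := by
          rw [← Real.exp_nat_mul]
          congr 1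
          field_simp
  have hC : ρ * |M.det| * (2 * a * (1 + 1 / d)) ^ d ≤ 1 := by
    rw [mul_pow]
    have h1 : ρ * (2 * a) ^ d * kap d ≤ (d : ℝ) ^ (2 - s) := by
      calc ρ * (2 * a) ^ d * kap d = ρ * (kap d * (2 * a) ^ d) := by ring
        _ ≤ _ := hρb
    have h2 : ρ * (2 * a) ^ d * (|M.det| * (d : ℝ) ^ (2 - s / 2)) ≤ (d : ℝ) ^ (2 - s) :=
      (mul_le_mul_of_nonneg_left hM2 (by positivity)).trans h1
    have h3 : (d : ℝ) ^ (2 - s / 2) = (d : ℝ) ^ (2 - s) * (d : ℝ) ^ (s / 2) := by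
      rw [← Real.rpow_add hdp]
      congr 1
      ring
    have hpw2 : (0 : ℝ) < (d : ℝ) ^ (2 - s) := Real.rpow_pos_of_pos hdp _
    have h4 : ρ * (2 * a) ^ d * |M.det| * (d : ℝ) ^ (s / 2) ≤ 1 := by
      rw [h3] at h2
      have h5 : (ρ * (2 * a) ^ d * |M.det| * (d : ℝ) ^ (s / 2)) * (d : ℝ) ^ (2 - s) ≤
          1 * (d : ℝ) ^ (2 - s) := by
        calc (ρ * (2 * a) ^ d * |M.det| * (d : ℝ) ^ (s / 2)) * (d : ℝ) ^ (2 - s)
            = ρ * (2 * a) ^ d * (|M.det| * ((d : ℝ) ^ (2 - s) * (d : ℝ) ^ (s / 2))) := by ring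
          _ ≤ _ := by rw [one_mul]; exact h2
      exact le_of_mul_le_mul_right h5 hpw2
    calc ρ * |M.det| * ((2 * a) ^ d * (1 + 1 / (d : ℝ)) ^ d)
        = ρ * (2 * a) ^ d * |M.det| * (1 + 1 / (d : ℝ)) ^ d := by ring
      _ ≤ ρ * (2 * a) ^ d * |M.det| * (d : ℝ) ^ (s / 2) :=
          mul_le_mul_of_nonneg_left (hB.trans hA) (by positivity)
      _ ≤ 1 := h4
  obtain ⟨h1, h2⟩ := hJ d hd2 a ha f ρ₀ hf M hM ρ hρ hC
  refine ⟨h1, ?_⟩
  have h3 : Real.log (kap d * (a / d) ^ d) =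
      Real.log (kap d * (2 * a) ^ d) - d * Real.log (2 * d) := by
    have h4 : kap d * (a / d) ^ d = kap d * (2 * a) ^ d / (2 * d) ^ d := by
      rw [div_pow, mul_pow, mul_pow]
      field_simp
    rw [h4, Real.log_div (by positivity) (by positivity), Real.log_pow]
  rw [← h3]
  exact h2

/-! ### Row K -/

theorem affine_nonpos {A B c : ℝ} (hc : 0 < c) (h : ∀ x ∈ Set.Ioo 0 c, A + B * x ≤ 0) :
    A ≤ 0 := by
  by_contra hA
  push Not at hA
  obtain ⟨x, hx⟩ : ∃ x, x = min (c / 2) (A / (2 * (|B| + 1))) := ⟨_, rfl⟩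
  have hB : 0 < |B| + 1 := by positivity
  have hx0 : 0 < x := by
    rw [hx]
    exact lt_min (by positivity) (by positivity)
  have hx1 : x < c := by
    rw [hx]
    exact (min_le_left _ _).trans_lt (by linarith)
  have hx2 : x * (2 * (|B| + 1)) ≤ A := by
    rw [← le_div_iff₀ (by positivity), hx]
    exact min_le_right _ _
  have h1 := h x ⟨hx0, hx1⟩
  have h2 : -|B| * x ≤ B * x := mul_le_mul_of_nonneg_right (neg_abs_le B) hx0.le
  nlinarith [abs_nonneg B]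

theorem rowK (hI : RowI) (hJ : RowJ) : RowK := by
  intro s hs
  obtain ⟨s0, hs0⟩ : ∃ s0, s0 = min s 1 := ⟨_, rfl⟩
  have hs1 : 0 < s0 := by rw [hs0]; exact lt_min hs one_pos
  have hs2 : s0 ≤ s := by rw [hs0]; exact min_le_left _ _
  have hs3 : s0 ≤ 1 := by rw [hs0]; exact min_le_right _ _
  obtain ⟨d1, hd1⟩ := cells hI hJ (s0 / 2) (by positivity)
  -- numerical requirements
  have hE1 : ∀ᶠ d : ℕ in atTop, 2 * Real.exp 2 ≤ (d : ℝ) ^ (2 - s0 / 2) :=
    ((tendsto_rpow_atTop (by linarith)).comp tendsto_natCast_atTop_atTop).eventually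
      (eventually_ge_atTop _)
  have hE2 : ∀ᶠ d : ℕ in atTop, Real.log (2 * d) < 1 / 4 * (d : ℝ) ^ (s0 / 2) := by
    have h1 : (fun x : ℝ => Real.log (2 * x)) =o[atTop] fun x : ℝ => x ^ (s0 / 2) := by
      have h2 : (fun x : ℝ => Real.log 2 + Real.log x) =o[atTop] fun x : ℝ => x ^ (s0 / 2) :=
        (Asymptotics.isLittleO_const_left.2 (Or.inr (tendsto_norm_atTop_atTop.comp
          (tendsto_rpow_atTop (by positivity))))).add
          (isLittleO_log_rpow_atTop (by positivity))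
      refine h2.congr' ?_ EventuallyEq.rfl
      filter_upwards [eventually_gt_atTop 0] with x hx
      rw [Real.log_mul (by norm_num) hx.ne']
    have h3 := (h1.def (show (0 : ℝ) < 1 / 8 by norm_num))
    have h4 := tendsto_natCast_atTop_atTop.eventually h3
    filter_upwards [h4, eventually_gt_atTop 0] with d hd hd0
    have hdp : (0 : ℝ) < d := by exact_mod_cast hd0
    have hp : (0 : ℝ) < (d : ℝ) ^ (s0 / 2) := Real.rpow_pos_of_pos hdp _
    rw [Real.norm_eq_abs, Real.norm_eq_abs, abs_of_pos hp] at hd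
    have := le_abs_self (Real.log (2 * d))
    linarith
  obtain ⟨d2, hd2⟩ := eventually_atTop.1 (hE1.and hE2)
  refine ⟨max (max d1 d2) 1, fun d hd a ha f ρ₀ hf hconc => ?_⟩
  have hdd1 : d1 ≤ d := (le_max_left _ _).trans ((le_max_left _ _).trans hd)
  have hdd2 : d2 ≤ d := (le_max_right _ _).trans ((le_max_left _ _).trans hd)
  have hdd3 : 1 ≤ d := (le_max_right _ _).trans hd
  have hdp : (0 : ℝ) < d := by exact_mod_cast hdd3
  have hdone : (1 : ℝ) ≤ d := by exact_mod_cast hdd3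
  obtain ⟨hn1, hn2⟩ := hd2 d hdd2
  obtain ⟨hk, hcell⟩ := hd1 d hdd1
  obtain ⟨b, hb⟩ : ∃ b, b = kap d * (2 * a) ^ d := ⟨_, rfl⟩
  have hbp : 0 < b := by rw [hb]; positivity
  obtain ⟨X, hX⟩ : ∃ X, X = (d : ℝ) ^ (2 - s0 / 2) := ⟨_, rfl⟩
  have hXp : 0 < X := by rw [hX]; exact Real.rpow_pos_of_pos hdp _
  obtain ⟨L, hL⟩ : ∃ L, L = Real.log b - d * Real.log (2 * d) := ⟨_, rfl⟩
  obtain ⟨β, hβ⟩ : ∃ β, β = kap d * (2 * a) ^ d * (d : ℝ) ^ (s - 1) := ⟨_, rfl⟩
  obtain ⟨x2, hx2⟩ : ∃ x2, x2 = Real.exp 2 / b := ⟨_, rfl⟩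
  obtain ⟨x3, hx3⟩ : ∃ x3, x3 = X / b := ⟨_, rfl⟩
  have hx2p : 0 < x2 := by rw [hx2]; positivity
  have hE : 0 < Real.exp 2 := Real.exp_pos 2
  have h23 : x2 < x3 := by
    rw [hx2, hx3]
    refine div_lt_div_of_pos_right ?_ hbp
    rw [hX]
    linarith
  have hx3p : 0 < x3 := hx2p.trans h23
  have hx3b : x3 * b = X := by rw [hx3]; field_simp
  have hx2b : x2 * b = Real.exp 2 := by rw [hx2]; field_simp
  have hc3 : ∀ ρ : ℝ, 0 < ρ → ρ ≤ x3 → ρ < ρ₀ ∧ ρ * L ≤ f ρ := by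
    intro ρ hρ hρ3
    rw [hL, hb]
    refine hcell a ha f ρ₀ hf ρ hρ ?_
    rw [← hb, ← hX, ← hx3b]
    exact mul_le_mul_of_nonneg_right hρ3 hbp.le
  have hg3 := hc3 x3 hx3p le_rfl
  have hg2 : f x2 ≤ x2 - x2 * Real.log x2 := ideal hdd3 hf hx2p (h23.trans hg3.1)
  have hlog2 : Real.log x2 = 2 - Real.log b := by
    rw [hx2, Real.log_div hE.ne' hbp.ne', Real.log_exp]
  -- concavity
  have hmain : x2 * (L + β / 2 * x3) - (f x2 + β / 2 * x2 ^ 2) ≤ 0 := by
    have h31 : 0 < x3 - x2 := by linarith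
    obtain ⟨A, hA⟩ : ∃ A, A = x3 * (x2 * (L + β / 2 * x3) - (f x2 + β / 2 * x2 ^ 2)) := ⟨_, rfl⟩
    have hA0 : A ≤ 0 := by
      refine affine_nonpos (B := (x3 - x2) * L - (x3 * L + β / 2 * x3 ^ 2) +
        (f x2 + β / 2 * x2 ^ 2)) hx2p fun x hx => ?_
      obtain ⟨hx0, hx1⟩ := hx
      have hx13 : 0 < x3 - x := by linarith
      have hcx := hc3 x hx0 (by linarith)
      have hβp : 0 < β := by
        rw [hβ]
        have := Real.rpow_pos_of_pos hdp (s - 1)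
        positivity
      have ha1 : 0 ≤ (x3 - x2) / (x3 - x) := div_nonneg h31.le hx13.le
      have ha2 : 0 ≤ (x2 - x) / (x3 - x) := div_nonneg (by linarith) hx13.le
      have ha3 : (x3 - x2) / (x3 - x) + (x2 - x) / (x3 - x) = 1 := by
        rw [← add_div]
        rw [div_eq_one_iff_eq hx13.ne']
        ring
      have hxm : x ∈ Set.Ioo 0 ρ₀ := ⟨hx0, hcx.1⟩
      have hx3m : x3 ∈ Set.Ioo 0 ρ₀ := ⟨hx3p, hg3.1⟩
      have h5 := hconc.2 hxm hx3m ha1 ha2 ha3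
      simp only [smul_eq_mul] at h5
      rw [← hβ] at h5
      have h6 : (x3 - x2) / (x3 - x) * x + (x2 - x) / (x3 - x) * x3 = x2 := by
        field_simp
        ring
      rw [h6] at h5
      have h7 : (x3 - x2) * (f x + β / 2 * x ^ 2) + (x2 - x) * (f x3 + β / 2 * x3 ^ 2) ≤
          (x3 - x) * (f x2 + β / 2 * x2 ^ 2) := by
        have h8 := mul_le_mul_of_nonneg_left h5 hx13.le
        calc (x3 - x2) * (f x + β / 2 * x ^ 2) + (x2 - x) * (f x3 + β / 2 * x3 ^ 2)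
            = (x3 - x) * ((x3 - x2) / (x3 - x) * (f x + β / 2 * x ^ 2) +
              (x2 - x) / (x3 - x) * (f x3 + β / 2 * x3 ^ 2)) := by
              field_simp
          _ ≤ _ := h8
      have h9 : (x3 - x2) * (x * L) ≤ (x3 - x2) * (f x + β / 2 * x ^ 2) := by
        refine mul_le_mul_of_nonneg_left ?_ h31.le
        have : 0 ≤ β / 2 * x ^ 2 := by positivity
        linarith [hcx.2]
      have h10 : (x2 - x) * (x3 * L + β / 2 * x3 ^ 2) ≤
          (x2 - x) * (f x3 + β / 2 * x3 ^ 2) :=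
        mul_le_mul_of_nonneg_left (by linarith [hg3.2]) (by linarith)
      rw [hA]
      nlinarith
    rw [hA] at hA0
    by_contra hcon
    push Not at hcon
    have := mul_pos hx3p hcon
    linarith
  -- numbers
  have hβ2 : β = b * (d : ℝ) ^ (s - 1) := by rw [hβ, hb]
  obtain ⟨P, hP⟩ : ∃ P, P = (d : ℝ) ^ (s - 1) := ⟨_, rfl⟩
  have hPp : 0 < P := by rw [hP]; exact Real.rpow_pos_of_pos hdp _
  have hPX : (d : ℝ) * (d : ℝ) ^ (s0 / 2) ≤ P * X := by
    calc (d : ℝ) * (d : ℝ) ^ (s0 / 2) = (d : ℝ) ^ (s0 - 1) * X := by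
          rw [hX, ← Real.rpow_add hdp]
          nth_rewrite 1 [← Real.rpow_one (d : ℝ)]
          rw [← Real.rpow_add hdp]
          congr 1
          ring
      _ ≤ P * X := by
          refine mul_le_mul_of_nonneg_right ?_ hXp.le
          rw [hP]
          exact Real.rpow_le_rpow_of_exponent_le hdone (by linarith)
  have hfin : x2 * (L + β / 2 * x3) - (f x2 + β / 2 * x2 ^ 2) > 0 := by
    have h1 : β / 2 * x3 = P * X / 2 := by
      rw [hβ2, ← hP, ← hx3b]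
      ring
    have h2 : β / 2 * x2 ^ 2 = x2 * (P * Real.exp 2 / 2) := by
      rw [hβ2, ← hP, ← hx2b]
      ring
    have h3 : f x2 ≤ x2 * (Real.log b - 1) := by
      rw [hlog2] at hg2
      nlinarith
    have h4 : Real.log b - 1 + P * Real.exp 2 / 2 < L + P * X / 2 := by
      rw [hL]
      have h5 : P * Real.exp 2 ≤ P * X / 2 := by
        have : Real.exp 2 ≤ X / 2 := by rw [hX]; linarith
        nlinarith
      have h6 : (d : ℝ) * Real.log (2 * d) ≤ d * (1 / 4 * (d : ℝ) ^ (s0 / 2)) :=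
        mul_le_mul_of_nonneg_left hn2.le hdp.le
      linarith
    rw [h1, h2]
    have h7 := mul_lt_mul_of_pos_left h4 hx2p
    linarith
  linarith

/-! ### Row L -/

theorem rowL (hI : RowI) (hJ : RowJ) : RowL := by
  intro s hs
  obtain ⟨d1, hd1⟩ := cells hI hJ s hs
  refine ⟨max (max d1 3) ⌈Real.exp (4 / s * (Real.log 2 + 1))⌉₊, fun d hd a ha f ρ₀ hf => ?_⟩
  have hdd1 : d1 ≤ d := (le_max_left _ _).trans ((le_max_left _ _).trans hd)
  have hdd2 : 3 ≤ d := (le_max_right _ _).trans ((le_max_left _ _).trans hd)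
  have hdd3 : Real.exp (4 / s * (Real.log 2 + 1)) ≤ d :=
    (Nat.le_ceil _).trans (by exact_mod_cast (le_max_right _ _).trans hd)
  have hd3 : (3 : ℝ) ≤ d := by exact_mod_cast hdd2
  have hdp : (0 : ℝ) < d := by linarith
  obtain ⟨hk, hcell⟩ := hd1 d hdd1
  intro ρ x b hb hx hx1 hx2
  have hbp : 0 < b := by rw [hb]; positivity
  have hlogd : 4 / s * (Real.log 2 + 1) ≤ Real.log d := by
    rw [Real.le_log_iff_exp_le hdp]
    exact hdd3
  have hlogd2 : Real.log 2 + 1 ≤ s / 4 * Real.log d := by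
    have h1 := mul_le_mul_of_nonneg_left hlogd (show (0 : ℝ) ≤ s / 4 by positivity)
    calc Real.log 2 + 1 = s / 4 * (4 / s * (Real.log 2 + 1)) := by field_simp
      _ ≤ _ := h1
  have hlog3 : 1 ≤ Real.log d := by
    rw [Real.le_log_iff_exp_le hdp]
    exact (Real.exp_one_lt_d9.le.trans (by norm_num)).trans hd3
  have hxone : 1 ≤ x := by
    have h1 : (1 : ℝ) ≤ d * Real.log d := by nlinarith
    nlinarith
  have hxp : 0 < x := by linarith
  have hρ : 0 < ρ := by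
    by_contra h
    push Not at h
    have : x ≤ 0 := by rw [hx]; exact mul_nonpos_of_nonpos_of_nonneg h hbp.le
    linarith
  obtain ⟨h1, h2⟩ := hcell a ha f ρ₀ hf ρ hρ (by rw [← hb, ← hx]; exact hx2)
  refine ⟨h1, ?_⟩
  have hlogρ : Real.log ρ = Real.log x - Real.log b := by
    rw [hx, Real.log_mul hρ.ne' hbp.ne']
    ring
  have hlogx : 0 ≤ Real.log x := Real.log_nonneg hxone
  have h3 : b * (ρ * (Real.log b - d * Real.log (2 * d))) ≤ b * f ρ := by
    rw [← hb] at h2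
    exact mul_le_mul_of_nonneg_left h2 hbp.le
  have h4 : b * (ρ * (Real.log b - d * Real.log (2 * d))) =
      x * (Real.log b - d * (Real.log 2 + Real.log d)) := by
    rw [hx, Real.log_mul (by norm_num) hdp.ne']
    ring
  rw [h4] at h3
  refine le_trans ?_ h3
  rw [hlogρ]
  have h5 : 1 - Real.log x - x / 2 + s / 4 * (d * Real.log d) ≤
      -(d * (Real.log 2 + Real.log d)) := by
    have h6 : d * (Real.log 2 + 1) ≤ d * (s / 4 * Real.log d) :=
      mul_le_mul_of_nonneg_left hlogd2 hdp.le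
    nlinarith
  have h7 := mul_le_mul_of_nonneg_left h5 hxp.le
  nlinarith

end Pool.Agent.KLG
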