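import Pool.Agent.Lib.KLG.RowA
import Pool.Agent.Lib.KLG.RowB
import Pool.Agent.Lib.KLG.RowC
import Pool.Agent.Lib.KLG.RowDE
import Pool.Agent.Lib.KLG.RowF
import Pool.Agent.Lib.KLG.RowH
import Pool.Agent.Lib.KLG.RowI
import Pool.Agent.Lib.KLG.RowJ
import Pool.Agent.Lib.KLG.RowKL

/-!
Dense lattice packings and hard spheres: the main theorems.
-/

set_option autoImplicit false

namespace Pool.Agent.KLG

/-- Dense lattice packings. -/
theorem packings : RowI := rowI (rowG rowE (rowF rowA rowB rowC rowD)) rowH

/-- The critical strength of the attraction. -/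
theorem critical : RowK := rowK packings rowJ

/-- Mean field theory is false beyond `(2 + s) d log d`. -/
theorem false_beyond : RowL := rowL packings rowJ

end Pool.Agent.KLG
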