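import Pool.Agent.Lib.KLG.Rows

set_option autoImplicit false

namespace Pool.Agent.KLG

open Matrix MeasureTheory Pool.Agent.Lib.MP_ef2672_gt_Tauber Pool.Agent.Lib.MP_ef2672_gt_Eutaxy

/-- `|x' C x| ≤ |C| |x|²`. -/
lemma quad_sq_le {n : ℕ} (C : Matrix (Fin n) (Fin n) ℝ) (x : Fin n → ℝ) :
    dotProduct x (C.mulVec x) ^ 2 ≤ (∑ i, ∑ j, C i j ^ 2) * dotProduct x x ^ 2 := by
  have h1 : dotProduct x (C.mulVec x) = ∑ p : Fin n × Fin n, C p.1 p.2 * (x p.1 * x p.2) := by
    rw [Fintype.sum_prod_type]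
    simp only [dotProduct, mulVec, Finset.mul_sum]
    exact Finset.sum_congr rfl fun i _ => Finset.sum_congr rfl fun j _ => by ring
  have h2 : (∑ i, ∑ j, C i j ^ 2) = ∑ p : Fin n × Fin n, C p.1 p.2 ^ 2 := by
    rw [Fintype.sum_prod_type]
  have h3 : dotProduct x x ^ 2 = ∑ p : Fin n × Fin n, (x p.1 * x p.2) ^ 2 := by
    rw [Fintype.sum_prod_type]
    simp only [dotProduct, sq, Finset.sum_mul, Finset.mul_sum]
    refine Finset.sum_congr rfl fun i _ => Finset.sum_congr rfl fun j _ => by ring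
  rw [h1, h2, h3]
  exact Finset.sum_mul_sq_le_sq_mul_sq _ _ _

lemma abs_quad_le {n : ℕ} {C : Matrix (Fin n) (Fin n) ℝ} (hC : ∑ i, ∑ j, C i j ^ 2 = 1)
    (x : Fin n → ℝ) : |dotProduct x (C.mulVec x)| ≤ dotProduct x x := by
  have h := quad_sq_le C x
  rw [hC, one_mul] at h
  exact abs_le_of_sq_le_sq h (dotProduct_self_nonneg' x)

/-- The square root of a positive definite perturbation. -/
lemma exists_root {n : ℕ} (A : Matrix (Fin n) (Fin n) ℝ) (hA : A.det ≠ 0)
    (C : Matrix (Fin n) (Fin n) ℝ) (hC : C.transpose = C) (h1 : ∑ i, ∑ j, C i j ^ 2 = 1)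
    {t : ℝ} (ht : |t| ≤ 1 / 2) :
    (1 + t • C).PosDef ∧ ∃ A' : Matrix (Fin n) (Fin n) ℝ, A'.det ≠ 0 ∧
      2 * Real.log |A'.det| = Real.log (1 + t • C).det + 2 * Real.log |A.det| ∧
      ∀ w : Fin n → ℤ, normSq A' w =
        normSq A w + t * dotProduct (vec A w) (C.mulVec (vec A w)) := by
  set Q : Matrix (Fin n) (Fin n) ℝ := 1 + t • C with hQ
  have hquad : ∀ x : Fin n → ℝ, dotProduct x (Q.mulVec x) =
      dotProduct x x + t * dotProduct x (C.mulVec x) := by
    intro x
    rw [hQ, Matrix.add_mulVec, Matrix.one_mulVec, dotProduct_add, Matrix.smul_mulVec,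
      dotProduct_smul, smul_eq_mul]
  have hlow : ∀ x : Fin n → ℝ, 1 / 2 * dotProduct x x ≤ dotProduct x (Q.mulVec x) := by
    intro x
    rw [hquad]
    have h2 := abs_quad_le h1 x
    have h3 := dotProduct_self_nonneg' x
    have h4 : |t * dotProduct x (C.mulVec x)| ≤ 1 / 2 * dotProduct x x := by
      rw [abs_mul]
      exact mul_le_mul ht h2 (abs_nonneg _) (by norm_num)
    have := (abs_le.1 h4).1
    linarith
  have hherm : Q.IsHermitian := by
    rw [Matrix.IsHermitian, Matrix.conjTranspose_eq_transpose_of_trivial, hQ,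
      Matrix.transpose_add, Matrix.transpose_one, Matrix.transpose_smul, hC]
  have hpd : Q.PosDef := by
    refine Matrix.PosDef.of_dotProduct_mulVec_pos hherm fun x hx => ?_
    rw [star_trivial]
    refine lt_of_lt_of_le ?_ (hlow x)
    have : 0 < dotProduct x x := by
      have h1 := dotProduct_self_nonneg' x
      refine lt_of_le_of_ne h1 fun h => hx ?_
      exact dotProduct_self_eq_zero.1 h.symm
    positivity
  refine ⟨hpd, ?_⟩
  obtain ⟨R, hR⟩ : ∃ R : Matrix (Fin n) (Fin n) ℝ, Q = R.conjTranspose * R := by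
    open scoped MatrixOrder ComplexOrder in
    obtain ⟨R, hR⟩ := CStarAlgebra.nonneg_iff_eq_star_mul_self.mp hpd.posSemidef.nonneg
    exact ⟨R, hR⟩
  rw [Matrix.conjTranspose_eq_transpose_of_trivial] at hR
  have hdetR : R.det ^ 2 = Q.det := by
    rw [hR, Matrix.det_mul, Matrix.det_transpose, sq]
  have hR0 : R.det ≠ 0 := by
    intro h
    have := hpd.det_pos
    rw [← hdetR, h] at this
    simp at this
  refine ⟨R * A, ?_, ?_, ?_⟩
  · rw [Matrix.det_mul]; exact mul_ne_zero hR0 hA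
  · rw [Matrix.det_mul, abs_mul, Real.log_mul (abs_pos.2 hR0).ne' (abs_pos.2 hA).ne', ← hdetR,
      ← sq_abs, Real.log_pow]
    push_cast
    ring
  · intro w
    rw [normSq_eq, normSq_eq, ← hquad]
    unfold Pool.Agent.Lib.MP_ef2672_gt_Eutaxy.vec
    rw [hR, ← Matrix.mulVec_mulVec, ← Matrix.mulVec_mulVec, Matrix.dotProduct_mulVec _ R.transpose,
      Matrix.vecMul_transpose]

theorem rowA : RowA := by
  intro n A C t hA hC h1 ht0 ht
  obtain ⟨hp1, A1, hA1, hl1, hn1⟩ := exists_root A hA C hC h1 (t := t)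
    (by rw [abs_of_pos ht0]; exact ht)
  obtain ⟨hp2, A2, hA2, hl2, hn2⟩ := exists_root A hA C hC h1 (t := -t)
    (by rw [abs_neg, abs_of_pos ht0]; exact ht)
  refine ⟨A1, A2, hA1, hA2, ?_, hn1, fun w => by rw [hn2 w]; ring⟩
  -- the determinants
  set P : Matrix (Fin n) (Fin n) ℝ := (1 + t • C) * (1 + (-t) • C) with hP
  have hPe : P = 1 - (t ^ 2) • (C * C) := by
    have h20 : (t • C) * ((-t) • C) = -((t ^ 2) • (C * C)) := by
      rw [Matrix.smul_mul, Matrix.mul_smul, smul_smul, ← neg_smul]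
      congr 1
      ring
    rw [hP, Matrix.mul_add, Matrix.mul_one, Matrix.add_mul, Matrix.one_mul, h20, neg_smul]
    abel
  have htr : (C * C).trace = 1 := by
    rw [Matrix.trace]
    simp only [Matrix.diag_apply, Matrix.mul_apply]
    rw [← h1]
    refine Finset.sum_congr rfl fun i _ => Finset.sum_congr rfl fun j _ => ?_
    have : C j i = C i j := by
      conv_lhs => rw [← hC]
      rfl
    rw [this, sq]
  have hCx : ∀ x : Fin n → ℝ, dotProduct (C.mulVec x) (C.mulVec x) ≤ dotProduct x x := by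
    intro x
    simp only [dotProduct]
    have h5 : ∀ i, C.mulVec x i * C.mulVec x i ≤ (∑ j, C i j ^ 2) * ∑ j, x j ^ 2 := by
      intro i
      rw [← sq]
      exact Finset.sum_mul_sq_le_sq_mul_sq Finset.univ (fun j => C i j) x
    refine (Finset.sum_le_sum fun i _ => h5 i).trans ?_
    rw [← Finset.sum_mul, h1, one_mul]
    exact le_of_eq (Finset.sum_congr rfl fun i _ => sq _)
  have hPpsd : P.PosSemidef := by
    refine Matrix.PosSemidef.of_dotProduct_mulVec_nonneg ?_ fun x => ?_
    · rw [Matrix.IsHermitian, Matrix.conjTranspose_eq_transpose_of_trivial, hPe,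
        Matrix.transpose_sub, Matrix.transpose_one, Matrix.transpose_smul, Matrix.transpose_mul, hC]
    · rw [star_trivial, hPe, Matrix.sub_mulVec, Matrix.one_mulVec, dotProduct_sub,
        Matrix.smul_mulVec, dotProduct_smul, smul_eq_mul]
      have h6 : dotProduct x ((C * C).mulVec x) = dotProduct (C.mulVec x) (C.mulVec x) := by
        rw [← Matrix.mulVec_mulVec, Matrix.dotProduct_mulVec]
        congr 1
        rw [← Matrix.mulVec_transpose, hC]
      rw [h6]
      have h7 := hCx x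
      have h8 := dotProduct_self_nonneg' x
      have h9 := dotProduct_self_nonneg' (C.mulVec x)
      have h10 : t ^ 2 ≤ 1 := by nlinarith
      nlinarith [mul_nonneg (sq_nonneg t) h9]
  have hdet : P.det ≤ Real.exp (-(t ^ 2)) := by
    refine (det_le_exp P hPpsd).trans (le_of_eq ?_)
    congr 1
    rw [hPe, Matrix.trace_sub, Matrix.trace_one, Matrix.trace_smul, htr, Fintype.card_fin]
    simp
  have hdp : P.det = (1 + t • C).det * (1 + (-t) • C).det := by rw [hP, Matrix.det_mul]
  have hlog : Real.log (1 + t • C).det + Real.log (1 + (-t) • C).det ≤ -(t ^ 2) := by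
    rw [← Real.log_mul hp1.det_pos.ne' hp2.det_pos.ne', ← hdp]
    have h11 : 0 < P.det := by rw [hdp]; exact mul_pos hp1.det_pos hp2.det_pos
    exact (Real.log_le_iff_le_exp h11).2 hdet
  linarith

end Pool.Agent.KLG
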